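import Mathlib

/-!
Clock auctions with `n` buyers, finitely supported independent priors, and optimal welfare.
-/

namespace Pool.Agent.H68.Clock

open scoped Classical in
/-- The drop-out history of a clock auction with pricing rule `price` on the value profile `v`:
the list of the active sets after each round, the latest one first.  Before the first round all
buyers are active.  In each round the auction, which knows the history `h` only, offers the price
`price h i` to each active buyer `i`, and the active buyers whose value is below their price
drop out for good.  A price may be infinite, which rejects the buyer. -/
noncomputable def history {n : ℕ} (price : List (Finset (Fin n)) → Fin n → EReal)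
    (v : Fin n → ℝ) : ℕ → List (Finset (Fin n))
  | 0 => [Finset.univ]
  | t + 1 =>
      ((history price v t).headI.filter fun i => price (history price v t) i ≤ (v i : EReal)) ::
        history price v t

/-- A deterministic clock auction for the feasibility constraint `F`: the personalised prices and
the decision to stop are functions of the drop-out history.  On every profile of nonnegative
values, as long as the auction has not stopped the price offered to an active buyer weakly
increases over time, and the set of active buyers is feasible at the moment when the auction
stops. -/
structure ClockAuction {n : ℕ} (F : Set (Finset (Fin n))) where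
  /-- the prices offered in the next round, given the history -/
  price : List (Finset (Fin n)) → Fin n → EReal
  /-- whether the auction stops at this history -/
  stop : List (Finset (Fin n)) → Prop
  /-- prices offered to an active buyer weakly increase -/
  price_mono : ∀ v : Fin n → ℝ, (∀ i, 0 ≤ v i) → ∀ t : ℕ,
    (∀ u ≤ t + 1, ¬ stop (history price v u)) → ∀ i ∈ (history price v (t + 1)).headI,
      price (history price v t) i ≤ price (history price v (t + 1)) i
  /-- the auction stops at a feasible active set only -/
  feasible : ∀ v : Fin n → ℝ, (∀ i, 0 ≤ v i) → ∀ t : ℕ, stop (history price v t) →
    (∀ u < t, ¬ stop (history price v u)) → (history price v t).headI ∈ F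

open scoped Classical in
/-- The welfare of a clock auction on the profile `v`: the total value of the buyers that are
active at the first time the auction stops (and `0` if it never stops). -/
noncomputable def ClockAuction.welfare {n : ℕ} {F : Set (Finset (Fin n))} (A : ClockAuction F)
    (v : Fin n → ℝ) : ℝ :=
  if h : ∃ t, A.stop (history A.price v t) then
    ∑ i ∈ (history A.price v (Nat.find h)).headI, v i
  else 0

/-- The optimal welfare: the largest total value of a feasible set. -/
noncomputable def optWelfare {n : ℕ} (F : Set (Finset (Fin n))) (v : Fin n → ℝ) : ℝ :=
  sSup ((fun S : Finset (Fin n) => ∑ i ∈ S, v i) '' F)

/-- Independent finitely supported value distributions: buyer `i` has value `x` in the finite set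
`supp i` of nonnegative reals with probability `prob i x`. -/
structure Prior (n : ℕ) where
  /-- the possible values of a buyer -/
  supp : Fin n → Finset ℝ
  /-- their probabilities -/
  prob : Fin n → ℝ → ℝ
  supp_nonneg : ∀ i, ∀ x ∈ supp i, 0 ≤ x
  prob_nonneg : ∀ i, ∀ x ∈ supp i, 0 ≤ prob i x
  prob_sum : ∀ i, ∑ x ∈ supp i, prob i x = 1

/-- The expectation of `f v` for independent values `v i` distributed by the prior. -/
noncomputable def Prior.expect {n : ℕ} (D : Prior n) (f : (Fin n → ℝ) → ℝ) : ℝ :=
  ∑ v ∈ Fintype.piFinset D.supp, (∏ i, D.prob i (v i)) * f v

end Pool.Agent.H68.Clock
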