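import Mathlib

/-!
Finite product sums: the tower property, coordinatewise replacement and pushforward.
-/

namespace Pool.Agent.H68.Clock

open Finset

section

variable {ι X : Type*} [Fintype ι] [DecidableEq ι] [Fintype X]

/-- The weighted sum of `f` over all functions `ι → X`, with product weights. -/
noncomputable def pE (μ : ι → X → ℝ) (f : (ι → X) → ℝ) : ℝ :=
  ∑ x : ι → X, (∏ i, μ i (x i)) * f x

theorem pE_const (μ : ι → X → ℝ) (c : ℝ) : pE μ (fun _ => c) = (∏ i, ∑ k, μ i k) * c := by
  unfold pE
  rw [← Finset.sum_mul, Fintype.prod_sum μ]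

theorem pE_mono (μ : ι → X → ℝ) (hμ : ∀ i k, 0 ≤ μ i k) {f g : (ι → X) → ℝ}
    (h : ∀ x, f x ≤ g x) : pE μ f ≤ pE μ g := by
  unfold pE
  exact Finset.sum_le_sum fun x _ =>
    mul_le_mul_of_nonneg_left (h x) (Finset.prod_nonneg fun i _ => hμ i (x i))

theorem pE_mul_left (μ : ι → X → ℝ) (c : ℝ) (f : (ι → X) → ℝ) :
    pE μ (fun x => c * f x) = c * pE μ f := by
  unfold pE
  rw [Finset.mul_sum]
  exact Finset.sum_congr rfl fun x _ => by ring

theorem pE_add (μ : ι → X → ℝ) (f g : (ι → X) → ℝ) :
    pE μ (fun x => f x + g x) = pE μ f + pE μ g := by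
  unfold pE
  rw [← Finset.sum_add_distrib]
  exact Finset.sum_congr rfl fun x _ => by ring

theorem pE_sub (μ : ι → X → ℝ) (f g : (ι → X) → ℝ) :
    pE μ (fun x => f x - g x) = pE μ f - pE μ g := by
  unfold pE
  rw [← Finset.sum_sub_distrib]
  exact Finset.sum_congr rfl fun x _ => by ring

theorem pE_sum {κ : Type*} (s : Finset κ) (μ : ι → X → ℝ) (f : κ → (ι → X) → ℝ) :
    pE μ (fun x => ∑ j ∈ s, f j x) = ∑ j ∈ s, pE μ (f j) := by
  unfold pE
  rw [Finset.sum_comm]
  exact Finset.sum_congr rfl fun x _ => by rw [Finset.mul_sum]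

/-- The expectation of a product function is the product of the expectations. -/
theorem pE_prod (μ : ι → X → ℝ) (g : ι → X → ℝ) :
    pE μ (fun x => ∏ i, g i (x i)) = ∏ i, ∑ k, μ i k * g i k := by
  unfold pE
  rw [Fintype.prod_sum]
  exact Finset.sum_congr rfl fun x _ => by rw [Finset.prod_mul_distrib]

/-- Resampling the coordinate `a`. -/
theorem pE_tower (μ : ι → X → ℝ) (a : ι) (f : (ι → X) → ℝ) :
    pE μ (fun x => ∑ k, μ a k * f (Function.update x a k)) = (∑ k, μ a k) * pE μ f := by
  unfold pE
  have key : ∀ (x : ι → X) (k : X), (∏ i, μ i (x i)) * μ a k =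
      (∏ i, μ i (Function.update x a k i)) * μ a (x a) := by
    intro x k
    rw [← Finset.mul_prod_erase univ (fun i => μ i (x i)) (Finset.mem_univ a),
      ← Finset.mul_prod_erase univ (fun i => μ i (Function.update x a k i)) (Finset.mem_univ a)]
    have h1 : ∏ i ∈ univ.erase a, μ i (Function.update x a k i) =
        ∏ i ∈ univ.erase a, μ i (x i) := by
      refine Finset.prod_congr rfl fun i hi => ?_
      rw [Function.update_of_ne (Finset.ne_of_mem_erase hi)]
    rw [h1, Function.update_self]
    ring
  have inv : Function.Involutive (fun p : (ι → X) × X => (Function.update p.1 a p.2, p.1 a)) := by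
    rintro ⟨x, k⟩
    simp
  calc ∑ x : ι → X, (∏ i, μ i (x i)) * ∑ k, μ a k * f (Function.update x a k)
      = ∑ p : (ι → X) × X, ((∏ i, μ i (Function.update p.1 a p.2 i)) * μ a (p.1 a)) *
          f (Function.update p.1 a p.2) := by
        rw [Fintype.sum_prod_type]
        refine Finset.sum_congr rfl fun x _ => ?_
        rw [Finset.mul_sum]
        refine Finset.sum_congr rfl fun k _ => ?_
        rw [← mul_assoc, key]
    _ = ∑ p : (ι → X) × X, ((∏ i, μ i (p.1 i)) * μ a p.2) * f p.1 :=
        Equiv.sum_comp inv.toPerm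
          (fun p : (ι → X) × X => ((∏ i, μ i (p.1 i)) * μ a p.2) * f p.1)
    _ = (∑ k, μ a k) * ∑ x : ι → X, (∏ i, μ i (x i)) * f x := by
        rw [Fintype.sum_prod_type, Finset.mul_sum]
        refine Finset.sum_congr rfl fun x _ => ?_
        rw [Finset.sum_mul]
        exact Finset.sum_congr rfl fun k _ => by ring

/-- Coordinatewise replacement: if at each coordinate the weighted average of `Φ` over the moves
is at most the total weight times `Φ`, then the same holds for all moves made at once. -/
theorem pE_replace {St : Type*} (μ : ι → X → ℝ) (hμ : ∀ i k, 0 ≤ μ i k) (g : ι → X → St)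
    (ω₀ : ι → St) (Φ : (ι → St) → ℝ)
    (h : ∀ i, ∀ ω : ι → St, ω i = ω₀ i →
      ∑ k, μ i k * Φ (Function.update ω i (g i k)) ≤ (∑ k, μ i k) * Φ ω) :
    pE μ (fun x => Φ (fun i => g i (x i))) ≤ (∏ i, ∑ k, μ i k) * Φ ω₀ := by
  classical
  have main : ∀ A : Finset ι,
      pE μ (fun x => Φ (fun i => if i ∈ A then g i (x i) else ω₀ i)) ≤
        (∏ i, ∑ k, μ i k) * Φ ω₀ := by
    intro A
    induction A using Finset.induction_on with
    | empty => simp [pE_const]
    | insert a A ha ih =>
      refine le_trans ?_ ih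
      set m := ∑ k, μ a k with hm
      have hm0 : 0 ≤ m := Finset.sum_nonneg fun k _ => hμ a k
      rcases hm0.eq_or_lt with h0 | hpos
      · -- all weights at `a` vanish
        have hz : ∀ k, μ a k = 0 := by
          intro k
          have := (Finset.sum_eq_zero_iff_of_nonneg (fun k _ => hμ a k)).1 h0.symm k
            (Finset.mem_univ k)
          exact this
        have hz' : ∀ f : (ι → X) → ℝ, pE μ f = 0 := by
          intro f
          unfold pE
          refine Finset.sum_eq_zero fun x _ => ?_
          rw [Finset.prod_eq_zero (Finset.mem_univ a) (hz (x a)), zero_mul]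
        rw [hz', hz']
      · refine le_of_mul_le_mul_left ?_ hpos
        rw [hm, ← pE_tower μ a, ← pE_mul_left]
        refine pE_mono μ hμ fun x => ?_
        have e1 : ∀ k, (fun i => if i ∈ insert a A then g i (Function.update x a k i) else ω₀ i) =
            Function.update (fun i => if i ∈ A then g i (x i) else ω₀ i) a (g a k) := by
          intro k
          funext i
          by_cases hi : i = a
          · subst hi
            simp
          · simp [hi, Finset.mem_insert]
        simp_rw [e1]
        exact h a _ (by simp [ha])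
  simpa using main univ

/-- Pushforward of product weights along coordinate maps. -/
theorem pE_pushforward {Y : Type*} [Fintype Y] [DecidableEq X] (u : ι → Y → ℝ) (w : ι → X → ℝ)
    (c : ι → Y → X) (hw : ∀ i k, w i k = ∑ y with c i y = k, u i y) (f : (ι → X) → ℝ) :
    pE w f = pE u (fun y => f (fun i => c i (y i))) := by
  classical
  unfold pE
  rw [← Finset.sum_fiberwise univ (fun (y : ι → Y) => (fun i => c i (y i)))]
  refine Finset.sum_congr rfl fun x _ => ?_
  have h1 : (univ.filter fun (y : ι → Y) => (fun i => c i (y i)) = x) =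
      Fintype.piFinset (fun i => univ.filter fun y => c i y = x i) := by
    ext y
    simp [funext_iff]
  have h2 : ∀ y ∈ (univ.filter fun (y : ι → Y) => (fun i => c i (y i)) = x),
      (∏ i, u i (y i)) * f (fun i => c i (y i)) = (∏ i, u i (y i)) * f x := by
    intro y hy
    rw [(Finset.mem_filter.1 hy).2]
  rw [Finset.sum_congr rfl h2, ← Finset.sum_mul, h1, ← Finset.prod_univ_sum]
  congr 1
  exact Finset.prod_congr rfl fun i _ => hw i (x i)

/-- Splitting product weights on a product space. -/
theorem pE_prod_type {Y : Type*} [Fintype Y] (μ : ι → X → ℝ) (ν : ι → Y → ℝ)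
    (f : (ι → X × Y) → ℝ) :
    pE (fun i (p : X × Y) => μ i p.1 * ν i p.2) f =
      pE μ (fun x => pE ν (fun y => f (fun i => (x i, y i)))) := by
  unfold pE
  rw [← Equiv.sum_comp (Equiv.arrowProdEquivProdArrow ι (fun _ => X) (fun _ => Y)).symm,
    Fintype.sum_prod_type]
  refine Finset.sum_congr rfl fun x _ => ?_
  rw [Finset.mul_sum]
  refine Finset.sum_congr rfl fun y _ => ?_
  rw [← mul_assoc]
  congr 1
  rw [← Finset.prod_mul_distrib]
  rfl

/-- The expectation of a product over some coordinates. -/
theorem pE_prod_subset (μ : ι → X → ℝ) (hμ : ∀ i, ∑ k, μ i k = 1) (s : Finset ι)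
    (g : ι → X → ℝ) :
    pE μ (fun x => ∏ i ∈ s, g i (x i)) = ∏ i ∈ s, ∑ k, μ i k * g i k := by
  classical
  have h1 : ∀ x : ι → X, ∏ i ∈ s, g i (x i) = ∏ i, (if i ∈ s then g i (x i) else 1) := by
    intro x
    rw [Finset.prod_ite_mem, Finset.univ_inter]
  simp_rw [h1]
  rw [pE_prod μ (fun i k => if i ∈ s then g i k else 1)]
  have h2 : ∀ i, ∑ k, μ i k * (if i ∈ s then g i k else 1) =
      if i ∈ s then ∑ k, μ i k * g i k else 1 := by
    intro i
    split_ifs with hi
    · rfl
    · simp [hμ]
  simp_rw [h2]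
  rw [Finset.prod_ite_mem, Finset.univ_inter]

end

end Pool.Agent.H68.Clock
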