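import Mathlib
import Pool.Agent.H68.Clock.Defs
import Pool.Agent.H68.Clock.Prod

/-!
Optional stopping for clock auctions: an excessive potential that dominates the welfare of the
final configurations bounds the expected welfare of every clock auction.
-/

namespace Pool.Agent.H68.Clock

open Finset

/-- The law of the level of a value: `P(level ≥ k) = q ^ k` for `k ≤ J`. -/
noncomputable def lw (J : ℕ) (q : ℝ) (k : Fin (J + 1)) : ℝ :=
  q ^ (k : ℕ) - if (k : ℕ) = J then 0 else q ^ ((k : ℕ) + 1)

theorem lw_nonneg (J : ℕ) {q : ℝ} (h0 : 0 ≤ q) (h1 : q ≤ 1) (k : Fin (J + 1)) : 0 ≤ lw J q k := by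
  unfold lw
  split_ifs
  · simpa using pow_nonneg h0 _
  · exact sub_nonneg.2 (pow_le_pow_of_le_one h0 h1 (Nat.le_succ _))

/-- Tail sums of the law of the level. -/
theorem lw_tail (J : ℕ) (q : ℝ) (j : ℕ) (hj : j ≤ J) :
    ∑ k : Fin (J + 1), (if j ≤ (k : ℕ) then lw J q k else 0) = q ^ j := by
  have h1 : ∀ k : Fin (J + 1), (if j ≤ (k : ℕ) then lw J q k else 0) =
      (fun k : ℕ => if j ≤ k then (q ^ k - if k = J then 0 else q ^ (k + 1)) else 0) (k : ℕ) :=
    fun k => rfl
  simp_rw [h1]
  rw [Fin.sum_univ_eq_sum_range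
    (fun k : ℕ => if j ≤ k then (q ^ k - if k = J then 0 else q ^ (k + 1)) else 0) (J + 1)]
  rw [Finset.sum_range_succ]
  have h2 : ∑ k ∈ range J, (if j ≤ k then (q ^ k - if k = J then 0 else q ^ (k + 1)) else 0) =
      ∑ k ∈ range J, (if j ≤ k then (q ^ k - q ^ (k + 1)) else 0) := by
    refine Finset.sum_congr rfl fun k hk => ?_
    have : k ≠ J := (Finset.mem_range.1 hk).ne
    simp [this]
  have h3 : ∀ m, j ≤ m → ∑ k ∈ range m, (if j ≤ k then (q ^ k - q ^ (k + 1)) else 0) =
      q ^ j - q ^ m := by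
    intro m hm
    induction m, hm using Nat.le_induction with
    | base =>
      rw [sub_self]
      refine Finset.sum_eq_zero fun k hk => ?_
      have : ¬ j ≤ k := not_le.2 (Finset.mem_range.1 hk)
      simp [this]
    | succ m hm ih =>
      rw [Finset.sum_range_succ, ih]
      simp [hm]
  rw [h2, h3 J hj]
  simp [hj]

theorem lw_sum (J : ℕ) (q : ℝ) : ∑ k, lw J q k = 1 := by
  have := lw_tail J q 0 (Nat.zero_le _)
  simpa using this

/-- The least level at which a price is accepted. -/
noncomputable def lvl (J : ℕ) (s : ℝ) (p : EReal) : ℕ :=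
  ((range (J + 1)).filter fun k => ((s ^ k : ℝ) : EReal) < p).card

theorem le_iff_lvl_le (J : ℕ) {s : ℝ} (hs : 1 ≤ s) (p : EReal) (k : ℕ) (hk : k ≤ J) :
    p ≤ ((s ^ k : ℝ) : EReal) ↔ lvl J s p ≤ k := by
  unfold lvl
  constructor
  · intro h
    have hsub : ((range (J + 1)).filter fun k => ((s ^ k : ℝ) : EReal) < p) ⊆ range k := by
      intro k' hk'
      rw [Finset.mem_filter] at hk'
      rw [Finset.mem_range]
      by_contra hcon
      have h1 : s ^ k ≤ s ^ k' := pow_le_pow_right₀ hs (not_lt.1 hcon)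
      have h2 : ((s ^ k : ℝ) : EReal) ≤ ((s ^ k' : ℝ) : EReal) := EReal.coe_le_coe_iff.2 h1
      exact absurd hk'.2 (not_lt.2 (h.trans h2))
    simpa using Finset.card_le_card hsub
  · intro h
    by_contra hcon
    have hlt := not_le.1 hcon
    have hsub : range (k + 1) ⊆ ((range (J + 1)).filter fun k => ((s ^ k : ℝ) : EReal) < p) := by
      intro k' hk'
      rw [Finset.mem_range] at hk'
      rw [Finset.mem_filter, Finset.mem_range]
      refine ⟨by omega, ?_⟩
      have h1 : s ^ k' ≤ s ^ k := pow_le_pow_right₀ hs (by omega)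
      exact lt_of_le_of_lt (EReal.coe_le_coe_iff.2 h1) hlt
    have := Finset.card_le_card hsub
    simp only [Finset.card_range] at this
    omega

/-- Several one-level moves in a row. -/
theorem excess_multi {ι : Type*} [DecidableEq ι] {J : ℕ} {q : ℝ} (h0 : 0 ≤ q)
    (Φ : (ι → Fin (J + 2)) → ℝ)
    (hexc : ∀ (ω : ι → Fin (J + 2)) (i : ι) (k : Fin (J + 2)), (ω i : ℕ) + 1 = (k : ℕ) →
      (k : ℕ) ≤ J → q * Φ (Function.update ω i k) +
        (1 - q) * Φ (Function.update ω i (Fin.last (J + 1))) ≤ Φ ω)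
    (d : ℕ) (ω : ι → Fin (J + 2)) (i : ι) (k : Fin (J + 2)) (hk : (ω i : ℕ) + d = (k : ℕ))
    (hkJ : (k : ℕ) ≤ J) :
    q ^ d * Φ (Function.update ω i k) +
      (1 - q ^ d) * Φ (Function.update ω i (Fin.last (J + 1))) ≤ Φ ω := by
  induction d generalizing k with
  | zero =>
    have : ω i = k := Fin.ext (by simpa using hk)
    rw [← this]
    simp
  | succ d ih =>
    have hlt : (ω i : ℕ) + d < J + 2 := by omega
    set k' : Fin (J + 2) := ⟨(ω i : ℕ) + d, hlt⟩ with hk'
    have h1 := ih k' rfl (by simp only [hk']; omega)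
    have h2 := hexc (Function.update ω i k') i k (by simp [hk']; omega) hkJ
    rw [Function.update_idem, Function.update_idem] at h2
    have h3 := mul_le_mul_of_nonneg_left h2 (pow_nonneg h0 d)
    have h4 : q ^ (d + 1) = q ^ d * q := pow_succ q d
    rw [h4]
    nlinarith [h1, h3]

section Auction

variable {n : ℕ} (price : List (Finset (Fin n)) → Fin n → EReal) {J : ℕ} (s : ℝ)

/-- The value profile given by a level profile. -/
noncomputable def val {n J : ℕ} (s : ℝ) (x : Fin n → Fin (J + 1)) : Fin n → ℝ :=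
  fun i => s ^ (x i : ℕ)

/-- The history on a level profile. -/
noncomputable def hist (x : Fin n → Fin (J + 1)) (t : ℕ) : List (Finset (Fin n)) :=
  history price (val s x) t

theorem hist_succ (x : Fin n → Fin (J + 1)) (t : ℕ) :
    hist price s x (t + 1) = (hist price s x (t + 1)).headI :: hist price s x t := rfl

theorem mem_act_succ (x : Fin n → Fin (J + 1)) (t : ℕ) (i : Fin n) :
    i ∈ (hist price s x (t + 1)).headI ↔ i ∈ (hist price s x t).headI ∧
      price (hist price s x t) i ≤ ((s ^ (x i : ℕ) : ℝ) : EReal) := by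
  simp [hist, history, val]

/-- The least level known for a buyer that accepted all prices. -/
noncomputable def lo (x : Fin n → Fin (J + 1)) : ℕ → Fin n → ℕ
  | 0, _ => 0
  | t + 1, i => max (lo x t i) (lvl J s (price (hist price s x t) i))

/-- Consistency of the level `k` of the buyer `i` with the history of `x₀` up to time `t`. -/
def Cons (x₀ : Fin n → Fin (J + 1)) (t : ℕ) (i : Fin n) (k : Fin (J + 1)) : Prop :=
  ∀ u < t, (i ∈ (hist price s x₀ (u + 1)).headI ↔ i ∈ (hist price s x₀ u).headI ∧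
    price (hist price s x₀ u) i ≤ ((s ^ (k : ℕ) : ℝ) : EReal))

theorem hist_eq_iff (x x₀ : Fin n → Fin (J + 1)) (t : ℕ) :
    hist price s x t = hist price s x₀ t ↔ ∀ i, Cons price s x₀ t i (x i) := by
  induction t with
  | zero => simp [hist, history, Cons]
  | succ t ih =>
    rw [hist_succ price s x t, hist_succ price s x₀ t, List.cons.injEq, ih]
    constructor
    · rintro ⟨h1, h2⟩ i u hu
      rcases Nat.lt_succ_iff_lt_or_eq.1 hu with hu | rfl
      · exact h2 i u hu
      · rw [← h1, mem_act_succ, ih.2 h2]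
    · intro h
      have h2 : ∀ i, Cons price s x₀ t i (x i) := fun i u hu => h i u (Nat.lt_succ_of_lt hu)
      refine ⟨?_, h2⟩
      ext i
      rw [mem_act_succ, ih.2 h2]
      exact (h i t (Nat.lt_succ_self t)).symm

theorem hist_eq_of_le (x x₀ : Fin n → Fin (J + 1)) (t : ℕ)
    (h : hist price s x t = hist price s x₀ t) (u : ℕ) (hu : u ≤ t) :
    hist price s x u = hist price s x₀ u := by
  rw [hist_eq_iff] at h ⊢
  exact fun i u' hu' => h i u' (lt_of_lt_of_le hu' hu)

theorem cons_self (x₀ : Fin n → Fin (J + 1)) (t : ℕ) (i : Fin n) :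
    Cons price s x₀ t i (x₀ i) :=
  (hist_eq_iff price s x₀ x₀ t).1 rfl i

theorem cons_iff_lo {s : ℝ} (hs : 1 ≤ s) (x₀ : Fin n → Fin (J + 1)) (t : ℕ) (i : Fin n)
    (hi : i ∈ (hist price s x₀ t).headI) (k : Fin (J + 1)) :
    Cons price s x₀ t i k ↔ lo price s x₀ t i ≤ k := by
  induction t with
  | zero => simp [Cons, lo]
  | succ t ih =>
    have hi' : i ∈ (hist price s x₀ t).headI := ((mem_act_succ price s x₀ t i).1 hi).1
    have hl : lo price s x₀ (t + 1) i =
      max (lo price s x₀ t i) (lvl J s (price (hist price s x₀ t) i)) := rfl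
    rw [hl, max_le_iff, ← ih hi', ← le_iff_lvl_le J hs _ _ (Nat.lt_succ_iff.1 k.2)]
    constructor
    · intro h
      refine ⟨fun u hu => h u (Nat.lt_succ_of_lt hu), ?_⟩
      exact ((h t (Nat.lt_succ_self t)).1 hi).2
    · rintro ⟨h1, h2⟩ u hu
      rcases Nat.lt_succ_iff_lt_or_eq.1 hu with hu | rfl
      · exact h1 u hu
      · exact ⟨fun _ => ⟨hi', h2⟩, fun _ => hi⟩

theorem lo_congr (x x₀ : Fin n → Fin (J + 1)) (t : ℕ)
    (h : hist price s x t = hist price s x₀ t) : lo price s x t = lo price s x₀ t := by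
  induction t with
  | zero => funext i; rfl
  | succ t ih =>
    have h' := hist_eq_of_le price s x x₀ (t + 1) h t (Nat.le_succ t)
    funext i
    have e1 : lo price s x (t + 1) i =
      max (lo price s x t i) (lvl J s (price (hist price s x t) i)) := rfl
    have e2 : lo price s x₀ (t + 1) i =
      max (lo price s x₀ t i) (lvl J s (price (hist price s x₀ t) i)) := rfl
    rw [e1, e2, ih h', h']

open scoped Classical in
/-- The configuration after `t` rounds: the least known level of the active buyers, and the last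
state for the buyers that dropped out. -/
noncomputable def conf (x : Fin n → Fin (J + 1)) (t : ℕ) : Fin n → Fin (J + 2) :=
  fun i => if i ∈ (hist price s x t).headI then ⟨min (lo price s x t i) J, by omega⟩
    else Fin.last (J + 1)

theorem conf_congr (x x₀ : Fin n → Fin (J + 1)) (t : ℕ)
    (h : hist price s x t = hist price s x₀ t) : conf price s x t = conf price s x₀ t := by
  funext i
  simp only [conf, h, lo_congr price s x x₀ t h]

open scoped Classical in
/-- The weights restricted to the class of histories of `x₀` at time `t`. -/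
noncomputable def boxw (w : Fin (J + 1) → ℝ) (x₀ : Fin n → Fin (J + 1)) (t : ℕ) (i : Fin n)
    (k : Fin (J + 1)) : ℝ :=
  if Cons price s x₀ t i k then w k else 0

theorem boxw_nonneg {w : Fin (J + 1) → ℝ} (hw : ∀ k, 0 ≤ w k) (x₀ : Fin n → Fin (J + 1)) (t : ℕ)
    (i : Fin n) (k : Fin (J + 1)) : 0 ≤ boxw price s w x₀ t i k := by
  unfold boxw
  split_ifs
  · exact hw k
  · exact le_rfl

open scoped Classical in
theorem sum_class (w : Fin (J + 1) → ℝ) (x₀ : Fin n → Fin (J + 1)) (t : ℕ)
    (f : (Fin n → Fin (J + 1)) → ℝ) :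
    ∑ x : Fin n → Fin (J + 1) with hist price s x t = hist price s x₀ t,
      (∏ i, w (x i)) * f x = pE (boxw price s w x₀ t) f := by
  unfold pE
  rw [Finset.sum_filter]
  refine Finset.sum_congr rfl fun x _ => ?_
  split_ifs with h
  · congr 1
    refine Finset.prod_congr rfl fun i _ => ?_
    unfold boxw
    rw [if_pos ((hist_eq_iff price s x x₀ t).1 h i)]
  · have : ∃ i, ¬ Cons price s x₀ t i (x i) := by
      by_contra hcon
      push Not at hcon
      exact h ((hist_eq_iff price s x x₀ t).2 hcon)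
    obtain ⟨i, hi⟩ := this
    rw [Finset.prod_eq_zero (Finset.mem_univ i) (by unfold boxw; rw [if_neg hi]), zero_mul]

theorem pE_le_of_classes (w : Fin (J + 1) → ℝ) (t : ℕ) (f g : (Fin n → Fin (J + 1)) → ℝ)
    (h : ∀ x₀, pE (boxw price s w x₀ t) f ≤ pE (boxw price s w x₀ t) g) :
    pE (fun _ => w) f ≤ pE (fun _ => w) g := by
  classical
  unfold pE
  have hm : ∀ x ∈ (univ : Finset (Fin n → Fin (J + 1))),
      hist price s x t ∈ univ.image (fun x => hist price s x t) := fun x _ =>
    Finset.mem_image_of_mem _ (Finset.mem_univ x)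
  rw [← Finset.sum_fiberwise_of_maps_to hm, ← Finset.sum_fiberwise_of_maps_to hm]
  refine Finset.sum_le_sum fun h' hh' => ?_
  obtain ⟨x₀, _, rfl⟩ := Finset.mem_image.1 hh'
  have := h x₀
  rw [← sum_class, ← sum_class] at this
  exact this

theorem pE_boxw_congr (w : Fin (J + 1) → ℝ) (x₀ : Fin n → Fin (J + 1)) (t : ℕ)
    (f g : (Fin n → Fin (J + 1)) → ℝ)
    (h : ∀ x, hist price s x t = hist price s x₀ t → f x = g x) :
    pE (boxw price s w x₀ t) f = pE (boxw price s w x₀ t) g := by
  classical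
  rw [← sum_class, ← sum_class]
  refine Finset.sum_congr rfl fun x hx => ?_
  rw [h x (Finset.mem_filter.1 hx).2]

/-- Domination of the welfare on a class of histories at the final time. -/
theorem final_le {q : ℝ} (hs : 1 ≤ s) (hq0 : 0 ≤ q) (hq1 : q ≤ 1)
    (htail : ∀ j ≤ J, ∑ k : Fin (J + 1), (if j ≤ (k : ℕ) then lw J q k else 0) * s ^ (k : ℕ) ≤
      2 * s ^ j * q ^ j)
    (F : Set (Finset (Fin n))) (Φ : (Fin n → Fin (J + 2)) → ℝ)
    (hfin : ∀ S ∈ F, ∀ ω : Fin n → Fin (J + 2), (∀ i ∈ S, (ω i : ℕ) ≤ J) →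
      (∀ i, i ∉ S → ω i = Fin.last (J + 1)) → ∑ i ∈ S, 2 * s ^ (ω i : ℕ) ≤ Φ ω)
    (x₀ : Fin n → Fin (J + 1)) (t : ℕ) (hS : (hist price s x₀ t).headI ∈ F) :
    pE (boxw price s (lw J q) x₀ t) (fun x => ∑ i ∈ (hist price s x₀ t).headI, s ^ (x i : ℕ)) ≤
      pE (boxw price s (lw J q) x₀ t) (fun _ => Φ (conf price s x₀ t)) := by
  classical
  set S := (hist price s x₀ t).headI with hSdef
  set μ := boxw price s (lw J q) x₀ t with hμ
  have hμ0 : ∀ i k, 0 ≤ μ i k := boxw_nonneg price s (lw_nonneg J hq0 hq1) x₀ t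
  have hm0 : ∀ i, 0 ≤ ∑ k, μ i k := fun i => Finset.sum_nonneg fun k _ => hμ0 i k
  have hlo : ∀ i ∈ S, lo price s x₀ t i ≤ J := fun i hi =>
    ((cons_iff_lo price hs x₀ t i hi (x₀ i)).1 (cons_self price s x₀ t i)).trans
      (Nat.lt_succ_iff.1 (x₀ i).2)
  have hconf : ∀ i ∈ S, (conf price s x₀ t i : ℕ) = lo price s x₀ t i := by
    intro i hi
    simp only [conf]
    rw [if_pos (show i ∈ (hist price s x₀ t).headI from hi)]
    simpa using hlo i hi
  have hone : ∀ a ∈ S, pE μ (fun x => s ^ (x a : ℕ)) ≤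
      (∏ i, ∑ k, μ i k) * (2 * s ^ (lo price s x₀ t a)) := by
    intro a ha
    have e1 : (fun x : Fin n → Fin (J + 1) => s ^ (x a : ℕ)) =
        fun x => ∏ i, (fun (i : Fin n) (k : Fin (J + 1)) => if i = a then s ^ (k : ℕ) else 1)
          i (x i) := by
      funext x
      simp
    have e1' := pE_prod μ (fun (i : Fin n) (k : Fin (J + 1)) => if i = a then s ^ (k : ℕ) else 1)
    rw [e1]
    refine le_trans (le_of_eq e1') ?_
    rw [← Finset.mul_prod_erase univ _ (Finset.mem_univ a),
      ← Finset.mul_prod_erase univ (fun i => ∑ k, μ i k) (Finset.mem_univ a)]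
    have e2 : ∏ x ∈ univ.erase a, ∑ k, μ x k * (if x = a then s ^ (k : ℕ) else 1) =
        ∏ x ∈ univ.erase a, ∑ k, μ x k := by
      refine Finset.prod_congr rfl fun i hi => ?_
      simp [Finset.ne_of_mem_erase hi]
    rw [e2]
    have e3 : ∑ k, μ a k * (if a = a then s ^ (k : ℕ) else 1) ≤
        (∑ k, μ a k) * (2 * s ^ (lo price s x₀ t a)) := by
      have hμa : ∀ k, μ a k = if lo price s x₀ t a ≤ (k : ℕ) then lw J q k else 0 := by
        intro k
        simp only [hμ, boxw]
        congr 1
        exact propext (cons_iff_lo price hs x₀ t a ha k)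
      simp only [if_true, hμa]
      rw [lw_tail J q _ (hlo a ha)]
      have := htail _ (hlo a ha)
      linarith
    have hp : 0 ≤ ∏ x ∈ univ.erase a, ∑ k, μ x k := Finset.prod_nonneg fun i _ => hm0 i
    nlinarith [mul_le_mul_of_nonneg_right e3 hp]
  have e4 : pE μ (fun x => ∑ i ∈ S, s ^ (x i : ℕ)) =
      ∑ a ∈ S, pE μ (fun x => s ^ (x a : ℕ)) := pE_sum S μ (fun a x => s ^ (x a : ℕ))
  rw [e4, pE_const]
  calc ∑ a ∈ S, pE μ (fun x => s ^ (x a : ℕ))
      ≤ ∑ a ∈ S, (∏ i, ∑ k, μ i k) * (2 * s ^ (lo price s x₀ t a)) :=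
        Finset.sum_le_sum hone
    _ = (∏ i, ∑ k, μ i k) * ∑ a ∈ S, 2 * s ^ (conf price s x₀ t a : ℕ) := by
        rw [Finset.mul_sum]
        exact Finset.sum_congr rfl fun a ha => by rw [hconf a ha]
    _ ≤ (∏ i, ∑ k, μ i k) * Φ (conf price s x₀ t) := by
        refine mul_le_mul_of_nonneg_left ?_ (Finset.prod_nonneg fun i _ => hm0 i)
        refine hfin S hS _ (fun i hi => ?_) (fun i hi => ?_)
        · rw [hconf i hi]; exact hlo i hi
        · simp only [conf]
          rw [if_neg (show i ∉ (hist price s x₀ t).headI from hi)]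

/-- One round of the auction does not increase the expected potential on a class. -/
theorem round_le {q : ℝ} (hs : 1 ≤ s) (hq0 : 0 ≤ q) (hq1 : q ≤ 1)
    (Φ : (Fin n → Fin (J + 2)) → ℝ)
    (hexc : ∀ (ω : Fin n → Fin (J + 2)) (i : Fin n) (k : Fin (J + 2)),
      (ω i : ℕ) + 1 = (k : ℕ) → (k : ℕ) ≤ J → q * Φ (Function.update ω i k) +
        (1 - q) * Φ (Function.update ω i (Fin.last (J + 1))) ≤ Φ ω)
    (hdrop : ∀ (ω : Fin n → Fin (J + 2)) (i : Fin n),
      Φ (Function.update ω i (Fin.last (J + 1))) ≤ Φ ω)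
    (x₀ : Fin n → Fin (J + 1)) (t : ℕ) :
    pE (boxw price s (lw J q) x₀ t) (fun x => Φ (conf price s x (t + 1))) ≤
      pE (boxw price s (lw J q) x₀ t) (fun _ => Φ (conf price s x₀ t)) := by
  classical
  set μ := boxw price s (lw J q) x₀ t with hμ
  have hμ0 : ∀ i k, 0 ≤ μ i k := boxw_nonneg price s (lw_nonneg J hq0 hq1) x₀ t
  set h := hist price s x₀ t with hh
  let g : Fin n → Fin (J + 1) → Fin (J + 2) := fun i k =>
    if i ∈ h.headI ∧ price h i ≤ ((s ^ (k : ℕ) : ℝ) : EReal) then
      ⟨min (max (lo price s x₀ t i) (lvl J s (price h i))) J, by omega⟩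
    else Fin.last (J + 1)
  have e1 : pE μ (fun x => Φ (conf price s x (t + 1))) =
      pE μ (fun x => Φ (fun i => g i (x i))) := by
    refine pE_boxw_congr price s (lw J q) x₀ t _ _ fun x hx => ?_
    congr 1
    funext i
    simp only [conf, g, mem_act_succ price s x t i, hx, ← hh]
    have e : lo price s x (t + 1) i =
      max (lo price s x t i) (lvl J s (price (hist price s x t) i)) := rfl
    simp only [e, hx, lo_congr price s x x₀ t hx, ← hh]
  rw [e1, pE_const]
  refine pE_replace μ hμ0 g (conf price s x₀ t) Φ ?_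
  intro i ω hω
  by_cases hi : i ∈ h.headI
  · -- an active buyer
    have hlo : lo price s x₀ t i ≤ J :=
      ((cons_iff_lo price hs x₀ t i hi (x₀ i)).1 (cons_self price s x₀ t i)).trans
        (Nat.lt_succ_iff.1 (x₀ i).2)
    set j := lo price s x₀ t i with hj
    set ℓ := lvl J s (price h i) with hℓ
    have hωi : (ω i : ℕ) = j := by
      rw [hω]
      simp only [conf]
      rw [if_pos (show i ∈ (hist price s x₀ t).headI from hi)]
      exact min_eq_left hlo
    have hμi : ∀ k, μ i k = if j ≤ (k : ℕ) then lw J q k else 0 := by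
      intro k
      simp only [hμ, boxw]
      congr 1
      exact propext (cons_iff_lo price hs x₀ t i hi k)
    have hsum : ∑ k, μ i k = q ^ j := by
      simp only [hμi]
      exact lw_tail J q j hlo
    have hg : ∀ k : Fin (J + 1), g i k = if ℓ ≤ (k : ℕ) then
        (⟨min (max j ℓ) J, by omega⟩ : Fin (J + 2)) else Fin.last (J + 1) := by
      intro k
      simp only [g]
      congr 1
      rw [le_iff_lvl_le J hs _ _ (Nat.lt_succ_iff.1 k.2)]
      simp [hi, hℓ]
    set Φd := Φ (Function.update ω i (Fin.last (J + 1))) with hΦd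
    rw [hsum]
    by_cases hL : max j ℓ ≤ J
    · set kL : Fin (J + 2) := ⟨min (max j ℓ) J, by omega⟩ with hkL
      have hkLv : (kL : ℕ) = max j ℓ := by simp [hkL, hL]
      set ΦL := Φ (Function.update ω i kL) with hΦL
      have e2 : ∀ k : Fin (J + 1), μ i k * Φ (Function.update ω i (g i k)) =
          (if max j ℓ ≤ (k : ℕ) then lw J q k else 0) * ΦL +
          ((if j ≤ (k : ℕ) then lw J q k else 0) -
            (if max j ℓ ≤ (k : ℕ) then lw J q k else 0)) * Φd := by
        intro k
        rw [hμi, hg]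
        by_cases h1 : j ≤ (k : ℕ) <;> by_cases h2 : ℓ ≤ (k : ℕ) <;>
          simp [h1, h2, hΦL, hΦd]
      simp only [e2]
      rw [Finset.sum_add_distrib, ← Finset.sum_mul, ← Finset.sum_mul, Finset.sum_sub_distrib,
        lw_tail J q _ hL, lw_tail J q _ hlo]
      obtain ⟨d, hd⟩ := Nat.exists_eq_add_of_le (le_max_left j ℓ)
      have h5 := excess_multi hq0 Φ hexc d ω i kL (by rw [hωi, hkLv]; exact hd.symm)
        (by rw [hkLv]; exact hL)
      rw [hd, pow_add]
      have h6 := mul_le_mul_of_nonneg_left h5 (pow_nonneg hq0 j)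
      linarith
    · -- nobody accepts the price
      have e2 : ∀ k : Fin (J + 1), μ i k * Φ (Function.update ω i (g i k)) =
          (if j ≤ (k : ℕ) then lw J q k else 0) * Φd := by
        intro k
        rw [hμi, hg]
        have hk := k.2
        have h2 : ¬ ℓ ≤ (k : ℕ) := by
          intro hcon
          apply hL
          exact max_le hlo (by omega)
        simp [h2, hΦd]
      simp only [e2]
      rw [← Finset.sum_mul, lw_tail J q _ hlo]
      exact mul_le_mul_of_nonneg_left (hdrop ω i) (pow_nonneg hq0 j)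
  · -- a buyer that dropped out before
    have hωi : ω i = Fin.last (J + 1) := by
      rw [hω]
      simp only [conf]
      rw [if_neg (show i ∉ (hist price s x₀ t).headI from hi)]
    have hg : ∀ k : Fin (J + 1), Function.update ω i (g i k) = ω := by
      intro k
      have : g i k = ω i := by
        simp only [g]
        rw [if_neg (fun hc => hi hc.1), hωi]
      rw [this, Function.update_eq_self]
    simp only [hg]
    rw [Finset.sum_mul]

/-- The expected welfare of a clock auction is at most the initial value of the potential. -/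
theorem welfare_le_potential {q : ℝ} (hs : 1 ≤ s) (hq0 : 0 ≤ q) (hq1 : q ≤ 1)
    (htail : ∀ j ≤ J, ∑ k : Fin (J + 1), (if j ≤ (k : ℕ) then lw J q k else 0) * s ^ (k : ℕ) ≤
      2 * s ^ j * q ^ j)
    {F : Set (Finset (Fin n))} (A : ClockAuction F) (Φ : (Fin n → Fin (J + 2)) → ℝ)
    (hnn : ∀ ω, 0 ≤ Φ ω)
    (hexc : ∀ (ω : Fin n → Fin (J + 2)) (i : Fin n) (k : Fin (J + 2)),
      (ω i : ℕ) + 1 = (k : ℕ) → (k : ℕ) ≤ J → q * Φ (Function.update ω i k) +
        (1 - q) * Φ (Function.update ω i (Fin.last (J + 1))) ≤ Φ ω)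
    (hdrop : ∀ (ω : Fin n → Fin (J + 2)) (i : Fin n),
      Φ (Function.update ω i (Fin.last (J + 1))) ≤ Φ ω)
    (hfin : ∀ S ∈ F, ∀ ω : Fin n → Fin (J + 2), (∀ i ∈ S, (ω i : ℕ) ≤ J) →
      (∀ i, i ∉ S → ω i = Fin.last (J + 1)) → ∑ i ∈ S, 2 * s ^ (ω i : ℕ) ≤ Φ ω) :
    pE (fun _ => lw J q) (fun x => A.welfare (val s x)) ≤ Φ (fun _ => 0) := by
  classical
  have hs0 : (0 : ℝ) ≤ s := by linarith
  have hw0 : ∀ (i : Fin n) (k : Fin (J + 1)), 0 ≤ lw J q k := fun _ => lw_nonneg J hq0 hq1
  have hv0 : ∀ (x : Fin n → Fin (J + 1)) (i : Fin n), 0 ≤ val s x i := fun x i =>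
    pow_nonneg hs0 _
  -- the stopped potential
  let G : ℕ → (Fin n → Fin (J + 1)) → ℝ := fun t x =>
    if ∃ u < t, A.stop (hist A.price s x u) then A.welfare (val s x)
    else Φ (conf A.price s x t)
  have hwel : ∀ (x : Fin n → Fin (J + 1)) (t : ℕ), A.stop (hist A.price s x t) →
      (∀ u < t, ¬ A.stop (hist A.price s x u)) →
      A.welfare (val s x) = ∑ i ∈ (hist A.price s x t).headI, s ^ (x i : ℕ) := by
    intro x t h1 h2
    have hex : ∃ t, A.stop (history A.price (val s x) t) := ⟨t, h1⟩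
    have hfind : Nat.find hex = t := (Nat.find_eq_iff hex).2 ⟨h1, fun u hu => h2 u hu⟩
    unfold ClockAuction.welfare
    rw [dif_pos hex]
    have : Nat.find hex = t := hfind
    rw [show (@Nat.find (fun t => A.stop (history A.price (val s x) t))
      (fun _ => Classical.propDecidable _) hex) = t from by convert this]
    rfl
  have hstep : ∀ t, pE (fun _ => lw J q) (G (t + 1)) ≤ pE (fun _ => lw J q) (G t) := by
    intro t
    refine pE_le_of_classes A.price s (lw J q) t _ _ fun x₀ => ?_
    by_cases hst : ∃ u < t, A.stop (hist A.price s x₀ u)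
    · refine le_of_eq (pE_boxw_congr A.price s (lw J q) x₀ t _ _ fun x hx => ?_)
      obtain ⟨u, hu, hus⟩ := hst
      have hux : A.stop (hist A.price s x u) := by
        rw [hist_eq_of_le A.price s x x₀ t hx u hu.le]; exact hus
      simp only [G]
      rw [if_pos ⟨u, Nat.lt_succ_of_lt hu, hux⟩, if_pos ⟨u, hu, hux⟩]
    · have e0 : pE (boxw A.price s (lw J q) x₀ t) (G t) =
          pE (boxw A.price s (lw J q) x₀ t) (fun _ => Φ (conf A.price s x₀ t)) := by
        refine pE_boxw_congr A.price s (lw J q) x₀ t _ _ fun x hx => ?_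
        have hn : ¬ ∃ u < t, A.stop (hist A.price s x u) := by
          rintro ⟨u, hu, hus⟩
          exact hst ⟨u, hu, by rwa [← hist_eq_of_le A.price s x x₀ t hx u hu.le]⟩
        simp only [G]
        rw [if_neg hn, conf_congr A.price s x x₀ t hx]
      rw [e0]
      by_cases hnow : A.stop (hist A.price s x₀ t)
      · have e1 : pE (boxw A.price s (lw J q) x₀ t) (G (t + 1)) =
            pE (boxw A.price s (lw J q) x₀ t)
              (fun x => ∑ i ∈ (hist A.price s x₀ t).headI, s ^ (x i : ℕ)) := by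
          refine pE_boxw_congr A.price s (lw J q) x₀ t _ _ fun x hx => ?_
          have h1 : A.stop (hist A.price s x t) := by rw [hx]; exact hnow
          have h2 : ∀ u < t, ¬ A.stop (hist A.price s x u) := by
            intro u hu hus
            exact hst ⟨u, hu, by rwa [← hist_eq_of_le A.price s x x₀ t hx u hu.le]⟩
          simp only [G]
          rw [if_pos ⟨t, Nat.lt_succ_self t, h1⟩, hwel x t h1 h2, hx]
        rw [e1]
        refine final_le A.price s hs hq0 hq1 htail F Φ hfin x₀ t ?_
        exact A.feasible (val s x₀) (hv0 x₀) t hnow fun u hu hus => hst ⟨u, hu, hus⟩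
      · have e1 : pE (boxw A.price s (lw J q) x₀ t) (G (t + 1)) =
            pE (boxw A.price s (lw J q) x₀ t) (fun x => Φ (conf A.price s x (t + 1))) := by
          refine pE_boxw_congr A.price s (lw J q) x₀ t _ _ fun x hx => ?_
          have hn : ¬ ∃ u < t + 1, A.stop (hist A.price s x u) := by
            rintro ⟨u, hu, hus⟩
            have hut : u ≤ t := Nat.lt_succ_iff.1 hu
            rw [hist_eq_of_le A.price s x x₀ t hx u hut] at hus
            rcases hut.lt_or_eq with h | rfl
            · exact hst ⟨u, h, hus⟩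
            · exact hnow hus
          simp only [G]
          rw [if_neg hn]
        rw [e1]
        exact round_le A.price s hs hq0 hq1 Φ hexc hdrop x₀ t
  have hG0 : pE (fun _ => lw J q) (G 0) = Φ (fun _ => 0) := by
    have : G 0 = fun _ => Φ (fun _ => 0) := by
      funext x
      simp only [G]
      rw [if_neg (by rintro ⟨u, hu, _⟩; exact absurd hu (Nat.not_lt_zero u))]
      congr 1
      funext i
      simp only [conf, hist, history, List.headI, Finset.mem_univ, if_true, lo]
      ext
      simp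
    rw [this, pE_const]
    simp [lw_sum]
  have hGt : ∀ t, pE (fun _ => lw J q) (G t) ≤ Φ (fun _ => 0) := by
    intro t
    induction t with
    | zero => exact hG0.le
    | succ t ih => exact (hstep t).trans ih
  have hev : ∃ t, ∀ x, A.welfare (val s x) ≤ G t x := by
    have h1 : ∀ x, ∃ t₀, ∀ t ≥ t₀, A.welfare (val s x) ≤ G t x := by
      intro x
      by_cases hex : ∃ t, A.stop (hist A.price s x t)
      · obtain ⟨t₀, ht₀⟩ := hex
        refine ⟨t₀ + 1, fun t ht => ?_⟩
        simp only [G]
        rw [if_pos ⟨t₀, by omega, ht₀⟩]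
      · refine ⟨0, fun t _ => ?_⟩
        simp only [G]
        rw [if_neg (fun ⟨u, _, hu⟩ => hex ⟨u, hu⟩)]
        have hex' : ¬ ∃ t, A.stop (history A.price (val s x) t) := hex
        unfold ClockAuction.welfare
        rw [dif_neg hex']
        exact hnn _
    choose T hT using h1
    exact ⟨univ.sup T, fun x => hT x _ (Finset.le_sup (Finset.mem_univ x))⟩
  obtain ⟨t, ht⟩ := hev
  exact (pE_mono _ hw0 ht).trans (hGt t)

end Auction

end Pool.Agent.H68.Clock
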