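import Mathlib
import Pool.Agent.H68.Clock.Stop

/-!
Ensembles of levels and the potential of the next level.
-/

namespace Pool.Agent.H68.Clock

open Finset

/-- Parameters of the construction. -/
structure Par where
  J : ℕ
  r : ℕ
  s : ℕ
  D : ℕ
  m : ℕ
  δ : ℝ
  hr : 2 ≤ r
  hs : 3 ≤ s
  hD : 1 ≤ D
  hδ : 0 < δ
  hrδ : 2 / (r : ℝ) ≤ δ
  hα : (1 + δ) ^ (2 * J + 3) ≤ 2
  hκ : 3 * ((1 + δ) ^ (J + 1) - 1) ≤ 1
  hK : 4 * (r : ℝ) ^ 4 * Real.exp (-(δ * (δ / 2) * s)) ≤ Real.exp (-(δ * (δ / 2)))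
  hD1 : 2 * (δ + Real.log (s * r)) ≤ δ * (δ / 2) * D
  hD2 : (((J + 1) * (D * s ^ J * r ^ J) + 1) * (m + 1) : ℝ) ≤ Real.exp (δ * (δ / 2) * D)
  hstat : 8 * (J + 2) ^ (D * s ^ J * r ^ J) ≤ 2 ^ (m + 1)
  hcov : D * s ^ J * r ^ J + 2 ≤ r ^ (2 * D)

namespace Par

variable (P : Par)

/-- The scale of the exponents. -/
noncomputable def a : ℝ := P.δ / 2

/-- The probability of one more level. -/
noncomputable def q : ℝ := 1 / ((P.s : ℝ) * P.r)

/-- The number of blocks at level `l`. -/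
def Dl (l : ℕ) : ℕ := P.D * P.s ^ (P.J - l)

noncomputable def α (l : ℕ) : ℝ := (1 + P.δ) ^ (2 * l)

noncomputable def κ (l : ℕ) : ℝ := 3 * ((1 + P.δ) ^ l - 1)

noncomputable def p (l : ℕ) : ℝ := 2 * Real.exp (-(P.δ * P.a * P.Dl l))

theorem a_pos : 0 < P.a := by unfold a; linarith [P.hδ]

theorem r_pos : (0 : ℝ) < P.r := by
  have := P.hr
  exact_mod_cast (by omega : 0 < P.r)

theorem s_pos : (0 : ℝ) < P.s := by
  have := P.hs
  exact_mod_cast (by omega : 0 < P.s)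

theorem two_le_r : (2 : ℝ) ≤ P.r := by exact_mod_cast P.hr

theorem three_le_s : (3 : ℝ) ≤ P.s := by exact_mod_cast P.hs

theorem sr_ge : (6 : ℝ) ≤ (P.s : ℝ) * P.r := by
  nlinarith [P.two_le_r, P.three_le_s]

theorem q_pos : 0 < P.q := by
  unfold q
  have := P.sr_ge
  positivity

theorem q_le : P.q ≤ 1 / 6 := by
  unfold q
  exact one_div_le_one_div_of_le (by norm_num) P.sr_ge

theorem q_le_one : P.q ≤ 1 := P.q_le.trans (by norm_num)

theorem δ_le : P.δ ≤ 1 / 3 := by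
  have h1 : (1 + P.δ) ^ 3 ≤ (1 + P.δ) ^ (2 * P.J + 3) :=
    pow_le_pow_right₀ (by linarith [P.hδ]) (by omega)
  have h2 := h1.trans P.hα
  by_contra hcon
  have h3 : 1 / 3 < P.δ := not_le.1 hcon
  nlinarith [sq_nonneg P.δ, mul_pos P.hδ P.hδ]

theorem α_ge_one (l : ℕ) : 1 ≤ P.α l := one_le_pow₀ (by linarith [P.hδ])

theorem α_le_two {l : ℕ} (hl : l ≤ P.J + 1) : P.α l ≤ 2 :=
  (pow_le_pow_right₀ (by linarith [P.hδ]) (by omega)).trans P.hα

theorem κ_nonneg (l : ℕ) : 0 ≤ P.κ l := by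
  unfold κ
  have : (1 : ℝ) ≤ (1 + P.δ) ^ l := one_le_pow₀ (by linarith [P.hδ])
  linarith

theorem Dl_succ {l : ℕ} (hl : l + 1 ≤ P.J) : P.Dl l = P.s * P.Dl (l + 1) := by
  unfold Dl
  have : P.J - l = (P.J - (l + 1)) + 1 := by omega
  rw [this, pow_succ]
  ring

theorem D_le_Dl (l : ℕ) : P.D ≤ P.Dl l := by
  unfold Dl
  exact Nat.le_mul_of_pos_right _ (pow_pos (by have := P.hs; omega) _)

/-- The weight of a state in the region of level `l`. -/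
noncomputable def Rw (l : ℕ) (st : Fin (P.J + 2)) : ℝ :=
  if (st : ℕ) ≤ l then P.q ^ (l - (st : ℕ)) else 0

theorem Rw_nonneg (l : ℕ) (st : Fin (P.J + 2)) : 0 ≤ P.Rw l st := by
  unfold Rw
  split_ifs
  · exact pow_nonneg P.q_pos.le _
  · exact le_rfl

theorem Rw_le_one (l : ℕ) (st : Fin (P.J + 2)) : P.Rw l st ≤ 1 := by
  unfold Rw
  split_ifs
  · exact pow_le_one₀ P.q_pos.le P.q_le_one
  · exact zero_le_one

theorem Rw_of_gt {l : ℕ} {st : Fin (P.J + 2)} (h : l < (st : ℕ)) : P.Rw l st = 0 := by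
  unfold Rw
  rw [if_neg (not_le.2 h)]

theorem Rw_move {l : ℕ} {j k : Fin (P.J + 2)} (hjk : (j : ℕ) + 1 = k) (hk : (k : ℕ) ≤ l) :
    P.q * P.Rw l k = P.Rw l j := by
  unfold Rw
  rw [if_pos hk, if_pos (by omega), ← pow_succ']
  congr 1
  omega

theorem Rw_succ (l : ℕ) (st : Fin (P.J + 2)) :
    P.Rw (l + 1) st = P.q * P.Rw l st + if (st : ℕ) = l + 1 then 1 else 0 := by
  unfold Rw
  rcases lt_trichotomy (st : ℕ) (l + 1) with h | h | h
  · rw [if_pos h.le, if_pos (Nat.lt_succ_iff.1 h), if_neg h.ne, ← pow_succ', add_zero]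
    congr 1
    omega
  · rw [if_pos h.le, if_neg (by omega), if_pos h, h]
    simp
  · rw [if_neg (by omega), if_neg (by omega), if_neg (by omega)]
    simp

end Par

/-- The value of a state, as far as it is at most at level `l`. -/
noncomputable def vl (s l : ℕ) {J : ℕ} (st : Fin (J + 2)) : ℝ :=
  if (st : ℕ) ≤ l then (s : ℝ) ^ (st : ℕ) else 0

/-- The probability of level exactly `l` given that the level is at most `l`. -/
noncomputable def bet (J : ℕ) (q : ℝ) (l : ℕ) : ℝ :=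
  if l = J then q ^ J else (q ^ l - q ^ (l + 1)) / (1 - q ^ (l + 1))

/-- The law of the level given that it is at most `l`. -/
noncomputable def wl (J : ℕ) (q : ℝ) : ℕ → Fin (J + 1) → ℝ
  | 0, k => if (k : ℕ) = 0 then 1 else 0
  | l + 1, k => (if (k : ℕ) = l + 1 then bet J q (l + 1) else 0) + (1 - bet J q (l + 1)) * wl J q l k

/-- The ensembles of level `l`. -/
structure Ens (P : Par) (l : ℕ) where
  N : Type
  [fN : Fintype N]
  [dN : DecidableEq N]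
  pos : N → Fin (P.D * P.s ^ P.J)
  fib : ∀ p, P.r ^ l ≤ (univ.filter fun i => pos i = p).card
  cardN : Fintype.card N ≤ P.D * P.s ^ P.J * P.r ^ l
  G : Type
  [fG : Fintype G]
  [nG : Nonempty G]
  leaf : G → Set (Finset N)
  H : G → (N → Fin (P.J + 2)) → ℝ
  mono : ∀ g ω i (st : Fin (P.J + 2)), l < (st : ℕ) → H g (Function.update ω i st) ≤ H g ω
  exc : ∀ g ω i (k : Fin (P.J + 2)), (ω i : ℕ) + 1 = (k : ℕ) → (k : ℕ) ≤ l →
    P.q * H g (Function.update ω i k) +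
      (1 - P.q) * H g (Function.update ω i (Fin.last (P.J + 1))) ≤ H g ω
  low : ∀ g ω, Real.exp (P.a * ∑ i, P.Rw l (ω i)) ≤ H g ω
  dom : ∀ g, ∀ S ∈ leaf g, ∀ ω,
    Real.exp (P.a / (P.s : ℝ) ^ l * ∑ i ∈ S, vl P.s l (ω i)) ≤ H g ω
  rand : ∀ ω : N × Fin P.r → Fin (P.J + 2),
    ((univ.filter fun y : (N → Fin P.r) × G =>
      Real.exp (P.a * (P.α (l + 1) * ((P.r : ℝ)⁻¹ * ∑ x, P.Rw l (ω x)) +
        P.κ (l + 1) * P.Dl l)) < H y.2 (fun i => ω (i, y.1 i))).card : ℝ) ≤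
      P.p l * Fintype.card ((N → Fin P.r) × G)
  opt : ∀ g, ∀ T : Finset N, Set.InjOn pos T → 2 * T.card ≤ P.Dl l →
    ∀ (ι : Type) [Fintype ι] [DecidableEq ι] (φ : N → ι), Function.Injective φ →
    ∀ f : (ι → Fin (P.J + 1)) → ℝ,
      (∀ x, ∀ S ∈ leaf g, T ⊆ S → ∑ i ∈ S \ T, (P.s : ℝ) ^ (x (φ i) : ℕ) ≤ f x) →
      (l : ℝ) * ((P.D : ℝ) * P.s ^ P.J) / 6 ≤ pE (fun _ => wl P.J P.q l) f

attribute [instance] Ens.fN Ens.dN Ens.fG Ens.nG

end Pool.Agent.H68.Clock
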