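import Mathlib
import Pool.Agent.H68.Clock.Level

/-!
The potential of the next level: deterministic part.
-/

namespace Pool.Agent.H68.Clock

open Finset

/-! ### Two point inequalities -/

theorem two_point_sqrt {q x0 x1 x2 y0 y1 y2 : ℝ} (hq0 : 0 ≤ q) (hq1 : q ≤ 1) (hx1 : 0 ≤ x1)
    (hx2 : 0 ≤ x2) (hy1 : 0 ≤ y1) (hy2 : 0 ≤ y2) (hx : q * x1 + (1 - q) * x2 ≤ x0)
    (hy : q * y1 + (1 - q) * y2 ≤ y0) :
    q * √(x1 * y1) + (1 - q) * √(x2 * y2) ≤ √(x0 * y0) := by
  have h1q : 0 ≤ 1 - q := by linarith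
  have hA : 0 ≤ q * x1 + (1 - q) * x2 := by positivity
  have hB : 0 ≤ q * y1 + (1 - q) * y2 := by positivity
  refine Real.le_sqrt_of_sq_le ?_
  have h1 : (q * √(x1 * y1) + (1 - q) * √(x2 * y2)) ^ 2 ≤
      (q * x1 + (1 - q) * x2) * (q * y1 + (1 - q) * y2) := by
    rw [Real.sqrt_mul hx1, Real.sqrt_mul hx2]
    set a1 := √x1
    set b1 := √y1
    set a2 := √x2
    set b2 := √y2
    have ha1 : x1 = a1 ^ 2 := (Real.sq_sqrt hx1).symm
    have hb1 : y1 = b1 ^ 2 := (Real.sq_sqrt hy1).symm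
    have ha2 : x2 = a2 ^ 2 := (Real.sq_sqrt hx2).symm
    have hb2 : y2 = b2 ^ 2 := (Real.sq_sqrt hy2).symm
    rw [ha1, hb1, ha2, hb2]
    nlinarith [mul_nonneg (mul_nonneg hq0 h1q) (sq_nonneg (a1 * b2 - a2 * b1))]
  exact h1.trans (mul_le_mul hx hy hB (hA.trans hx))

theorem two_point_rpow {q x0 x1 x2 θ : ℝ} (hq0 : 0 ≤ q) (hq1 : q ≤ 1) (hx1 : 0 ≤ x1)
    (hx2 : 0 ≤ x2) (hθ0 : 0 ≤ θ) (hθ1 : θ ≤ 1) (hx : q * x1 + (1 - q) * x2 ≤ x0) :
    q * x1 ^ θ + (1 - q) * x2 ^ θ ≤ x0 ^ θ := by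
  have h1q : 0 ≤ 1 - q := by linarith
  have hA : 0 ≤ q * x1 + (1 - q) * x2 := by positivity
  have h := (Real.concaveOn_rpow hθ0 hθ1).2 (Set.mem_Ici.2 hx1) (Set.mem_Ici.2 hx2) hq0 h1q
    (by ring)
  simp only [smul_eq_mul] at h
  exact h.trans (Real.rpow_le_rpow hA hx hθ0)

/-! ### The construction -/

namespace Ens

variable {P : Par} {l : ℕ} (E : Ens P l)

/-- The configuration seen by a child. -/
def sub (ω : E.N × Fin P.r → Fin (P.J + 2)) (lam : E.N → Fin P.r) : E.N → Fin (P.J + 2) :=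
  fun i => ω (i, lam i)

/-- The total region weight. -/
noncomputable def SS (ω : E.N × Fin P.r → Fin (P.J + 2)) : ℝ := ∑ x, P.Rw l (ω x)

/-- The threshold above which a child is exceptional. -/
noncomputable def thr (ω : E.N × Fin P.r → Fin (P.J + 2)) : ℝ :=
  Real.exp (P.a * (P.α (l + 1) * ((P.r : ℝ)⁻¹ * E.SS ω) + P.κ (l + 1) * P.Dl l))

/-- The exceptional children. -/
noncomputable def excSet {K : ℕ} (h : Fin K → (E.N → Fin P.r) × E.G)
    (ω : E.N × Fin P.r → Fin (P.J + 2)) : Finset (Fin K) :=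
  univ.filter fun b => E.thr ω < E.H (h b).2 (E.sub ω (h b).1)

/-- The potential of one child. -/
noncomputable def Q (y : (E.N → Fin P.r) × E.G) (ω : E.N × Fin P.r → Fin (P.J + 2)) : ℝ :=
  √(E.H y.2 (E.sub ω y.1) ^ (2 / (P.s : ℝ)) *
    ∏ i, (1 + P.Rw (l + 1) (E.sub ω y.1 i) * (Real.exp (2 * P.a) - 1)))

/-- The total number of moves left. -/
def Tm (ω : E.N × Fin P.r → Fin (P.J + 2)) : ℕ := ∑ x, (l + 2 - (ω x : ℕ))

/-- The constant in the exponent of the mass term. -/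
noncomputable def Ac (P : Par) (l : ℕ) : ℝ := (1 + 2 / (P.r : ℝ)) * P.α (l + 1)

/-- The mass term. -/
noncomputable def Xi (ω : E.N × Fin P.r → Fin (P.J + 2)) : ℝ :=
  ∏ x, (1 + P.Rw (l + 1) (ω x) * (Real.exp (Ac P l * P.a) - 1))

noncomputable def ep (P : Par) (l : ℕ) : ℝ :=
  (1 + 2 / (P.r : ℝ)) * (P.a * P.α (l + 1) * P.q + P.a * P.κ (l + 1) * (P.Dl l / (P.s : ℝ)) +
    Real.log (P.s * P.r) / P.s)

/-- The potential of the next level. -/
noncomputable def Hn {K : ℕ} (h : Fin K → (E.N → Fin P.r) × E.G)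
    (ω : E.N × Fin P.r → Fin (P.J + 2)) : ℝ :=
  ∑ b ∈ E.excSet h ω, E.Q (h b) ω +
    ((E.Tm ω : ℝ) + 1) * (P.m + 1) * Real.exp (ep P l) * E.Xi ω

theorem H_ge_one (g : E.G) (ω : E.N → Fin (P.J + 2)) : 1 ≤ E.H g ω := by
  refine le_trans ?_ (E.low g ω)
  rw [Real.one_le_exp_iff]
  exact mul_nonneg P.a_pos.le (Finset.sum_nonneg fun i _ => P.Rw_nonneg l _)

theorem H_pos (g : E.G) (ω : E.N → Fin (P.J + 2)) : 0 < E.H g ω :=
  lt_of_lt_of_le one_pos (E.H_ge_one g ω)

theorem sub_update (ω : E.N × Fin P.r → Fin (P.J + 2)) (x : E.N × Fin P.r) (st : Fin (P.J + 2))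
    (lam : E.N → Fin P.r) :
    E.sub (Function.update ω x st) lam =
      if x.2 = lam x.1 then Function.update (E.sub ω lam) x.1 st else E.sub ω lam := by
  funext i
  unfold sub
  split_ifs with h
  · by_cases hi : i = x.1
    · subst hi
      rw [Function.update_self, ← h]
      simp
    · rw [Function.update_of_ne hi, Function.update_of_ne]
      intro hcon
      exact hi (congrArg Prod.fst hcon)
  · rw [Function.update_of_ne]
    intro hcon
    apply h
    have h1 : i = x.1 := congrArg Prod.fst hcon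
    have h2 : lam i = x.2 := congrArg Prod.snd hcon
    rw [← h1, h2]

/-- A product over coordinates after an update. -/
theorem prod_update_eq {N : Type*} [Fintype N] [DecidableEq N] {St : Type*} (η : St → ℝ)
    (ω : N → St) (x : N) (st : St) :
    ∏ i, η (Function.update ω x st i) = η st * ∏ i ∈ univ.erase x, η (ω i) := by
  rw [← Finset.mul_prod_erase univ _ (Finset.mem_univ x), Function.update_self]
  congr 1
  refine Finset.prod_congr rfl fun i hi => ?_
  rw [Function.update_of_ne (Finset.ne_of_mem_erase hi)]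

theorem sum_update_eq {N : Type*} [Fintype N] [DecidableEq N] {St M : Type*} [AddCommMonoid M]
    (η : St → M) (ω : N → St) (x : N) (st : St) :
    ∑ i, η (Function.update ω x st i) = η st + ∑ i ∈ univ.erase x, η (ω i) := by
  rw [← Finset.add_sum_erase univ _ (Finset.mem_univ x), Function.update_self]
  congr 1
  refine Finset.sum_congr rfl fun i hi => ?_
  rw [Function.update_of_ne (Finset.ne_of_mem_erase hi)]

theorem one_add_Rw_pos (k : ℕ) (st : Fin (P.J + 2)) {t : ℝ} (ht : 0 ≤ t) :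
    0 < 1 + P.Rw k st * (Real.exp t - 1) := by
  have h1 : 0 ≤ Real.exp t - 1 := by
    have := Real.one_le_exp ht
    linarith
  have h2 := mul_nonneg (P.Rw_nonneg k st) h1
  linarith

/-- The mass products are martingales. -/
theorem prod_mart {N : Type*} [Fintype N] [DecidableEq N] (k' : ℕ) {t : ℝ}
    (ω : N → Fin (P.J + 2)) (x : N) (k : Fin (P.J + 2)) (h1 : (ω x : ℕ) + 1 = k)
    (h2 : (k : ℕ) ≤ k') (hJ : k' ≤ P.J) :
    P.q * ∏ i, (1 + P.Rw k' (Function.update ω x k i) * (Real.exp t - 1)) +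
      (1 - P.q) * ∏ i, (1 + P.Rw k' (Function.update ω x (Fin.last (P.J + 1)) i) *
        (Real.exp t - 1)) = ∏ i, (1 + P.Rw k' (ω i) * (Real.exp t - 1)) := by
  rw [prod_update_eq (fun st => 1 + P.Rw k' st * (Real.exp t - 1)),
    prod_update_eq (fun st => 1 + P.Rw k' st * (Real.exp t - 1)),
    ← Finset.mul_prod_erase univ (fun i => 1 + P.Rw k' (ω i) * (Real.exp t - 1))
      (Finset.mem_univ x)]
  have h3 : P.Rw k' (Fin.last (P.J + 1)) = 0 := P.Rw_of_gt (by simp; omega)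
  have h4 := P.Rw_move h1 h2
  rw [h3, ← h4]
  ring

theorem prod_dead {N : Type*} [Fintype N] [DecidableEq N] (k' : ℕ) {t : ℝ} (ht : 0 ≤ t)
    (ω : N → Fin (P.J + 2)) (x : N) (st : Fin (P.J + 2)) (h : k' < (st : ℕ)) :
    ∏ i, (1 + P.Rw k' (Function.update ω x st i) * (Real.exp t - 1)) ≤
      ∏ i, (1 + P.Rw k' (ω i) * (Real.exp t - 1)) := by
  rw [prod_update_eq (fun st => 1 + P.Rw k' st * (Real.exp t - 1)),
    ← Finset.mul_prod_erase univ (fun i => 1 + P.Rw k' (ω i) * (Real.exp t - 1))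
      (Finset.mem_univ x), P.Rw_of_gt h]
  refine mul_le_mul_of_nonneg_right ?_ (Finset.prod_nonneg fun i _ => (one_add_Rw_pos _ _ ht).le)
  have h1 : 0 ≤ Real.exp t - 1 := by
    have := Real.one_le_exp ht
    linarith
  have h2 := mul_nonneg (P.Rw_nonneg k' (ω x)) h1
  linarith

theorem Ac_ge_one : 1 ≤ Ac P l := by
  unfold Ac
  have h1 : 0 ≤ 2 / (P.r : ℝ) := by
    have := P.r_pos
    positivity
  have h2 := P.α_ge_one (l + 1)
  nlinarith

theorem Xi_ge (ω : E.N × Fin P.r → Fin (P.J + 2)) :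
    Real.exp (Ac P l * P.a * ∑ x, P.Rw (l + 1) (ω x)) ≤ E.Xi ω := by
  unfold Xi
  rw [Finset.mul_sum, Real.exp_sum]
  refine Finset.prod_le_prod (fun _ _ => (Real.exp_pos _).le) fun x _ => ?_
  have hconv := convexOn_exp.2 (Set.mem_univ 0) (Set.mem_univ (Ac P l * P.a))
    (sub_nonneg.2 (P.Rw_le_one (l + 1) (ω x))) (P.Rw_nonneg (l + 1) (ω x)) (by ring)
  simp only [smul_eq_mul, Real.exp_zero, mul_zero, zero_add] at hconv
  have e1 : Ac P l * P.a * P.Rw (l + 1) (ω x) = P.Rw (l + 1) (ω x) * (Ac P l * P.a) := by ring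
  rw [e1]
  refine hconv.trans (le_of_eq ?_)
  ring

theorem Xi_pos (ω : E.N × Fin P.r → Fin (P.J + 2)) : 0 < E.Xi ω :=
  lt_of_lt_of_le (Real.exp_pos _) (E.Xi_ge ω)

theorem Q_nonneg (y : (E.N → Fin P.r) × E.G) (ω : E.N × Fin P.r → Fin (P.J + 2)) :
    0 ≤ E.Q y ω := Real.sqrt_nonneg _

/-- The potential of a child is excessive. -/
theorem Q_exc (hl : l + 1 ≤ P.J) (y : (E.N → Fin P.r) × E.G) (ω : E.N × Fin P.r → Fin (P.J + 2))
    (x : E.N × Fin P.r) (k : Fin (P.J + 2)) (h1 : (ω x : ℕ) + 1 = k) (h2 : (k : ℕ) ≤ l + 1) :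
    P.q * E.Q y (Function.update ω x k) +
      (1 - P.q) * E.Q y (Function.update ω x (Fin.last (P.J + 1))) ≤ E.Q y ω := by
  have hq0 := P.q_pos.le
  have hq1 := P.q_le_one
  have h1q : 0 ≤ 1 - P.q := by linarith
  unfold Q
  rw [sub_update, sub_update]
  by_cases hx : x.2 = y.1 x.1
  · rw [if_pos hx, if_pos hx]
    have hωx : E.sub ω y.1 x.1 = ω x := by
      unfold sub
      rw [← hx]
    have h1' : (E.sub ω y.1 x.1 : ℕ) + 1 = k := by rw [hωx]; exact h1
    set η := E.sub ω y.1 with hη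
    refine two_point_sqrt hq0 hq1 (Real.rpow_nonneg (E.H_pos _ _).le _)
      (Real.rpow_nonneg (E.H_pos _ _).le _)
      (Finset.prod_nonneg fun i _ => (one_add_Rw_pos _ _ (by linarith [P.a_pos])).le)
      (Finset.prod_nonneg fun i _ => (one_add_Rw_pos _ _ (by linarith [P.a_pos])).le) ?_
      (prod_mart (l + 1) η x.1 k h1' h2 hl).le
    refine two_point_rpow hq0 hq1 (E.H_pos _ _).le (E.H_pos _ _).le ?_ ?_ ?_
    · have := P.s_pos
      positivity
    · rw [div_le_one P.s_pos]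
      linarith [P.three_le_s]
    · rcases Nat.lt_or_ge l (k : ℕ) with hk | hk
      · have e1 := E.mono y.2 η x.1 k hk
        have e2 := E.mono y.2 η x.1 (Fin.last (P.J + 1)) (by simp; omega)
        nlinarith
      · exact E.exc y.2 η x.1 k h1' hk
  · rw [if_neg hx, if_neg hx]
    linarith

/-- The potential of a child decreases under dead moves. -/
theorem Q_dead (y : (E.N → Fin P.r) × E.G) (ω : E.N × Fin P.r → Fin (P.J + 2))
    (x : E.N × Fin P.r) (st : Fin (P.J + 2)) (h : l + 1 < (st : ℕ)) :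
    E.Q y (Function.update ω x st) ≤ E.Q y ω := by
  unfold Q
  rw [sub_update]
  by_cases hx : x.2 = y.1 x.1
  · rw [if_pos hx]
    refine Real.sqrt_le_sqrt ?_
    refine mul_le_mul ?_ (prod_dead (l + 1) (by linarith [P.a_pos]) _ x.1 st h)
      (Finset.prod_nonneg fun i _ => (one_add_Rw_pos _ _ (by linarith [P.a_pos])).le)
      (Real.rpow_nonneg (E.H_pos _ _).le _)
    refine Real.rpow_le_rpow (E.H_pos _ _).le (E.mono _ _ _ _ (by omega)) ?_
    have := P.s_pos
    positivity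
  · rw [if_neg hx]

theorem exp_two_a : Real.exp (2 * P.a) - 1 ≤ 4 * P.a := by
  have ha := P.a_pos
  have h1 : 2 * P.a ≤ 1 := by
    unfold Par.a
    linarith [P.δ_le]
  have h2 := Real.abs_exp_sub_one_le (x := 2 * P.a) (by rw [abs_of_pos (by linarith)]; exact h1)
  rw [abs_of_pos (by linarith : (0 : ℝ) < 2 * P.a)] at h2
  linarith [le_abs_self (Real.exp (2 * P.a) - 1)]

/-- The potential of a child is small if its ensemble value is not much above the threshold. -/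
theorem Q_le_of_small (y : (E.N → Fin P.r) × E.G) (ω : E.N × Fin P.r → Fin (P.J + 2))
    (h : E.H y.2 (E.sub ω y.1) ≤ P.s * P.r * Real.exp (P.a * (P.α (l + 1) *
      ((P.r : ℝ)⁻¹ * (E.SS ω + 1)) + P.κ (l + 1) * P.Dl l))) :
    E.Q y ω ≤ Real.exp (ep P l) * E.Xi ω := by
  have ha := P.a_pos
  have hs := P.s_pos
  have hr := P.r_pos
  have hsr : (0 : ℝ) < P.s * P.r := mul_pos hs hr
  set η := E.sub ω y.1 with hη
  set hv := E.H y.2 η with hhv
  have hvpos : 0 < hv := E.H_pos _ _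
  set L := Real.log hv with hL
  set R := ∑ i, P.Rw l (η i) with hR
  set N1 : ℝ := ∑ i, (if (η i : ℕ) = l + 1 then (1 : ℝ) else 0) with hN1
  set N2 : ℝ := ∑ x, (if (ω x : ℕ) = l + 1 then (1 : ℝ) else 0) with hN2
  have hRL : P.a * R ≤ L := by
    rw [hL, Real.le_log_iff_exp_le hvpos]
    exact E.low y.2 η
  have hLle : L ≤ Real.log (P.s * P.r) + P.a * (P.α (l + 1) *
      ((P.r : ℝ)⁻¹ * (E.SS ω + 1)) + P.κ (l + 1) * P.Dl l) := by
    have := Real.log_le_log hvpos h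
    rw [Real.log_mul hsr.ne' (Real.exp_pos _).ne', Real.log_exp] at this
    exact this
  have hN12 : N1 ≤ N2 := by
    rw [hN1, hN2, Fintype.sum_prod_type]
    refine Finset.sum_le_sum fun i _ => ?_
    exact Finset.single_le_sum (f := fun c => if (ω (i, c) : ℕ) = l + 1 then (1 : ℝ) else 0)
      (fun c _ => by split_ifs <;> norm_num) (Finset.mem_univ (y.1 i))
  have hRw2 : ∑ x, P.Rw (l + 1) (ω x) = P.q * E.SS ω + N2 := by
    simp_rw [P.Rw_succ l]
    rw [Finset.sum_add_distrib, ← Finset.mul_sum]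
    rfl
  -- bound of the product
  have hprod : ∏ i, (1 + P.Rw (l + 1) (η i) * (Real.exp (2 * P.a) - 1)) ≤
      Real.exp (2 * (2 * P.a * P.q * R + P.a * N1)) := by
    have e1 : 2 * (2 * P.a * P.q * R + P.a * N1) =
        ∑ i, (4 * P.a * (P.q * P.Rw l (η i)) + 2 * P.a * (if (η i : ℕ) = l + 1 then 1 else 0)) := by
      rw [Finset.sum_add_distrib, ← Finset.mul_sum, ← Finset.mul_sum, ← Finset.mul_sum]
      ring
    rw [e1, Real.exp_sum]
    refine Finset.prod_le_prod (fun i _ => (one_add_Rw_pos _ _ (by linarith)).le) fun i _ => ?_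
    by_cases hi : (η i : ℕ) = l + 1
    · have h0 : P.Rw l (η i) = 0 := P.Rw_of_gt (by omega)
      rw [P.Rw_succ, h0, if_pos hi]
      simp
    · rw [P.Rw_succ, if_neg hi]
      have h1 := Real.add_one_le_exp (4 * P.a * (P.q * P.Rw l (η i)) + 2 * P.a * 0)
      have h2 : 0 ≤ P.q * P.Rw l (η i) := mul_nonneg P.q_pos.le (P.Rw_nonneg _ _)
      have h3 := mul_le_mul_of_nonneg_left (exp_two_a (P := P)) h2
      linarith
  have hQ : E.Q y ω ≤ Real.exp (L / P.s + 2 * P.a * P.q * R + P.a * N1) := by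
    unfold Q
    rw [← Real.sqrt_sq (Real.exp_pos (L / P.s + 2 * P.a * P.q * R + P.a * N1)).le]
    refine Real.sqrt_le_sqrt ?_
    have e1 : hv ^ (2 / (P.s : ℝ)) = Real.exp (L * (2 / P.s)) := by
      rw [Real.rpow_def_of_pos hvpos]
    have e2 : Real.exp (L / P.s + 2 * P.a * P.q * R + P.a * N1) ^ 2 =
        Real.exp (L * (2 / P.s)) * Real.exp (2 * (2 * P.a * P.q * R + P.a * N1)) := by
      rw [← Real.exp_add, sq, ← Real.exp_add]
      congr 1
      field_simp
      ring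
    rw [e2, ← hη, ← hhv, e1]
    exact mul_le_mul_of_nonneg_left hprod (Real.exp_pos _).le
  refine hQ.trans ?_
  have hfin : L / P.s + 2 * P.a * P.q * R + P.a * N1 ≤
      ep P l + Ac P l * P.a * ∑ x, P.Rw (l + 1) (ω x) := by
    have hq := P.q_pos
    have hqe : P.q = 1 / P.s * (P.r : ℝ)⁻¹ := by
      unfold Par.q
      field_simp
    have h1 : 2 * P.a * P.q * R ≤ 2 * P.q * L := by
      have := mul_le_mul_of_nonneg_left hRL (by linarith : 0 ≤ 2 * P.q)
      linarith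
    have h2 : L / P.s + 2 * P.q * L = (1 + 2 / (P.r : ℝ)) * (1 / P.s) * L := by
      rw [hqe]
      field_simp
    have hc : 0 ≤ (1 + 2 / (P.r : ℝ)) * (1 / P.s) := by positivity
    have h3 := mul_le_mul_of_nonneg_left hLle hc
    have h4 : (1 + 2 / (P.r : ℝ)) * (1 / P.s) * (Real.log (P.s * P.r) + P.a * (P.α (l + 1) *
      ((P.r : ℝ)⁻¹ * (E.SS ω + 1)) + P.κ (l + 1) * P.Dl l)) =
      ep P l + Ac P l * P.a * (P.q * E.SS ω) := by
      unfold ep Ac
      rw [hqe]
      field_simp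
      ring
    have h5 : P.a * N1 ≤ Ac P l * P.a * N2 := by
      have hN2 : 0 ≤ N2 := Finset.sum_nonneg fun x _ => by split_ifs <;> norm_num
      have := Ac_ge_one (P := P) (l := l)
      nlinarith [mul_le_mul_of_nonneg_left hN12 ha.le, mul_nonneg ha.le hN2]
    rw [hRw2]
    have h6 : Ac P l * P.a * (P.q * E.SS ω + N2) =
      Ac P l * P.a * (P.q * E.SS ω) + Ac P l * P.a * N2 := by ring
    linarith
  calc Real.exp (L / P.s + 2 * P.a * P.q * R + P.a * N1)
      ≤ Real.exp (ep P l + Ac P l * P.a * ∑ x, P.Rw (l + 1) (ω x)) := Real.exp_le_exp.2 hfin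
    _ = Real.exp (ep P l) * Real.exp (Ac P l * P.a * ∑ x, P.Rw (l + 1) (ω x)) := Real.exp_add _ _
    _ ≤ Real.exp (ep P l) * E.Xi ω := mul_le_mul_of_nonneg_left (E.Xi_ge ω) (Real.exp_pos _).le

theorem thr_pos (ω : E.N × Fin P.r → Fin (P.J + 2)) : 0 < E.thr ω := Real.exp_pos _

/-- A child that was not exceptional is small after one move. -/
theorem Q_entry (y : (E.N → Fin P.r) × E.G) (ω ω' : E.N × Fin P.r → Fin (P.J + 2))
    (hn : E.H y.2 (E.sub ω y.1) ≤ E.thr ω)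
    (hH : E.H y.2 (E.sub ω' y.1) ≤ P.s * P.r * E.H y.2 (E.sub ω y.1))
    (hS : E.SS ω ≤ E.SS ω' + 1) :
    E.Q y ω' ≤ Real.exp (ep P l) * E.Xi ω' := by
  have hs := P.s_pos
  have hr := P.r_pos
  have hsr : (0 : ℝ) < P.s * P.r := mul_pos hs hr
  refine E.Q_le_of_small y ω' (hH.trans ?_)
  refine mul_le_mul_of_nonneg_left (hn.trans ?_) hsr.le
  unfold thr
  refine Real.exp_le_exp.2 ?_
  refine mul_le_mul_of_nonneg_left ?_ P.a_pos.le
  have h1 : (P.r : ℝ)⁻¹ * E.SS ω ≤ (P.r : ℝ)⁻¹ * (E.SS ω' + 1) :=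
    mul_le_mul_of_nonneg_left hS (inv_pos.2 hr).le
  have h2 := mul_le_mul_of_nonneg_left h1 (by linarith [P.α_ge_one (l + 1)] : 0 ≤ P.α (l + 1))
  linarith

/-- The value of the new potential after a move, in terms of the old exceptional set. -/
theorem Hn_trans {K : ℕ} (h : Fin K → (E.N → Fin P.r) × E.G)
    (hstat : ∀ ω, (E.excSet h ω).card ≤ P.m) (ω ω' : E.N × Fin P.r → Fin (P.J + 2))
    (hH : ∀ y : (E.N → Fin P.r) × E.G,
      E.H y.2 (E.sub ω' y.1) ≤ P.s * P.r * E.H y.2 (E.sub ω y.1))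
    (hS : E.SS ω ≤ E.SS ω' + 1)
    (hT : E.Tm ω' + 1 ≤ E.Tm ω ∨ (E.Tm ω' ≤ E.Tm ω ∧ E.excSet h ω' ⊆ E.excSet h ω)) :
    E.Hn h ω' ≤ ∑ b ∈ E.excSet h ω, E.Q (h b) ω' +
      ((E.Tm ω : ℝ) + 1) * (P.m + 1) * Real.exp (ep P l) * E.Xi ω' := by
  have hX := mul_pos (Real.exp_pos (ep P l)) (E.Xi_pos ω')
  have hm : (0 : ℝ) ≤ P.m := Nat.cast_nonneg _
  unfold Hn
  rcases hT with hT | ⟨hT, hsub⟩
  · have h1 : ∑ b ∈ E.excSet h ω', E.Q (h b) ω' ≤ ∑ b ∈ E.excSet h ω, E.Q (h b) ω' +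
        P.m * (Real.exp (ep P l) * E.Xi ω') := by
      have h2 : ∑ b ∈ E.excSet h ω', E.Q (h b) ω' ≤
          ∑ b ∈ E.excSet h ω, E.Q (h b) ω' + ∑ b ∈ E.excSet h ω' \ E.excSet h ω, E.Q (h b) ω' := by
        rw [← Finset.sum_union Finset.disjoint_sdiff]
        refine Finset.sum_le_sum_of_subset_of_nonneg ?_ fun _ _ _ => E.Q_nonneg _ _
        intro b hb
        rw [Finset.union_sdiff_self_eq_union]
        exact Finset.mem_union_right _ hb
      refine h2.trans (add_le_add_right ?_ _)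
      have h3 : ∀ b ∈ E.excSet h ω' \ E.excSet h ω,
          E.Q (h b) ω' ≤ Real.exp (ep P l) * E.Xi ω' := by
        intro b hb
        have hb2 := (Finset.mem_sdiff.1 hb).2
        refine E.Q_entry (h b) ω ω' ?_ (hH _) hS
        by_contra hcon
        exact hb2 (Finset.mem_filter.2 ⟨Finset.mem_univ _, not_le.1 hcon⟩)
      refine (Finset.sum_le_card_nsmul _ _ _ h3).trans ?_
      rw [nsmul_eq_mul]
      refine mul_le_mul_of_nonneg_right ?_ hX.le
      exact_mod_cast (Finset.card_le_card Finset.sdiff_subset).trans (hstat ω')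
    have h4 : ((E.Tm ω' : ℝ) + 1) ≤ E.Tm ω := by exact_mod_cast hT
    have h5 : 0 ≤ (E.Tm ω - ((E.Tm ω' : ℝ) + 1)) * (P.m + 1) * (Real.exp (ep P l) * E.Xi ω') :=
      mul_nonneg (mul_nonneg (by linarith) (by linarith)) hX.le
    nlinarith [h1, h5, hX]
  · refine add_le_add (Finset.sum_le_sum_of_subset_of_nonneg hsub fun _ _ _ => E.Q_nonneg _ _) ?_
    have h4 : (E.Tm ω' : ℝ) ≤ E.Tm ω := by exact_mod_cast hT
    have h5 : 0 ≤ (E.Tm ω - (E.Tm ω' : ℝ)) * (P.m + 1) * (Real.exp (ep P l) * E.Xi ω') :=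
      mul_nonneg (mul_nonneg (by linarith) (by linarith)) hX.le
    nlinarith [h5]

theorem SS_update (ω : E.N × Fin P.r → Fin (P.J + 2)) (x : E.N × Fin P.r)
    (st : Fin (P.J + 2)) :
    E.SS (Function.update ω x st) + P.Rw l (ω x) = E.SS ω + P.Rw l st := by
  unfold SS
  rw [sum_update_eq (fun st => P.Rw l st),
    ← Finset.add_sum_erase univ (fun i => P.Rw l (ω i)) (Finset.mem_univ x)]
  ring

theorem SS_update_le (ω : E.N × Fin P.r → Fin (P.J + 2)) (x : E.N × Fin P.r)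
    (st : Fin (P.J + 2)) : E.SS ω ≤ E.SS (Function.update ω x st) + 1 := by
  have h1 := E.SS_update ω x st
  have h2 := P.Rw_nonneg l st
  have h3 := P.Rw_le_one l (ω x)
  linarith

theorem Tm_update (ω : E.N × Fin P.r → Fin (P.J + 2)) (x : E.N × Fin P.r)
    (st : Fin (P.J + 2)) :
    E.Tm (Function.update ω x st) + (l + 2 - (ω x : ℕ)) = E.Tm ω + (l + 2 - (st : ℕ)) := by
  unfold Tm
  rw [sum_update_eq (fun st : Fin (P.J + 2) => l + 2 - (st : ℕ)),
    ← Finset.add_sum_erase univ (fun i => l + 2 - (ω i : ℕ)) (Finset.mem_univ x)]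
  omega

/-- One move multiplies the ensemble values by at most `s r`. -/
theorem H_update_le (ω : E.N × Fin P.r → Fin (P.J + 2)) (x : E.N × Fin P.r)
    (st : Fin (P.J + 2)) (h : l < (st : ℕ) ∨ (ω x : ℕ) + 1 = st)
    (y : (E.N → Fin P.r) × E.G) :
    E.H y.2 (E.sub (Function.update ω x st) y.1) ≤ P.s * P.r * E.H y.2 (E.sub ω y.1) := by
  have hsr := P.sr_ge
  have hpos := E.H_pos y.2 (E.sub ω y.1)
  have hone : E.H y.2 (E.sub ω y.1) ≤ P.s * P.r * E.H y.2 (E.sub ω y.1) := by nlinarith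
  rw [sub_update]
  by_cases hx : x.2 = y.1 x.1
  · rw [if_pos hx]
    rcases Nat.lt_or_ge l (st : ℕ) with hst | hst
    · exact (E.mono y.2 _ x.1 st hst).trans hone
    · have h' : (ω x : ℕ) + 1 = st := by
        rcases h with h | h
        · omega
        · exact h
      have hωx : E.sub ω y.1 x.1 = ω x := by
        unfold sub
        rw [← hx]
      have h1 := E.exc y.2 (E.sub ω y.1) x.1 st (by rw [hωx]; exact h') hst
      have h2 : 0 ≤ (1 - P.q) *
          E.H y.2 (Function.update (E.sub ω y.1) x.1 (Fin.last (P.J + 1))) :=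
        mul_nonneg (by linarith [P.q_le_one]) (E.H_pos _ _).le
      have h3 : P.q * E.H y.2 (Function.update (E.sub ω y.1) x.1 st) ≤
        E.H y.2 (E.sub ω y.1) := by linarith
      have h4 : (P.s * P.r : ℝ) * P.q = 1 := by
        unfold Par.q
        rw [mul_one_div_cancel]
        linarith
      have h5 := mul_le_mul_of_nonneg_left h3 (by linarith : (0 : ℝ) ≤ P.s * P.r)
      rw [← mul_assoc, h4, one_mul] at h5
      exact h5
  · rw [if_neg hx]
    exact hone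

/-- The new potential is excessive. -/
theorem Hn_exc (hl : l + 1 ≤ P.J) {K : ℕ} (h : Fin K → (E.N → Fin P.r) × E.G)
    (hstat : ∀ ω, (E.excSet h ω).card ≤ P.m) (ω : E.N × Fin P.r → Fin (P.J + 2))
    (x : E.N × Fin P.r) (k : Fin (P.J + 2)) (h1 : (ω x : ℕ) + 1 = k) (h2 : (k : ℕ) ≤ l + 1) :
    P.q * E.Hn h (Function.update ω x k) +
      (1 - P.q) * E.Hn h (Function.update ω x (Fin.last (P.J + 1))) ≤ E.Hn h ω := by
  have hq0 := P.q_pos.le
  have h1q : 0 ≤ 1 - P.q := by linarith [P.q_le_one]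
  have hlast : ((Fin.last (P.J + 1) : Fin (P.J + 2)) : ℕ) = P.J + 1 := Fin.val_last _
  have t1 := E.Hn_trans h hstat ω (Function.update ω x k)
    (E.H_update_le ω x k (Or.inr h1)) (E.SS_update_le ω x k)
    (Or.inl (by have := E.Tm_update ω x k; omega))
  have t2 := E.Hn_trans h hstat ω (Function.update ω x (Fin.last (P.J + 1)))
    (E.H_update_le ω x _ (Or.inl (by rw [hlast]; omega))) (E.SS_update_le ω x _)
    (Or.inl (by have := E.Tm_update ω x (Fin.last (P.J + 1)); rw [hlast] at this; omega))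
  have t3 : P.q * ∑ b ∈ E.excSet h ω, E.Q (h b) (Function.update ω x k) +
      (1 - P.q) * ∑ b ∈ E.excSet h ω, E.Q (h b) (Function.update ω x (Fin.last (P.J + 1))) ≤
      ∑ b ∈ E.excSet h ω, E.Q (h b) ω := by
    rw [Finset.mul_sum, Finset.mul_sum, ← Finset.sum_add_distrib]
    exact Finset.sum_le_sum fun b _ => E.Q_exc hl (h b) ω x k h1 h2
  have t4 : P.q * E.Xi (Function.update ω x k) +
      (1 - P.q) * E.Xi (Function.update ω x (Fin.last (P.J + 1))) = E.Xi ω :=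
    prod_mart (l + 1) ω x k h1 h2 hl
  set C := ((E.Tm ω : ℝ) + 1) * (P.m + 1) * Real.exp (ep P l) with hC
  have t5 := mul_le_mul_of_nonneg_left t1 hq0
  have t6 := mul_le_mul_of_nonneg_left t2 h1q
  have t7 : E.Hn h ω = ∑ b ∈ E.excSet h ω, E.Q (h b) ω + C * E.Xi ω := rfl
  rw [t7, ← t4]
  linarith

/-- The new potential does not increase under dead moves. -/
theorem Hn_mono {K : ℕ} (h : Fin K → (E.N → Fin P.r) × E.G)
    (hstat : ∀ ω, (E.excSet h ω).card ≤ P.m) (ω : E.N × Fin P.r → Fin (P.J + 2))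
    (x : E.N × Fin P.r) (st : Fin (P.J + 2)) (hst : l + 1 < (st : ℕ)) :
    E.Hn h (Function.update ω x st) ≤ E.Hn h ω := by
  have hT : E.Tm (Function.update ω x st) + 1 ≤ E.Tm ω ∨
      (E.Tm (Function.update ω x st) ≤ E.Tm ω ∧
        E.excSet h (Function.update ω x st) ⊆ E.excSet h ω) := by
    have hTm := E.Tm_update ω x st
    rcases Nat.lt_or_ge (l + 1) (ω x : ℕ) with hω | hω
    · right
      refine ⟨by omega, ?_⟩
      have hSS := E.SS_update ω x st
      rw [P.Rw_of_gt (show l < (ω x : ℕ) by omega), P.Rw_of_gt (show l < (st : ℕ) by omega),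
        add_zero, add_zero] at hSS
      intro b hb
      unfold excSet at hb ⊢
      rw [Finset.mem_filter] at hb ⊢
      refine ⟨hb.1, ?_⟩
      have hthr : E.thr (Function.update ω x st) = E.thr ω := by
        unfold thr
        rw [hSS]
      rw [hthr] at hb
      refine hb.2.trans_le ?_
      rw [sub_update]
      split_ifs with hx
      · exact E.mono _ _ _ _ (by omega)
      · exact le_rfl
    · left
      omega
  have t1 := E.Hn_trans h hstat ω (Function.update ω x st)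
    (E.H_update_le ω x st (Or.inl (by omega))) (E.SS_update_le ω x st) hT
  have t2 : ∑ b ∈ E.excSet h ω, E.Q (h b) (Function.update ω x st) ≤
      ∑ b ∈ E.excSet h ω, E.Q (h b) ω :=
    Finset.sum_le_sum fun b _ => E.Q_dead (h b) ω x st hst
  have t3 : E.Xi (Function.update ω x st) ≤ E.Xi ω :=
    prod_dead (l + 1) (by
      have := Ac_ge_one (P := P) (l := l)
      exact mul_nonneg (by linarith) P.a_pos.le) ω x st hst
  have hC : 0 ≤ ((E.Tm ω : ℝ) + 1) * (P.m + 1) * Real.exp (ep P l) := by positivity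
  have t4 := mul_le_mul_of_nonneg_left t3 hC
  have t7 : E.Hn h ω = ∑ b ∈ E.excSet h ω, E.Q (h b) ω +
    ((E.Tm ω : ℝ) + 1) * (P.m + 1) * Real.exp (ep P l) * E.Xi ω := rfl
  rw [t7]
  linarith

theorem ep_nonneg : 0 ≤ ep P l := by
  unfold ep
  have h1 : 0 ≤ 2 / (P.r : ℝ) := by
    have := P.r_pos
    positivity
  have h2 : 0 ≤ Real.log (P.s * P.r) := Real.log_nonneg (by linarith [P.sr_ge])
  have h3 := P.a_pos
  have h4 := P.α_ge_one (l + 1)
  have h5 := P.κ_nonneg (l + 1)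
  have h6 := P.q_pos
  have h7 := P.s_pos
  have h8 : 0 ≤ P.α (l + 1) := by linarith
  positivity

theorem mass_le (ω : E.N × Fin P.r → Fin (P.J + 2)) :
    Real.exp (ep P l) * E.Xi ω ≤
      ((E.Tm ω : ℝ) + 1) * (P.m + 1) * Real.exp (ep P l) * E.Xi ω := by
  have hX := mul_pos (Real.exp_pos (ep P l)) (E.Xi_pos ω)
  have h1 : (1 : ℝ) ≤ ((E.Tm ω : ℝ) + 1) * (P.m + 1) := by
    have h2 : (0 : ℝ) ≤ E.Tm ω := Nat.cast_nonneg _
    have h3 : (0 : ℝ) ≤ P.m := Nat.cast_nonneg _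
    nlinarith
  nlinarith

theorem Hn_low {K : ℕ} (h : Fin K → (E.N → Fin P.r) × E.G)
    (ω : E.N × Fin P.r → Fin (P.J + 2)) :
    Real.exp (P.a * ∑ x, P.Rw (l + 1) (ω x)) ≤ E.Hn h ω := by
  have h1 : Real.exp (P.a * ∑ x, P.Rw (l + 1) (ω x)) ≤ E.Xi ω := by
    refine le_trans (Real.exp_le_exp.2 ?_) (E.Xi_ge ω)
    have h2 : 0 ≤ P.a * ∑ x, P.Rw (l + 1) (ω x) :=
      mul_nonneg P.a_pos.le (Finset.sum_nonneg fun x _ => P.Rw_nonneg _ _)
    have := Ac_ge_one (P := P) (l := l)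
    nlinarith
  have h2 : E.Xi ω ≤ Real.exp (ep P l) * E.Xi ω := by
    have := Real.one_le_exp (ep_nonneg (P := P) (l := l))
    nlinarith [E.Xi_pos ω]
  have h3 := E.mass_le ω
  have h4 : 0 ≤ ∑ b ∈ E.excSet h ω, E.Q (h b) ω := Finset.sum_nonneg fun b _ => E.Q_nonneg _ _
  unfold Hn
  linarith

theorem Q_le_Hn {K : ℕ} (h : Fin K → (E.N → Fin P.r) × E.G)
    (ω : E.N × Fin P.r → Fin (P.J + 2)) (b : Fin K) : E.Q (h b) ω ≤ E.Hn h ω := by
  have h3 := E.mass_le ω
  by_cases hb : b ∈ E.excSet h ω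
  · have h1 : E.Q (h b) ω ≤ ∑ b ∈ E.excSet h ω, E.Q (h b) ω :=
      Finset.single_le_sum (f := fun b => E.Q (h b) ω) (fun b _ => E.Q_nonneg _ _) hb
    have hX := mul_pos (Real.exp_pos (ep P l)) (E.Xi_pos ω)
    unfold Hn
    linarith
  · have h1 : E.Q (h b) ω ≤ Real.exp (ep P l) * E.Xi ω := by
      have hpos := E.H_pos (h b).2 (E.sub ω (h b).1)
      refine E.Q_entry (h b) ω ω ?_ ?_ (by linarith)
      · by_contra hcon
        exact hb (Finset.mem_filter.2 ⟨Finset.mem_univ _, not_le.1 hcon⟩)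
      · nlinarith [P.sr_ge]
    have h4 : 0 ≤ ∑ b ∈ E.excSet h ω, E.Q (h b) ω := Finset.sum_nonneg fun b _ => E.Q_nonneg _ _
    unfold Hn
    linarith

theorem vl_succ (s l : ℕ) {J : ℕ} (st : Fin (J + 2)) :
    vl s (l + 1) st = vl s l st + if (st : ℕ) = l + 1 then (s : ℝ) ^ (l + 1) else 0 := by
  unfold vl
  rcases lt_trichotomy (st : ℕ) (l + 1) with h | h | h
  · rw [if_pos h.le, if_pos (Nat.lt_succ_iff.1 h), if_neg h.ne, add_zero]
  · rw [if_pos h.le, if_neg (by omega), if_pos h, h, zero_add]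
  · rw [if_neg (by omega), if_neg (by omega), if_neg (by omega), add_zero]

/-- The potential of a child dominates its leaf sets. -/
theorem Q_dom (y : (E.N → Fin P.r) × E.G) (ω : E.N × Fin P.r → Fin (P.J + 2))
    (S : Finset E.N) (hS : S ∈ E.leaf y.2) :
    Real.exp (P.a / (P.s : ℝ) ^ (l + 1) * ∑ i ∈ S, vl P.s (l + 1) (E.sub ω y.1 i)) ≤
      E.Q y ω := by
  have ha := P.a_pos
  have hs := P.s_pos
  set η := E.sub ω y.1 with hη
  set Y := P.a / (P.s : ℝ) ^ l * ∑ i ∈ S, vl P.s l (η i) with hY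
  set N1 : ℝ := ∑ i ∈ S, (if (η i : ℕ) = l + 1 then (1 : ℝ) else 0) with hN1
  have hdom := E.dom y.2 S hS η
  have e0 : P.a / (P.s : ℝ) ^ (l + 1) * ∑ i ∈ S, vl P.s (l + 1) (η i) =
      Y / P.s + P.a * N1 := by
    have : ∀ i ∈ S, vl P.s (l + 1) (η i) = vl P.s l (η i) +
        (P.s : ℝ) ^ (l + 1) * (if (η i : ℕ) = l + 1 then (1 : ℝ) else 0) := by
      intro i _
      rw [vl_succ]
      congr 1
      split_ifs <;> simp
    rw [Finset.sum_congr rfl this, Finset.sum_add_distrib, ← Finset.mul_sum, hY, ← hN1]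
    rw [pow_succ]
    field_simp
  rw [e0]
  unfold Q
  refine Real.le_sqrt_of_sq_le ?_
  rw [sq, ← Real.exp_add]
  have e1 : Y / P.s + P.a * N1 + (Y / P.s + P.a * N1) = Y * (2 / P.s) + 2 * P.a * N1 := by
    field_simp
    ring
  rw [e1, Real.exp_add]
  refine mul_le_mul ?_ ?_ (Real.exp_pos _).le (Real.rpow_nonneg (E.H_pos _ _).le _)
  · rw [Real.exp_mul]
    exact Real.rpow_le_rpow (Real.exp_pos _).le hdom (by positivity)
  · have e2 : 2 * P.a * N1 = ∑ i ∈ S, 2 * P.a * (if (η i : ℕ) = l + 1 then (1 : ℝ) else 0) := by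
      rw [Finset.mul_sum]
    rw [e2, Real.exp_sum]
    have e3 : ∏ i ∈ S, Real.exp (2 * P.a * (if (η i : ℕ) = l + 1 then (1 : ℝ) else 0)) =
        ∏ i, (if i ∈ S then
          Real.exp (2 * P.a * (if (η i : ℕ) = l + 1 then (1 : ℝ) else 0)) else 1) := by
      rw [Finset.prod_ite_mem, Finset.univ_inter]
    rw [e3]
    have hu : 0 ≤ Real.exp (2 * P.a) - 1 := by
      have := Real.one_le_exp (by linarith : 0 ≤ 2 * P.a)
      linarith
    refine Finset.prod_le_prod (fun i _ => by split_ifs <;> positivity) fun i _ => ?_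
    have hR := mul_nonneg (P.Rw_nonneg (l + 1) (η i)) hu
    by_cases hiS : i ∈ S
    · rw [if_pos hiS]
      by_cases hi : (η i : ℕ) = l + 1
      · rw [if_pos hi, P.Rw_succ, P.Rw_of_gt (show l < (η i : ℕ) by omega), if_pos hi]
        simp
      · rw [if_neg hi, mul_zero, Real.exp_zero]
        linarith
    · rw [if_neg hiS]
      linarith

end Ens

end Pool.Agent.H68.Clock
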