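import Mathlib
import Pool.Agent.H68.Clock.Step

/-!
Counting: random graphs and random children.
-/

namespace Pool.Agent.H68.Clock

open Finset

section Counting

variable {N : Type*} [Fintype N] [DecidableEq N]

/-- Markov inequality for a product over a random graph. -/
theorem markov_prod {r : ℕ} (hr : 0 < r) (f : N × Fin r → ℝ) (hf : ∀ x, 0 ≤ f x) (C : ℝ) :
    ((univ.filter fun lam : N → Fin r => C < ∏ i, (1 + f (i, lam i))).card : ℝ) * C ≤
      (r : ℝ) ^ Fintype.card N * Real.exp ((r : ℝ)⁻¹ * ∑ x, f x) := by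
  have hr' : (0 : ℝ) < r := by exact_mod_cast hr
  have h0 : ∀ lam : N → Fin r, 0 ≤ ∏ i, (1 + f (i, lam i)) := fun lam =>
    Finset.prod_nonneg fun i _ => by have := hf (i, lam i); linarith
  calc ((univ.filter fun lam : N → Fin r => C < ∏ i, (1 + f (i, lam i))).card : ℝ) * C
      = ∑ lam ∈ univ.filter (fun lam : N → Fin r => C < ∏ i, (1 + f (i, lam i))), C := by
        rw [Finset.sum_const, nsmul_eq_mul]
    _ ≤ ∑ lam ∈ univ.filter (fun lam : N → Fin r => C < ∏ i, (1 + f (i, lam i))),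
          ∏ i, (1 + f (i, lam i)) :=
        Finset.sum_le_sum fun lam hlam => (Finset.mem_filter.1 hlam).2.le
    _ ≤ ∑ lam : N → Fin r, ∏ i, (1 + f (i, lam i)) :=
        Finset.sum_le_sum_of_subset_of_nonneg (Finset.filter_subset _ _) fun lam _ _ => h0 lam
    _ = ∏ i, ∑ c, (1 + f (i, c)) := (Fintype.prod_sum fun i c => 1 + f (i, c)).symm
    _ ≤ ∏ i, ((r : ℝ) * Real.exp ((r : ℝ)⁻¹ * ∑ c, f (i, c))) := by
        refine Finset.prod_le_prod (fun i _ => Finset.sum_nonneg fun c _ => by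
          have := hf (i, c); linarith) fun i _ => ?_
        rw [Finset.sum_add_distrib]
        have h1 := Real.add_one_le_exp ((r : ℝ)⁻¹ * ∑ c, f (i, c))
        have h2 := mul_le_mul_of_nonneg_left h1 hr'.le
        have h3 : (r : ℝ) * ((r : ℝ)⁻¹ * ∑ c, f (i, c) + 1) = r + ∑ c, f (i, c) := by
          field_simp
          ring
        rw [h3] at h2
        simpa using h2
    _ = (r : ℝ) ^ Fintype.card N * Real.exp ((r : ℝ)⁻¹ * ∑ x, f x) := by
        rw [Finset.prod_mul_distrib, Finset.prod_const, ← Real.exp_sum, ← Finset.mul_sum,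
          Fintype.sum_prod_type]
        rfl

/-- Many graphs contain a given partial graph. -/
theorem card_graphs {r : ℕ} (T : Finset (N × Fin r))
    (hT : Set.InjOn Prod.fst (T : Set (N × Fin r))) :
    r ^ Fintype.card N ≤
      (univ.filter fun lam : N → Fin r => ∀ x ∈ T, lam x.1 = x.2).card * r ^ T.card := by
  have h1 : (univ.filter fun lam : N → Fin r => ∀ x ∈ T, lam x.1 = x.2) =
      Fintype.piFinset (fun i => univ.filter fun c : Fin r => ∀ x ∈ T, x.1 = i → c = x.2) := by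
    ext lam
    simp only [Finset.mem_filter, Finset.mem_univ, true_and, Fintype.mem_piFinset]
    constructor
    · intro h i x hx hxi
      rw [← hxi]
      exact h x hx
    · intro h x hx
      exact h x.1 x hx rfl
  have h2 : T.card = ∑ i : N, (T.filter fun x => x.1 = i).card :=
    Finset.card_eq_sum_card_fiberwise (fun x _ => Finset.mem_univ x.1)
  rw [h1, Fintype.card_piFinset, h2, ← Finset.prod_pow_eq_pow_sum, ← Finset.prod_mul_distrib]
  have h3 : r ^ Fintype.card N = ∏ _i : N, r := by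
    rw [Finset.prod_const]
    rfl
  rw [h3]
  refine Finset.prod_le_prod' fun i _ => ?_
  rcases (T.filter fun x => x.1 = i).eq_empty_or_nonempty with he | ⟨x, hx⟩
  · rw [he, Finset.card_empty, pow_zero, mul_one]
    have : (univ.filter fun c : Fin r => ∀ x ∈ T, x.1 = i → c = x.2) = univ := by
      refine Finset.filter_true_of_mem fun c _ x hx hxi => ?_
      exact absurd (Finset.mem_filter.2 ⟨hx, hxi⟩) (by rw [he]; exact Finset.notMem_empty x)
    rw [this]
    simp
  · have hx' := Finset.mem_filter.1 hx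
    have hc : 1 ≤ (univ.filter fun c : Fin r => ∀ x ∈ T, x.1 = i → c = x.2).card := by
      refine Finset.card_pos.2 ⟨x.2, Finset.mem_filter.2 ⟨Finset.mem_univ _, ?_⟩⟩
      intro x' hx1 hx2
      have := hT (Finset.mem_coe.2 hx'.1) (Finset.mem_coe.2 hx1) (by rw [hx'.2, hx2])
      rw [this]
    have hp : r ≤ r ^ (T.filter fun x => x.1 = i).card :=
      Nat.le_self_pow (Finset.card_pos.2 ⟨x, hx⟩).ne' r
    calc r = 1 * r := (one_mul r).symm
      _ ≤ _ := Nat.mul_le_mul hc hp

end Counting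

section Children

variable {Y : Type*} [Fintype Y] [Nonempty Y] {K : ℕ}

theorem card_eq_pE (A : (Fin K → Y) → Prop) [DecidablePred A] :
    ((univ.filter A).card : ℝ) = (Fintype.card Y : ℝ) ^ K *
      pE (fun (_ : Fin K) (_ : Y) => ((Fintype.card Y : ℝ))⁻¹) (fun h => if A h then 1 else 0) := by
  have hY : (Fintype.card Y : ℝ) ≠ 0 := by exact_mod_cast Fintype.card_ne_zero
  unfold pE
  simp only [Finset.prod_const, Finset.card_univ, Fintype.card_fin, ← Finset.mul_sum]
  rw [← mul_assoc, inv_pow, mul_inv_cancel₀ (pow_ne_zero _ hY), one_mul]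
  simp

theorem unif_nonneg (i : Fin K) (y : Y) :
    0 ≤ (fun (_ : Fin K) (_ : Y) => ((Fintype.card Y : ℝ))⁻¹) i y := by
  positivity

theorem unif_sum (i : Fin K) :
    ∑ y, (fun (_ : Fin K) (_ : Y) => ((Fintype.card Y : ℝ))⁻¹) i y = 1 := by
  have hY : (Fintype.card Y : ℝ) ≠ 0 := by exact_mod_cast Fintype.card_ne_zero
  simp [hY]

/-- Union bound over the children. -/
theorem card_exists_le (A : Y → Prop) [DecidablePred A] {p : ℝ}
    (hA : ((univ.filter A).card : ℝ) ≤ p * Fintype.card Y) :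
    ((univ.filter fun h : Fin K → Y => ∃ b, A (h b)).card : ℝ) ≤
      K * p * (Fintype.card Y : ℝ) ^ K := by
  classical
  have hY : (0 : ℝ) < Fintype.card Y := by exact_mod_cast Fintype.card_pos
  rw [card_eq_pE]
  have h1 : pE (fun (_ : Fin K) (_ : Y) => ((Fintype.card Y : ℝ))⁻¹)
      (fun h => if ∃ b, A (h b) then 1 else 0) ≤
      pE (fun (_ : Fin K) (_ : Y) => ((Fintype.card Y : ℝ))⁻¹)
        (fun h => ∑ b, ∏ b' ∈ {b}, (if A (h b') then (1 : ℝ) else 0)) := by
    refine pE_mono _ unif_nonneg fun h => ?_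
    simp only [Finset.prod_singleton]
    split_ifs with hb
    · obtain ⟨b, hb⟩ := hb
      calc (1 : ℝ) = if A (h b) then 1 else 0 := by rw [if_pos hb]
        _ ≤ ∑ b, if A (h b) then (1 : ℝ) else 0 :=
          Finset.single_le_sum (f := fun b => if A (h b) then (1 : ℝ) else 0)
            (fun b _ => by split_ifs <;> norm_num) (Finset.mem_univ b)
    · exact Finset.sum_nonneg fun b _ => by split_ifs <;> norm_num
  have h2 : pE (fun (_ : Fin K) (_ : Y) => ((Fintype.card Y : ℝ))⁻¹)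
      (fun h => ∑ b, ∏ b' ∈ {b}, (if A (h b') then (1 : ℝ) else 0)) ≤ K * p := by
    rw [pE_sum univ _ (fun b (h : Fin K → Y) => ∏ b' ∈ {b}, (if A (h b') then (1 : ℝ) else 0))]
    calc ∑ b : Fin K, pE (fun (_ : Fin K) (_ : Y) => ((Fintype.card Y : ℝ))⁻¹)
          (fun h => ∏ b' ∈ {b}, (if A (h b') then (1 : ℝ) else 0))
        ≤ ∑ _b : Fin K, p := by
          refine Finset.sum_le_sum fun b _ => ?_
          have := pE_prod_subset (fun (_ : Fin K) (_ : Y) => ((Fintype.card Y : ℝ))⁻¹) unif_sum {b}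
            (fun (_ : Fin K) (y : Y) => if A y then (1 : ℝ) else 0)
          rw [this, Finset.prod_singleton, ← Finset.mul_sum]
          have e : ∑ y : Y, (if A y then (1 : ℝ) else 0) = (univ.filter A).card := by simp
          rw [e, inv_mul_le_iff₀ hY, mul_comm]
          exact hA
      _ = K * p := by simp
  calc (Fintype.card Y : ℝ) ^ K * _ ≤ (Fintype.card Y : ℝ) ^ K * (K * p) :=
        mul_le_mul_of_nonneg_left (h1.trans h2) (by positivity)
    _ = K * p * (Fintype.card Y : ℝ) ^ K := by ring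

/-- Many exceptional children are unlikely. -/
theorem card_many_le (A : Y → Prop) [DecidablePred A] {p : ℝ}
    (hA : ((univ.filter A).card : ℝ) ≤ p * Fintype.card Y) (m : ℕ) :
    ((univ.filter fun h : Fin K → Y => m + 1 ≤ (univ.filter fun b => A (h b)).card).card : ℝ) *
      2 ^ (m + 1) ≤ (1 + p) ^ K * (Fintype.card Y : ℝ) ^ K := by
  classical
  have hY : (0 : ℝ) < Fintype.card Y := by exact_mod_cast Fintype.card_pos
  rw [card_eq_pE]
  have h1 : 2 ^ (m + 1) * pE (fun (_ : Fin K) (_ : Y) => ((Fintype.card Y : ℝ))⁻¹)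
      (fun h => if m + 1 ≤ (univ.filter fun b => A (h b)).card then 1 else 0) ≤
      pE (fun (_ : Fin K) (_ : Y) => ((Fintype.card Y : ℝ))⁻¹)
        (fun h => ∏ b, (if A (h b) then (2 : ℝ) else 1)) := by
    rw [← pE_mul_left]
    refine pE_mono _ unif_nonneg fun h => ?_
    have e : ∏ b, (if A (h b) then (2 : ℝ) else 1) = 2 ^ (univ.filter fun b => A (h b)).card := by
      rw [Finset.prod_ite]
      simp
    rw [e]
    split_ifs with hb
    · rw [mul_one]
      exact pow_le_pow_right₀ (by norm_num) hb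
    · rw [mul_zero]
      positivity
  have h2 : pE (fun (_ : Fin K) (_ : Y) => ((Fintype.card Y : ℝ))⁻¹)
      (fun h => ∏ b, (if A (h b) then (2 : ℝ) else 1)) ≤ (1 + p) ^ K := by
    have := pE_prod (fun (_ : Fin K) (_ : Y) => ((Fintype.card Y : ℝ))⁻¹)
      (fun (_ : Fin K) (y : Y) => if A y then (2 : ℝ) else 1)
    rw [this, Finset.prod_const, Finset.card_univ, Fintype.card_fin]
    refine pow_le_pow_left₀ (Finset.sum_nonneg fun y _ => by split_ifs <;> positivity) ?_ K
    rw [← Finset.mul_sum]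
    have e : ∑ y : Y, (if A y then (2 : ℝ) else 1) =
        Fintype.card Y + (univ.filter A).card := by
      have : ∀ y : Y, (if A y then (2 : ℝ) else 1) = 1 + if A y then 1 else 0 := by
        intro y
        split_ifs <;> norm_num
      simp_rw [this]
      rw [Finset.sum_add_distrib]
      simp
    rw [e, inv_mul_le_iff₀ hY]
    linarith
  calc (Fintype.card Y : ℝ) ^ K * _ * 2 ^ (m + 1)
      = (Fintype.card Y : ℝ) ^ K * (2 ^ (m + 1) *
        pE (fun (_ : Fin K) (_ : Y) => ((Fintype.card Y : ℝ))⁻¹)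
          (fun h => if m + 1 ≤ (univ.filter fun b => A (h b)).card then 1 else 0)) := by ring
    _ ≤ (Fintype.card Y : ℝ) ^ K * (1 + p) ^ K :=
        mul_le_mul_of_nonneg_left (h1.trans h2) (by positivity)
    _ = _ := by ring

/-- Missing a likely event at all children is unlikely. -/
theorem card_none_le (A : Y → Prop) [DecidablePred A] {ρ : ℝ}
    (hA : ρ * Fintype.card Y ≤ ((univ.filter A).card : ℝ)) :
    ((univ.filter fun h : Fin K → Y => ∀ b, ¬ A (h b)).card : ℝ) ≤
      Real.exp (-(ρ * K)) * (Fintype.card Y : ℝ) ^ K := by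
  classical
  have hY : (0 : ℝ) < Fintype.card Y := by exact_mod_cast Fintype.card_pos
  rw [card_eq_pE]
  have h1 : pE (fun (_ : Fin K) (_ : Y) => ((Fintype.card Y : ℝ))⁻¹)
      (fun h => if ∀ b, ¬ A (h b) then 1 else 0) =
      pE (fun (_ : Fin K) (_ : Y) => ((Fintype.card Y : ℝ))⁻¹)
        (fun h => ∏ b, (if A (h b) then (0 : ℝ) else 1)) := by
    congr 1
    funext h
    split_ifs with hb
    · rw [Finset.prod_eq_one]
      intro b _
      rw [if_neg (hb b)]
    · push Not at hb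
      obtain ⟨b, hb⟩ := hb
      rw [Finset.prod_eq_zero (Finset.mem_univ b)]
      rw [if_pos hb]
  have h2 : pE (fun (_ : Fin K) (_ : Y) => ((Fintype.card Y : ℝ))⁻¹)
      (fun h => ∏ b, (if A (h b) then (0 : ℝ) else 1)) ≤ Real.exp (-(ρ * K)) := by
    have := pE_prod (fun (_ : Fin K) (_ : Y) => ((Fintype.card Y : ℝ))⁻¹)
      (fun (_ : Fin K) (y : Y) => if A y then (0 : ℝ) else 1)
    rw [this, Finset.prod_const, Finset.card_univ, Fintype.card_fin]
    have e2 : Real.exp (-(ρ * K)) = Real.exp (-ρ) ^ K := by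
      rw [← Real.exp_nat_mul]
      congr 1
      ring
    rw [e2]
    refine pow_le_pow_left₀ (Finset.sum_nonneg fun y _ => by split_ifs <;> positivity) ?_ K
    rw [← Finset.mul_sum]
    have e : ∑ y : Y, (if A y then (0 : ℝ) else 1) =
        Fintype.card Y - (univ.filter A).card := by
      have : ∀ y : Y, (if A y then (0 : ℝ) else 1) = 1 - if A y then 1 else 0 := by
        intro y
        split_ifs <;> norm_num
      simp_rw [this]
      rw [Finset.sum_sub_distrib]
      simp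
    rw [e]
    have h3 : (Fintype.card Y : ℝ)⁻¹ * (Fintype.card Y - (univ.filter A).card) ≤ 1 - ρ := by
      rw [inv_mul_le_iff₀ hY]
      linarith
    have h4 := Real.add_one_le_exp (-ρ)
    linarith
  rw [h1, mul_comm]
  exact mul_le_mul_of_nonneg_right h2 (by positivity)

end Children

namespace Par

variable (P : Par)

/-- The number of children of an ensemble member at level `l`. -/
def Kl (l : ℕ) : ℕ := P.r ^ (4 * P.Dl l)

/-- An upper bound for the number of items. -/
def nn : ℕ := P.D * P.s ^ P.J * P.r ^ P.J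

theorem Dl_pos (l : ℕ) : 1 ≤ P.Dl l := P.hD.trans (P.D_le_Dl l)

theorem hK' {l : ℕ} (hl : l + 1 ≤ P.J) :
    4 * (P.Kl (l + 1) : ℝ) * Real.exp (-(P.δ * P.a * P.Dl l)) ≤
      Real.exp (-(P.δ * P.a * P.Dl (l + 1))) := by
  have h1 : (4 * (P.r : ℝ) ^ 4 * Real.exp (-(P.δ * (P.δ / 2) * P.s))) ^ P.Dl (l + 1) ≤
      Real.exp (-(P.δ * (P.δ / 2))) ^ P.Dl (l + 1) :=
    pow_le_pow_left₀ (by positivity) P.hK _
  have e1 : Real.exp (-(P.δ * (P.δ / 2))) ^ P.Dl (l + 1) =
      Real.exp (-(P.δ * P.a * P.Dl (l + 1))) := by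
    rw [← Real.exp_nat_mul]
    congr 1
    unfold a
    ring
  have e2 : (4 * (P.r : ℝ) ^ 4 * Real.exp (-(P.δ * (P.δ / 2) * P.s))) ^ P.Dl (l + 1) =
      4 ^ P.Dl (l + 1) * ((P.Kl (l + 1) : ℝ) * Real.exp (-(P.δ * P.a * P.Dl l))) := by
    rw [mul_pow, mul_pow, mul_assoc]
    congr 1
    congr 1
    · unfold Kl
      push_cast
      rw [← pow_mul]
    · rw [← Real.exp_nat_mul, P.Dl_succ hl]
      congr 1
      unfold a
      push_cast
      ring
  rw [e1, e2] at h1
  have h2 : (4 : ℝ) ^ 1 ≤ 4 ^ P.Dl (l + 1) := pow_le_pow_right₀ (by norm_num) (P.Dl_pos _)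
  have h3 : 0 ≤ (P.Kl (l + 1) : ℝ) * Real.exp (-(P.δ * P.a * P.Dl l)) := by positivity
  have h4 := mul_le_mul_of_nonneg_right h2 h3
  rw [pow_one] at h4
  linarith

theorem p_nonneg (l : ℕ) : 0 ≤ P.p l := by
  unfold p
  positivity

theorem Kp_le {l : ℕ} (hl : l + 1 ≤ P.J) : (P.Kl (l + 1) : ℝ) * P.p l ≤ 1 / 2 := by
  have h1 := P.hK' hl
  have h2 : Real.exp (-(P.δ * P.a * P.Dl (l + 1))) ≤ 1 := by
    rw [Real.exp_le_one_iff]
    have := P.hδ
    have := P.a_pos
    have : 0 ≤ P.δ * P.a * P.Dl (l + 1) := by positivity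
    linarith
  unfold p
  linarith

theorem p_succ {l : ℕ} (hl : l + 1 ≤ P.J) :
    2 * ((P.Kl (l + 1) : ℝ) * P.p l) + Real.exp (-(P.δ * P.a * P.Dl (l + 1))) ≤ P.p (l + 1) := by
  have h1 := P.hK' hl
  have e : 2 * ((P.Kl (l + 1) : ℝ) * P.p l) =
      4 * (P.Kl (l + 1) : ℝ) * Real.exp (-(P.δ * P.a * P.Dl l)) := by
    unfold p
    ring
  rw [e]
  have e2 : P.p (l + 1) = 2 * Real.exp (-(P.δ * P.a * P.Dl (l + 1))) := rfl
  rw [e2]
  linarith

theorem exp_sub_one_le {x : ℝ} (h0 : 0 ≤ x) (h1 : x ≤ 1) : Real.exp x - 1 ≤ x * (1 + x) := by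
  have h := Real.abs_exp_sub_one_sub_id_le (x := x) (by rw [abs_of_nonneg h0]; exact h1)
  have h2 := (le_abs_self _).trans h
  nlinarith

/-- The constants of the mass term. -/
theorem U_le {l : ℕ} (hl : l + 1 ≤ P.J) :
    Real.exp (Ens.Ac P l * P.a) - 1 ≤ P.a * P.α (l + 2) := by
  have ha := P.a_pos
  have hδ := P.hδ
  have hA : Ens.Ac P l ≤ (1 + P.δ) ^ (2 * l + 3) := by
    unfold Ens.Ac α
    have h1 : 1 + 2 / (P.r : ℝ) ≤ 1 + P.δ := by linarith [P.hrδ]
    calc (1 + 2 / (P.r : ℝ)) * (1 + P.δ) ^ (2 * (l + 1))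
        ≤ (1 + P.δ) * (1 + P.δ) ^ (2 * (l + 1)) :=
          mul_le_mul_of_nonneg_right h1 (by positivity)
      _ = (1 + P.δ) ^ (2 * l + 3) := by ring
  have hA2 : Ens.Ac P l ≤ 2 :=
    (hA.trans (pow_le_pow_right₀ (by linarith) (by omega))).trans P.hα
  have hA0 := Ens.Ac_ge_one (P := P) (l := l)
  have hAa : Ens.Ac P l * P.a ≤ P.δ := by
    have : P.δ = 2 * P.a := by
      unfold a
      ring
    rw [this]
    nlinarith
  have h1 := exp_sub_one_le (x := Ens.Ac P l * P.a) (by positivity)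
    (hAa.trans (by linarith [P.δ_le]))
  refine h1.trans ?_
  calc Ens.Ac P l * P.a * (1 + Ens.Ac P l * P.a)
      ≤ Ens.Ac P l * P.a * (1 + P.δ) :=
        mul_le_mul_of_nonneg_left (by linarith) (by positivity)
    _ = P.a * (Ens.Ac P l * (1 + P.δ)) := by ring
    _ ≤ P.a * ((1 + P.δ) ^ (2 * l + 3) * (1 + P.δ)) := by
        refine mul_le_mul_of_nonneg_left ?_ ha.le
        exact mul_le_mul_of_nonneg_right hA (by linarith)
    _ = P.a * P.α (l + 2) := by
        unfold α
        ring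

theorem ep_le {l : ℕ} (hl : l + 1 ≤ P.J) :
    Ens.ep P l ≤ (1 + P.δ) * P.κ (l + 1) * (P.a * P.Dl (l + 1)) +
      P.δ * P.a * P.Dl (l + 1) := by
  have ha := P.a_pos
  have hδ := P.hδ
  have hr := P.r_pos
  have hs := P.s_pos
  have hsr := P.sr_ge
  have e1 : (P.Dl l : ℝ) / P.s = P.Dl (l + 1) := by
    rw [P.Dl_succ hl]
    push_cast
    field_simp
  have hlog : 0 ≤ Real.log (P.s * P.r) := Real.log_nonneg (by linarith)
  have h1 : P.a * P.α (l + 1) * P.q ≤ P.δ := by
    have h2 := P.α_le_two (l := l + 1) (by omega)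
    have h3 := P.q_le
    have h4 := P.q_pos
    have h5 : P.δ = 2 * P.a := by
      unfold a
      ring
    have h6 := P.α_ge_one (l + 1)
    calc P.a * P.α (l + 1) * P.q ≤ P.a * P.α (l + 1) * 1 :=
          mul_le_mul_of_nonneg_left P.q_le_one (by positivity)
      _ ≤ P.δ := by rw [h5]; nlinarith
  have h2 : Real.log (P.s * P.r) / P.s ≤ Real.log (P.s * P.r) := by
    rw [div_le_iff₀ hs]
    nlinarith [P.three_le_s]
  have h3 : 1 + 2 / (P.r : ℝ) ≤ 2 := by linarith [P.hrδ, P.δ_le]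
  have h3' : 1 + 2 / (P.r : ℝ) ≤ 1 + P.δ := by linarith [P.hrδ]
  have h0 : 0 ≤ 2 / (P.r : ℝ) := by positivity
  have h4 : (1 + 2 / (P.r : ℝ)) * (P.a * P.α (l + 1) * P.q + Real.log (P.s * P.r) / P.s) ≤
      2 * (P.δ + Real.log (P.s * P.r)) := by
    have h6 := P.α_ge_one (l + 1)
    have h7 := P.q_pos
    refine mul_le_mul h3 (by linarith) ?_ (by norm_num)
    positivity
  have h5 : P.δ * (P.δ / 2) * P.D ≤ P.δ * P.a * P.Dl (l + 1) := by
    have h6 : (P.D : ℝ) ≤ P.Dl (l + 1) := by exact_mod_cast P.D_le_Dl (l + 1)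
    unfold a
    exact mul_le_mul_of_nonneg_left h6 (by positivity)
  have h7 : (1 + 2 / (P.r : ℝ)) * (P.a * P.κ (l + 1) * P.Dl (l + 1)) ≤
      (1 + P.δ) * P.κ (l + 1) * (P.a * P.Dl (l + 1)) := by
    have h8 := P.κ_nonneg (l + 1)
    have h9 : 0 ≤ P.a * P.κ (l + 1) * P.Dl (l + 1) := by positivity
    nlinarith [mul_le_mul_of_nonneg_right h3' h9]
  unfold Ens.ep
  rw [e1]
  have e2 : (1 + 2 / (P.r : ℝ)) * (P.a * P.α (l + 1) * P.q + P.a * P.κ (l + 1) * P.Dl (l + 1) +
      Real.log (P.s * P.r) / P.s) =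
      (1 + 2 / (P.r : ℝ)) * (P.a * P.α (l + 1) * P.q + Real.log (P.s * P.r) / P.s) +
      (1 + 2 / (P.r : ℝ)) * (P.a * P.κ (l + 1) * P.Dl (l + 1)) := by ring
  rw [e2]
  linarith [P.hD1]

theorem κ_succ (l : ℕ) : P.κ (l + 1) = (1 + P.δ) * P.κ l + 3 * P.δ := by
  unfold κ
  ring

end Par

namespace Ens

variable {P : Par} {l : ℕ} (E : Ens P l)

theorem cardN' (hl : l + 1 ≤ P.J) : Fintype.card (E.N × Fin P.r) ≤ P.nn := by
  rw [Fintype.card_prod, Fintype.card_fin]
  calc Fintype.card E.N * P.r ≤ P.D * P.s ^ P.J * P.r ^ l * P.r :=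
        Nat.mul_le_mul_right _ E.cardN
    _ = P.D * P.s ^ P.J * P.r ^ (l + 1) := by ring
    _ ≤ P.nn := by
        unfold Par.nn
        exact Nat.mul_le_mul_left _ (Nat.pow_le_pow_right (by have := P.hr; omega) hl)

/-- Good families of children. -/
def Good (h : Fin (P.Kl (l + 1)) → (E.N → Fin P.r) × E.G) : Prop :=
  (∀ ω, (E.excSet h ω).card ≤ P.m) ∧
    ∀ T : Finset (E.N × Fin P.r), Set.InjOn Prod.fst (T : Set (E.N × Fin P.r)) →
      T.card ≤ 2 * P.Dl (l + 1) → ∃ b, ∀ x ∈ T, (h b).1 x.1 = x.2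

open scoped Classical in
/-- At least half of the families of children are good. -/
theorem card_good (hl : l + 1 ≤ P.J) :
    (Fintype.card ((E.N → Fin P.r) × E.G) : ℝ) ^ (P.Kl (l + 1)) ≤
      2 * Fintype.card {h : Fin (P.Kl (l + 1)) → (E.N → Fin P.r) × E.G // E.Good h} := by
  classical
  have hr0 : 0 < P.r := by have := P.hr; omega
  have : Nonempty (Fin P.r) := ⟨⟨0, hr0⟩⟩
  set Y := (E.N → Fin P.r) × E.G with hY
  set K := P.Kl (l + 1) with hK
  have hYpos : (0 : ℝ) < Fintype.card Y := by exact_mod_cast Fintype.card_pos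
  have hn := E.cardN' hl
  -- families violating the static condition
  set B1 : Finset (Fin K → Y) := univ.filter fun h => ∃ ω, P.m + 1 ≤ (E.excSet h ω).card with hB1
  set B2 : Finset (Fin K → Y) := univ.filter fun h => ∃ T : Finset (E.N × Fin P.r),
    (Set.InjOn Prod.fst (T : Set (E.N × Fin P.r)) ∧ T.card ≤ 2 * P.Dl (l + 1)) ∧
      ∀ b, ¬ ∀ x ∈ T, (h b).1 x.1 = x.2 with hB2
  have hcover : (univ : Finset (Fin K → Y)) ⊆ (univ.filter fun h => E.Good h) ∪ (B1 ∪ B2) := by
    intro h _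
    by_cases hg : E.Good h
    · exact Finset.mem_union_left _ (Finset.mem_filter.2 ⟨Finset.mem_univ _, hg⟩)
    · refine Finset.mem_union_right _ ?_
      unfold Good at hg
      rw [not_and_or] at hg
      rcases hg with hg | hg
      · push Not at hg
        obtain ⟨ω, hω⟩ := hg
        exact Finset.mem_union_left _ (Finset.mem_filter.2 ⟨Finset.mem_univ _, ω, hω⟩)
      · push Not at hg
        obtain ⟨T, hT1, hT2, hT3⟩ := hg
        refine Finset.mem_union_right _ (Finset.mem_filter.2 ⟨Finset.mem_univ _, T, ⟨hT1, hT2⟩, ?_⟩)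
        intro b hb
        obtain ⟨x, hx1, hx2⟩ := hT3 b
        exact hx2 (hb x hx1)
  have hB1c : (B1.card : ℝ) ≤ (Fintype.card Y : ℝ) ^ K / 4 := by
    have h1 : B1 ⊆ univ.biUnion fun ω : E.N × Fin P.r → Fin (P.J + 2) =>
        univ.filter fun h : Fin K → Y => P.m + 1 ≤ (E.excSet h ω).card := by
      intro h hh
      obtain ⟨ω, hω⟩ := (Finset.mem_filter.1 hh).2
      exact Finset.mem_biUnion.2 ⟨ω, Finset.mem_univ _,
        Finset.mem_filter.2 ⟨Finset.mem_univ _, hω⟩⟩
    have h2 : (B1.card : ℝ) ≤ ∑ ω : E.N × Fin P.r → Fin (P.J + 2),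
        ((univ.filter fun h : Fin K → Y => P.m + 1 ≤ (E.excSet h ω).card).card : ℝ) := by
      exact_mod_cast (Finset.card_le_card h1).trans Finset.card_biUnion_le
    have h3 : ∀ ω : E.N × Fin P.r → Fin (P.J + 2),
        ((univ.filter fun h : Fin K → Y => P.m + 1 ≤ (E.excSet h ω).card).card : ℝ) *
          2 ^ (P.m + 1) ≤ 2 * (Fintype.card Y : ℝ) ^ K := by
      intro ω
      have h4 := card_many_le (K := K) (fun y : Y => E.thr ω < E.H y.2 (E.sub ω y.1))
        (p := P.p l) (E.rand ω) P.m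
      refine h4.trans (mul_le_mul_of_nonneg_right ?_ (by positivity))
      have h5 : (1 + P.p l) ^ K ≤ Real.exp (P.p l) ^ K :=
        pow_le_pow_left₀ (by linarith [P.p_nonneg l])
          (by linarith [Real.add_one_le_exp (P.p l)]) K
      refine h5.trans ?_
      rw [← Real.exp_nat_mul]
      have h6 := P.Kp_le hl
      have h7 : Real.exp ((K : ℝ) * P.p l) ≤ Real.exp (1 / 2) := Real.exp_le_exp.2 h6
      refine h7.trans ?_
      have h8 := Par.exp_sub_one_le (x := 1 / 2) (by norm_num) (by norm_num)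
      linarith
    have h4 : (B1.card : ℝ) * 2 ^ (P.m + 1) ≤
        (P.J + 2 : ℝ) ^ P.nn * (2 * (Fintype.card Y : ℝ) ^ K) := by
      calc (B1.card : ℝ) * 2 ^ (P.m + 1)
          ≤ (∑ ω : E.N × Fin P.r → Fin (P.J + 2),
            ((univ.filter fun h : Fin K → Y => P.m + 1 ≤ (E.excSet h ω).card).card : ℝ)) *
              2 ^ (P.m + 1) := mul_le_mul_of_nonneg_right h2 (by positivity)
        _ = ∑ ω : E.N × Fin P.r → Fin (P.J + 2),
            ((univ.filter fun h : Fin K → Y => P.m + 1 ≤ (E.excSet h ω).card).card : ℝ) *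
              2 ^ (P.m + 1) := Finset.sum_mul _ _ _
        _ ≤ ∑ _ω : E.N × Fin P.r → Fin (P.J + 2), 2 * (Fintype.card Y : ℝ) ^ K :=
            Finset.sum_le_sum fun ω _ => h3 ω
        _ = (P.J + 2 : ℝ) ^ Fintype.card (E.N × Fin P.r) * (2 * (Fintype.card Y : ℝ) ^ K) := by
            rw [Finset.sum_const, nsmul_eq_mul, Finset.card_univ, Fintype.card_fun,
              Fintype.card_fin]
            push_cast
            ring
        _ ≤ (P.J + 2 : ℝ) ^ P.nn * (2 * (Fintype.card Y : ℝ) ^ K) := by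
            refine mul_le_mul_of_nonneg_right ?_ (by positivity)
            refine pow_le_pow_right₀ ?_ hn
            have : (0 : ℝ) ≤ P.J := Nat.cast_nonneg _
            linarith
    have h5 : (8 : ℝ) * (P.J + 2 : ℝ) ^ P.nn ≤ 2 ^ (P.m + 1) := by exact_mod_cast P.hstat
    have h6 : (0 : ℝ) < 2 ^ (P.m + 1) := by positivity
    have h7 : (B1.card : ℝ) * 2 ^ (P.m + 1) ≤
        (Fintype.card Y : ℝ) ^ K / 4 * 2 ^ (P.m + 1) := by
      refine h4.trans ?_
      have h8 : (0 : ℝ) ≤ (Fintype.card Y : ℝ) ^ K := by positivity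
      nlinarith [mul_le_mul_of_nonneg_right h5 h8]
    exact le_of_mul_le_mul_right h7 h6
  have hB2c : (B2.card : ℝ) ≤ (Fintype.card Y : ℝ) ^ K / 4 := by
    have h1 : B2 ⊆ (univ.filter fun T : Finset (E.N × Fin P.r) =>
        Set.InjOn Prod.fst (T : Set (E.N × Fin P.r)) ∧ T.card ≤ 2 * P.Dl (l + 1)).biUnion
        fun T => univ.filter fun h : Fin K → Y => ∀ b, ¬ ∀ x ∈ T, (h b).1 x.1 = x.2 := by
      intro h hh
      obtain ⟨T, hT1, hT2⟩ := (Finset.mem_filter.1 hh).2
      exact Finset.mem_biUnion.2 ⟨T, Finset.mem_filter.2 ⟨Finset.mem_univ _, hT1⟩,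
        Finset.mem_filter.2 ⟨Finset.mem_univ _, hT2⟩⟩
    have h2 : (B2.card : ℝ) ≤ ∑ T ∈ (univ.filter fun T : Finset (E.N × Fin P.r) =>
        Set.InjOn Prod.fst (T : Set (E.N × Fin P.r)) ∧ T.card ≤ 2 * P.Dl (l + 1)),
        ((univ.filter fun h : Fin K → Y => ∀ b, ¬ ∀ x ∈ T, (h b).1 x.1 = x.2).card : ℝ) := by
      exact_mod_cast (Finset.card_le_card h1).trans Finset.card_biUnion_le
    have h3 : ∀ T ∈ (univ.filter fun T : Finset (E.N × Fin P.r) =>
        Set.InjOn Prod.fst (T : Set (E.N × Fin P.r)) ∧ T.card ≤ 2 * P.Dl (l + 1)),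
        ((univ.filter fun h : Fin K → Y => ∀ b, ¬ ∀ x ∈ T, (h b).1 x.1 = x.2).card : ℝ) ≤
          (1 / 2) ^ (P.nn + 2) * (Fintype.card Y : ℝ) ^ K := by
      intro T hT
      obtain ⟨hT1, hT2⟩ := (Finset.mem_filter.1 hT).2
      have hr1 : (0 : ℝ) < P.r := P.r_pos
      have hrho : ((P.r : ℝ) ^ (2 * P.Dl (l + 1)))⁻¹ * Fintype.card Y ≤
          ((univ.filter fun y : Y => ∀ x ∈ T, y.1 x.1 = x.2).card : ℝ) := by
        have h4 := card_graphs T hT1
        have h5 : (univ.filter fun y : Y => ∀ x ∈ T, y.1 x.1 = x.2) =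
            (univ.filter fun lam : E.N → Fin P.r => ∀ x ∈ T, lam x.1 = x.2) ×ˢ
              (univ : Finset E.G) := by
          ext y
          rw [Finset.mem_filter, Finset.mem_product, Finset.mem_filter]
          exact ⟨fun hy => ⟨⟨Finset.mem_univ _, hy.2⟩, Finset.mem_univ _⟩,
            fun hy => ⟨Finset.mem_univ _, hy.1.2⟩⟩
        have hYc : Fintype.card Y = P.r ^ Fintype.card E.N * Fintype.card E.G := by
          have : Fintype.card Y = Fintype.card ((E.N → Fin P.r) × E.G) := rfl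
          rw [this, Fintype.card_prod, Fintype.card_fun, Fintype.card_fin]
        rw [h5, Finset.card_product, Finset.card_univ, hYc]
        have h6 : ((P.r : ℝ) ^ Fintype.card E.N) ≤
            ((univ.filter fun lam : E.N → Fin P.r => ∀ x ∈ T, lam x.1 = x.2).card : ℝ) *
              (P.r : ℝ) ^ (2 * P.Dl (l + 1)) := by
          have h7 : ((P.r : ℝ) ^ Fintype.card E.N) ≤
            ((univ.filter fun lam : E.N → Fin P.r => ∀ x ∈ T, lam x.1 = x.2).card : ℝ) *
              (P.r : ℝ) ^ T.card := by exact_mod_cast h4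
          refine h7.trans (mul_le_mul_of_nonneg_left ?_ (Nat.cast_nonneg _))
          exact pow_le_pow_right₀ (by linarith [P.two_le_r]) hT2
        rw [inv_mul_le_iff₀ (by positivity)]
        push_cast
        have h8 : (0 : ℝ) ≤ Fintype.card E.G := Nat.cast_nonneg _
        nlinarith [mul_le_mul_of_nonneg_right h6 h8]
      have h4 := card_none_le (K := K) (fun y : Y => ∀ x ∈ T, y.1 x.1 = x.2) hrho
      refine h4.trans (mul_le_mul_of_nonneg_right ?_ (by positivity))
      have h5 : ((P.r : ℝ) ^ (2 * P.Dl (l + 1)))⁻¹ * (K : ℝ) =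
          (P.r : ℝ) ^ (2 * P.Dl (l + 1)) := by
        rw [hK]
        unfold Par.Kl
        push_cast
        have : 4 * P.Dl (l + 1) = 2 * P.Dl (l + 1) + 2 * P.Dl (l + 1) := by ring
        rw [this, pow_add]
        field_simp
      rw [h5]
      have h6 : ((P.nn + 2 : ℕ) : ℝ) ≤ (P.r : ℝ) ^ (2 * P.Dl (l + 1)) := by
        have h7 : P.nn + 2 ≤ P.r ^ (2 * P.Dl (l + 1)) := by
          refine P.hcov.trans (Nat.pow_le_pow_right hr0 ?_)
          have := P.D_le_Dl (l + 1)
          omega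
        exact_mod_cast h7
      calc Real.exp (-(P.r : ℝ) ^ (2 * P.Dl (l + 1))) ≤ Real.exp (-((P.nn + 2 : ℕ) : ℝ)) :=
            Real.exp_le_exp.2 (by linarith)
        _ = Real.exp (-1) ^ (P.nn + 2) := by
            rw [← Real.exp_nat_mul]
            congr 1
            ring
        _ ≤ (1 / 2) ^ (P.nn + 2) := by
            refine pow_le_pow_left₀ (Real.exp_pos _).le ?_ _
            rw [Real.exp_neg, one_div]
            exact inv_anti₀ (by norm_num) (by linarith [Real.add_one_le_exp 1])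
    refine h2.trans ((Finset.sum_le_sum h3).trans ?_)
    rw [Finset.sum_const, nsmul_eq_mul]
    have h4 : ((univ.filter fun T : Finset (E.N × Fin P.r) =>
        Set.InjOn Prod.fst (T : Set (E.N × Fin P.r)) ∧ T.card ≤ 2 * P.Dl (l + 1)).card : ℝ) ≤
        2 ^ P.nn := by
      have h5 : (univ.filter fun T : Finset (E.N × Fin P.r) =>
        Set.InjOn Prod.fst (T : Set (E.N × Fin P.r)) ∧ T.card ≤ 2 * P.Dl (l + 1)).card ≤
        2 ^ P.nn := by
        refine (Finset.card_filter_le _ _).trans ?_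
        rw [Finset.card_univ, Fintype.card_finset]
        exact Nat.pow_le_pow_right (by norm_num) hn
      exact_mod_cast h5
    calc _ ≤ (2 : ℝ) ^ P.nn * ((1 / 2) ^ (P.nn + 2) * (Fintype.card Y : ℝ) ^ K) :=
          mul_le_mul_of_nonneg_right h4 (by positivity)
      _ = (Fintype.card Y : ℝ) ^ K / 4 := by
          rw [pow_add, ← mul_assoc, ← mul_assoc, ← mul_pow]
          norm_num
          ring
  have htot : ((Fintype.card Y : ℝ)) ^ K ≤
      ((univ.filter fun h : Fin K → Y => E.Good h).card : ℝ) + (B1.card + B2.card) := by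
    have h1 := Finset.card_le_card hcover
    have h2 : Fintype.card Y ^ K ≤
        (univ.filter fun h : Fin K → Y => E.Good h).card + (B1.card + B2.card) := by
      rw [Finset.card_univ, Fintype.card_fun, Fintype.card_fin] at h1
      refine h1.trans ((Finset.card_union_le _ _).trans ?_)
      exact Nat.add_le_add_left (Finset.card_union_le _ _) _
    exact_mod_cast h2
  have hsubt : (Fintype.card {h : Fin K → Y // E.Good h} : ℝ) =
      ((univ.filter fun h : Fin K → Y => E.Good h).card : ℝ) := by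
    rw [Fintype.card_subtype]
  rw [hsubt]
  linarith

end Ens

end Pool.Agent.H68.Clock
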