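import Mathlib
import Pool.Agent.H68.Clock.Rand

/-!
The random graph estimate for the next level, and the ensemble of level 0.
-/

namespace Pool.Agent.H68.Clock

open Finset

/-- Counting pairs. -/
theorem card_filter_prod {A B : Type*} [Fintype A] [Fintype B] (R : A × B → Prop)
    [DecidablePred R] :
    (univ.filter R).card = ∑ a : A, (univ.filter fun b : B => R (a, b)).card := by
  rw [Finset.card_filter, Fintype.sum_prod_type]
  exact Finset.sum_congr rfl fun a _ => (Finset.card_filter _ _).symm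

namespace Ens

variable {P : Par} {l : ℕ} (E : Ens P l)

theorem Tm_le (ω : E.N × Fin P.r → Fin (P.J + 2)) :
    E.Tm ω ≤ (l + 2) * Fintype.card (E.N × Fin P.r) := by
  unfold Tm
  calc ∑ x, (l + 2 - (ω x : ℕ)) ≤ ∑ _x : E.N × Fin P.r, (l + 2) :=
        Finset.sum_le_sum fun x _ => Nat.sub_le _ _
    _ = (l + 2) * Fintype.card (E.N × Fin P.r) := by
        rw [Finset.sum_const, smul_eq_mul, Finset.card_univ, mul_comm]

theorem mass_const_le (hl : l + 1 ≤ P.J) (ω : E.N × Fin P.r → Fin (P.J + 2)) :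
    ((E.Tm ω : ℝ) + 1) * (P.m + 1) ≤ Real.exp (P.δ * P.a * P.Dl (l + 1)) := by
  have h1 : E.Tm ω ≤ (P.J + 1) * P.nn :=
    (E.Tm_le ω).trans (Nat.mul_le_mul (by omega) (E.cardN' hl))
  have h2 : (E.Tm ω : ℝ) ≤ (P.J + 1) * (P.D * P.s ^ P.J * P.r ^ P.J) := by
    have : ((E.Tm ω : ℕ) : ℝ) ≤ (((P.J + 1) * P.nn : ℕ) : ℝ) := by exact_mod_cast h1
    unfold Par.nn at this
    push_cast at this
    exact this
  have h3 : ((E.Tm ω : ℝ) + 1) * (P.m + 1) ≤
      ((P.J + 1) * (P.D * P.s ^ P.J * P.r ^ P.J) + 1) * (P.m + 1) := by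
    refine mul_le_mul_of_nonneg_right (by linarith) ?_
    have : (0 : ℝ) ≤ P.m := Nat.cast_nonneg _
    linarith
  refine h3.trans (P.hD2.trans (Real.exp_le_exp.2 ?_))
  have h6 : (P.D : ℝ) ≤ P.Dl (l + 1) := by exact_mod_cast P.D_le_Dl (l + 1)
  have hδ := P.hδ
  unfold Par.a
  exact mul_le_mul_of_nonneg_left h6 (by positivity)

open scoped Classical in
/-- The random graph estimate for the next level. -/
theorem rand_next (hl : l + 1 ≤ P.J) (ω : (E.N × Fin P.r) × Fin P.r → Fin (P.J + 2)) :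
    ((univ.filter fun y : (E.N × Fin P.r → Fin P.r) ×
        {h : Fin (P.Kl (l + 1)) → (E.N → Fin P.r) × E.G // E.Good h} =>
      Real.exp (P.a * (P.α (l + 1 + 1) * ((P.r : ℝ)⁻¹ * ∑ x, P.Rw (l + 1) (ω x)) +
        P.κ (l + 1 + 1) * P.Dl (l + 1))) < E.Hn y.2.1 (fun x => ω (x, y.1 x))).card : ℝ) ≤
      P.p (l + 1) * Fintype.card ((E.N × Fin P.r → Fin P.r) ×
        {h : Fin (P.Kl (l + 1)) → (E.N → Fin P.r) × E.G // E.Good h}) := by
  classical
  have hr0 : 0 < P.r := by have := P.hr; omega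
  have hne : Nonempty (Fin P.r) := ⟨⟨0, hr0⟩⟩
  have ha := P.a_pos
  have hδ := P.hδ
  have hr := P.r_pos
  set S2 := ∑ x, P.Rw (l + 1) (ω x) with hS2
  have hS20 : 0 ≤ S2 := Finset.sum_nonneg fun x _ => P.Rw_nonneg _ _
  set U := Real.exp (Ac P l * P.a) - 1 with hU
  have hU0 : 0 ≤ U := by
    have := Real.one_le_exp (mul_nonneg (by linarith [Ac_ge_one (P := P) (l := l)]) ha.le :
      0 ≤ Ac P l * P.a)
    linarith
  set D' := ((P.Dl (l + 1) : ℕ) : ℝ) with hD'
  set C := Real.exp (U * ((P.r : ℝ)⁻¹ * S2) + P.δ * P.a * D') with hC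
  have hCpos : 0 < C := Real.exp_pos _
  set thr' := Real.exp (P.a * (P.α (l + 1 + 1) * ((P.r : ℝ)⁻¹ * S2) +
    P.κ (l + 1 + 1) * D')) with hthr'
  -- the deterministic inequality between the thresholds
  have hdet : ∀ η : E.N × Fin P.r → Fin (P.J + 2),
      ((E.Tm η : ℝ) + 1) * (P.m + 1) * Real.exp (ep P l) * C ≤ thr' := by
    intro η
    have h1 := E.mass_const_le hl η
    have h2 := P.ep_le hl
    have h3 := P.U_le hl
    have h4 : Real.exp (P.δ * P.a * D') * Real.exp (ep P l) * C ≤ thr' := by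
      rw [hC, ← Real.exp_add, ← Real.exp_add, hthr']
      refine Real.exp_le_exp.2 ?_
      have h5 : U * ((P.r : ℝ)⁻¹ * S2) ≤ P.a * P.α (l + 2) * ((P.r : ℝ)⁻¹ * S2) :=
        mul_le_mul_of_nonneg_right h3 (by positivity)
      have h6 : P.κ (l + 1 + 1) = (1 + P.δ) * P.κ (l + 1) + 3 * P.δ := P.κ_succ (l + 1)
      rw [h6]
      have h7 : P.a * (P.α (l + 1 + 1) * ((P.r : ℝ)⁻¹ * S2) +
          ((1 + P.δ) * P.κ (l + 1) + 3 * P.δ) * D') =
          P.a * P.α (l + 2) * ((P.r : ℝ)⁻¹ * S2) +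
            ((1 + P.δ) * P.κ (l + 1) * (P.a * D') + 3 * (P.δ * P.a * D')) := by ring
      rw [h7]
      linarith
    refine le_trans ?_ h4
    have h5 : 0 ≤ Real.exp (ep P l) * C := by positivity
    nlinarith [mul_le_mul_of_nonneg_right h1 h5]
  set GG := {h : Fin (P.Kl (l + 1)) → (E.N → Fin P.r) × E.G // E.Good h} with hGG
  set Lam := (E.N × Fin P.r → Fin P.r) with hLam
  set FA : Finset (Lam × GG) := univ.filter fun y =>
    ∃ b, E.thr (fun x => ω (x, y.1 x)) < E.H (y.2.1 b).2 (E.sub (fun x => ω (x, y.1 x)) (y.2.1 b).1)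
    with hFA
  set FB : Finset (Lam × GG) := univ.filter fun y => C < E.Xi (fun x => ω (x, y.1 x)) with hFB
  have hsub : (univ.filter fun y : Lam × GG => thr' < E.Hn y.2.1 (fun x => ω (x, y.1 x))) ⊆
      FA ∪ FB := by
    intro y hy
    by_contra hcon
    rw [Finset.mem_union, not_or] at hcon
    obtain ⟨hA, hB⟩ := hcon
    have hA' : E.excSet y.2.1 (fun x => ω (x, y.1 x)) = ∅ := by
      rw [Finset.eq_empty_iff_forall_notMem]
      intro b hb
      exact hA (Finset.mem_filter.2 ⟨Finset.mem_univ _, b, (Finset.mem_filter.1 hb).2⟩)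
    have hB' : E.Xi (fun x => ω (x, y.1 x)) ≤ C := by
      by_contra hc
      exact hB (Finset.mem_filter.2 ⟨Finset.mem_univ _, not_le.1 hc⟩)
    have h1 := (Finset.mem_filter.1 hy).2
    have h2 : E.Hn y.2.1 (fun x => ω (x, y.1 x)) ≤ thr' := by
      unfold Hn
      rw [hA', Finset.sum_empty, zero_add]
      refine le_trans ?_ (hdet (fun x => ω (x, y.1 x)))
      exact mul_le_mul_of_nonneg_left hB' (by positivity)
    exact absurd h1 (not_lt.2 h2)
  have hcardGG := E.card_good hl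
  have hAcard : (FA.card : ℝ) ≤ Fintype.card Lam *
      (2 * ((P.Kl (l + 1) : ℝ) * P.p l) * Fintype.card GG) := by
    have e1 : (FA.card : ℝ) = ∑ lam : Lam, ((univ.filter fun g : GG =>
        ∃ b, E.thr (fun x => ω (x, lam x)) <
          E.H (g.1 b).2 (E.sub (fun x => ω (x, lam x)) (g.1 b).1)).card : ℝ) := by
      rw [hFA, card_filter_prod]
      push_cast
      rfl
    rw [e1]
    have e2 : ∀ lam : Lam, ((univ.filter fun g : GG =>
        ∃ b, E.thr (fun x => ω (x, lam x)) <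
          E.H (g.1 b).2 (E.sub (fun x => ω (x, lam x)) (g.1 b).1)).card : ℝ) ≤
        2 * ((P.Kl (l + 1) : ℝ) * P.p l) * Fintype.card GG := by
      intro lam
      have h1 := card_exists_le (K := P.Kl (l + 1))
        (fun y : (E.N → Fin P.r) × E.G => E.thr (fun x => ω (x, lam x)) <
          E.H y.2 (E.sub (fun x => ω (x, lam x)) y.1)) (p := P.p l) (E.rand (fun x => ω (x, lam x)))
      have h2 : ((univ.filter fun g : GG =>
          ∃ b, E.thr (fun x => ω (x, lam x)) <
            E.H (g.1 b).2 (E.sub (fun x => ω (x, lam x)) (g.1 b).1)).card : ℝ) ≤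
          ((univ.filter fun h : Fin (P.Kl (l + 1)) → (E.N → Fin P.r) × E.G =>
            ∃ b, E.thr (fun x => ω (x, lam x)) <
              E.H (h b).2 (E.sub (fun x => ω (x, lam x)) (h b).1)).card : ℝ) := by
        have h3 : (univ.filter fun g : GG =>
          ∃ b, E.thr (fun x => ω (x, lam x)) <
            E.H (g.1 b).2 (E.sub (fun x => ω (x, lam x)) (g.1 b).1)).card ≤
          (univ.filter fun h : Fin (P.Kl (l + 1)) → (E.N → Fin P.r) × E.G =>
            ∃ b, E.thr (fun x => ω (x, lam x)) <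
              E.H (h b).2 (E.sub (fun x => ω (x, lam x)) (h b).1)).card := by
          refine Finset.card_le_card_of_injOn (fun g => g.1) ?_ ?_
          · intro g hg
            exact Finset.mem_coe.2 (Finset.mem_filter.2 ⟨Finset.mem_univ _,
              (Finset.mem_filter.1 (Finset.mem_coe.1 hg)).2⟩)
          · intro g _ g' _ hgg
            exact Subtype.ext hgg
        exact_mod_cast h3
      refine h2.trans (h1.trans ?_)
      have h4 : 0 ≤ (P.Kl (l + 1) : ℝ) * P.p l := mul_nonneg (Nat.cast_nonneg _) (P.p_nonneg l)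
      have h5 := mul_le_mul_of_nonneg_left hcardGG h4
      linarith
    calc _ ≤ ∑ _lam : Lam, 2 * ((P.Kl (l + 1) : ℝ) * P.p l) * Fintype.card GG :=
          Finset.sum_le_sum fun lam _ => e2 lam
      _ = _ := by rw [Finset.sum_const, nsmul_eq_mul, Finset.card_univ]
  have hBcard : (FB.card : ℝ) ≤ Fintype.card Lam *
      (Real.exp (-(P.δ * P.a * D')) * Fintype.card GG) := by
    have e1 : (FB.card : ℝ) = ((univ.filter fun lam : Lam =>
        C < E.Xi (fun x => ω (x, lam x))).card : ℝ) * Fintype.card GG := by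
      have : FB = (univ.filter fun lam : Lam => C < E.Xi (fun x => ω (x, lam x))) ×ˢ
          (univ : Finset GG) := by
        ext y
        rw [Finset.mem_filter, Finset.mem_product, Finset.mem_filter]
        exact ⟨fun hy => ⟨⟨Finset.mem_univ _, hy.2⟩, Finset.mem_univ _⟩,
          fun hy => ⟨Finset.mem_univ _, hy.1.2⟩⟩
      rw [this, Finset.card_product, Finset.card_univ]
      push_cast
      rfl
    rw [e1, ← mul_assoc]
    refine mul_le_mul_of_nonneg_right ?_ (Nat.cast_nonneg _)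
    have h1 := markov_prod hr0 (fun z : (E.N × Fin P.r) × Fin P.r => P.Rw (l + 1) (ω z) * U)
      (fun z => mul_nonneg (P.Rw_nonneg _ _) hU0) C
    have e2 : (univ.filter fun lam : Lam => C < E.Xi (fun x => ω (x, lam x))) =
        (univ.filter fun lam : E.N × Fin P.r → Fin P.r =>
          C < ∏ i, (1 + P.Rw (l + 1) (ω (i, lam i)) * U)) := rfl
    have e3 : (P.r : ℝ) ^ Fintype.card (E.N × Fin P.r) = Fintype.card Lam := by
      have : Fintype.card Lam = P.r ^ Fintype.card (E.N × Fin P.r) := by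
        have h : Fintype.card Lam = Fintype.card (E.N × Fin P.r → Fin P.r) := rfl
        rw [h, Fintype.card_fun, Fintype.card_fin]
      rw [this]
      push_cast
      rfl
    have e4 : (P.r : ℝ)⁻¹ * ∑ z : (E.N × Fin P.r) × Fin P.r, P.Rw (l + 1) (ω z) * U =
        U * ((P.r : ℝ)⁻¹ * S2) := by
      rw [← Finset.sum_mul]
      ring
    rw [e3, e4] at h1
    rw [e2]
    have h2 : (Fintype.card Lam : ℝ) * Real.exp (U * ((P.r : ℝ)⁻¹ * S2)) =
        (Fintype.card Lam : ℝ) * Real.exp (-(P.δ * P.a * D')) * C := by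
      rw [hC, mul_assoc, ← Real.exp_add]
      congr 2
      ring
    rw [h2] at h1
    exact le_of_mul_le_mul_right h1 hCpos
  have hfinal : ((univ.filter fun y : Lam × GG =>
      thr' < E.Hn y.2.1 (fun x => ω (x, y.1 x))).card : ℝ) ≤ FA.card + FB.card := by
    exact_mod_cast (Finset.card_le_card hsub).trans (Finset.card_union_le _ _)
  have hprod : (Fintype.card (Lam × GG) : ℝ) = Fintype.card Lam * Fintype.card GG := by
    rw [Fintype.card_prod]
    push_cast
    rfl
  rw [hprod]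
  have hp := P.p_succ hl
  have hLG : (0 : ℝ) ≤ Fintype.card Lam * Fintype.card GG := by positivity
  have := mul_le_mul_of_nonneg_right hp hLG
  nlinarith [hfinal, hAcard, hBcard, this]

end Ens

theorem base_rand (P : Par) (ω : Fin (P.D * P.s ^ P.J) × Fin P.r → Fin (P.J + 2)) :
    ((univ.filter fun y : (Fin (P.D * P.s ^ P.J) → Fin P.r) × Unit =>
      Real.exp (P.a * (P.α (0 + 1) * ((P.r : ℝ)⁻¹ * ∑ x, P.Rw 0 (ω x)) +
        P.κ (0 + 1) * P.Dl 0)) <
        Real.exp (P.a * ∑ i, P.Rw 0 (ω (i, y.1 i)))).card : ℝ) ≤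
      P.p 0 * Fintype.card ((Fin (P.D * P.s ^ P.J) → Fin P.r) × Unit) := by
  classical
  have hr0 : 0 < P.r := by have := P.hr; omega
  have ha := P.a_pos
  have hδ := P.hδ
  have hr := P.r_pos
  set S := ∑ x, P.Rw 0 (ω x) with hS
  have hS0 : 0 ≤ S := Finset.sum_nonneg fun x _ => P.Rw_nonneg _ _
  set C := Real.exp (P.a * (P.α (0 + 1) * ((P.r : ℝ)⁻¹ * S) + P.κ (0 + 1) * P.Dl 0)) with hC
  set U := Real.exp P.a - 1 with hU
  have hU0 : 0 ≤ U := by
    have := Real.one_le_exp ha.le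
    linarith
  have h1 := markov_prod hr0 (fun z : Fin (P.D * P.s ^ P.J) × Fin P.r => P.Rw 0 (ω z) * U)
    (fun z => mul_nonneg (P.Rw_nonneg _ _) hU0) C
  have h2 : (univ.filter fun y : (Fin (P.D * P.s ^ P.J) → Fin P.r) × Unit =>
      C < Real.exp (P.a * ∑ i, P.Rw 0 (ω (i, y.1 i)))).card ≤
      (univ.filter fun lam : Fin (P.D * P.s ^ P.J) → Fin P.r =>
        C < ∏ i, (1 + P.Rw 0 (ω (i, lam i)) * U)).card := by
    refine Finset.card_le_card_of_injOn (fun y => y.1) ?_ ?_
    · intro y hy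
      refine Finset.mem_coe.2 (Finset.mem_filter.2 ⟨Finset.mem_univ _, ?_⟩)
      refine lt_of_lt_of_le (Finset.mem_filter.1 (Finset.mem_coe.1 hy)).2 ?_
      rw [Finset.mul_sum, Real.exp_sum]
      refine Finset.prod_le_prod (fun _ _ => (Real.exp_pos _).le) fun i _ => ?_
      have hconv := convexOn_exp.2 (Set.mem_univ 0) (Set.mem_univ P.a)
        (sub_nonneg.2 (P.Rw_le_one 0 (ω (i, y.1 i)))) (P.Rw_nonneg 0 (ω (i, y.1 i))) (by ring)
      simp only [smul_eq_mul, Real.exp_zero, mul_zero, zero_add] at hconv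
      rw [mul_comm P.a]
      refine hconv.trans (le_of_eq ?_)
      rw [hU]
      ring
    · rintro ⟨y1, y2⟩ _ ⟨y1', y2'⟩ _ hyy
      exact Prod.ext hyy rfl
  have e4 : (P.r : ℝ)⁻¹ * ∑ z : Fin (P.D * P.s ^ P.J) × Fin P.r, P.Rw 0 (ω z) * U =
      U * ((P.r : ℝ)⁻¹ * S) := by
    rw [← Finset.sum_mul]
    ring
  rw [e4] at h1
  have hα : U ≤ P.a * P.α 1 := by
    have h3 := Par.exp_sub_one_le (x := P.a) ha.le (by
      unfold Par.a
      linarith [P.δ_le])
    refine h3.trans (mul_le_mul_of_nonneg_left ?_ ha.le)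
    unfold Par.α Par.a
    nlinarith [mul_pos hδ hδ]
  have hκ : P.δ ≤ P.κ 1 := by
    unfold Par.κ
    linarith
  have h3 : (P.r : ℝ) ^ Fintype.card (Fin (P.D * P.s ^ P.J)) *
      Real.exp (U * ((P.r : ℝ)⁻¹ * S)) ≤
      (P.p 0 * (P.r : ℝ) ^ Fintype.card (Fin (P.D * P.s ^ P.J))) * C := by
    have h4 : Real.exp (U * ((P.r : ℝ)⁻¹ * S)) ≤ P.p 0 * C := by
      have h5 : Real.exp (U * ((P.r : ℝ)⁻¹ * S)) ≤ Real.exp (-(P.δ * P.a * P.Dl 0)) * C := by
        rw [hC, ← Real.exp_add]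
        refine Real.exp_le_exp.2 ?_
        have h6 : U * ((P.r : ℝ)⁻¹ * S) ≤ P.a * P.α 1 * ((P.r : ℝ)⁻¹ * S) :=
          mul_le_mul_of_nonneg_right hα (by positivity)
        have h7 : P.δ * (P.a * P.Dl 0) ≤ P.κ 1 * (P.a * P.Dl 0) :=
          mul_le_mul_of_nonneg_right hκ (by positivity)
        simp only [zero_add]
        nlinarith
      have h6 : Real.exp (-(P.δ * P.a * P.Dl 0)) ≤ P.p 0 := by
        unfold Par.p
        linarith [Real.exp_pos (-(P.δ * P.a * P.Dl 0))]
      exact h5.trans (mul_le_mul_of_nonneg_right h6 (Real.exp_pos _).le)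
    have := mul_le_mul_of_nonneg_left h4
      (by positivity : 0 ≤ (P.r : ℝ) ^ Fintype.card (Fin (P.D * P.s ^ P.J)))
    linarith
  have h4 := le_of_mul_le_mul_right (h1.trans h3) (Real.exp_pos _)
  have h5 : (Fintype.card ((Fin (P.D * P.s ^ P.J) → Fin P.r) × Unit) : ℝ) =
      (P.r : ℝ) ^ Fintype.card (Fin (P.D * P.s ^ P.J)) := by
    rw [Fintype.card_prod, Fintype.card_fun, Fintype.card_unit, Fintype.card_fin]
    push_cast
    ring
  rw [h5]
  refine le_trans ?_ h4
  exact_mod_cast h2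

/-- The ensemble of level 0. -/
noncomputable def base (P : Par) : Ens P 0 where
  N := Fin (P.D * P.s ^ P.J)
  pos := id
  fib := by
    intro p
    rw [pow_zero]
    exact Finset.card_pos.2 ⟨p, Finset.mem_filter.2 ⟨Finset.mem_univ _, rfl⟩⟩
  cardN := by simp
  G := Unit
  leaf := fun _ => {univ}
  H := fun _ ω => Real.exp (P.a * ∑ i, P.Rw 0 (ω i))
  mono := by
    intro g ω i st hst
    refine Real.exp_le_exp.2 (mul_le_mul_of_nonneg_left ?_ P.a_pos.le)
    rw [Ens.sum_update_eq (fun st => P.Rw 0 st),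
      ← Finset.add_sum_erase univ (fun i => P.Rw 0 (ω i)) (Finset.mem_univ i), P.Rw_of_gt hst]
    linarith [P.Rw_nonneg 0 (ω i)]
  exc := by
    intro g ω i k h1 h2
    omega
  low := fun g ω => le_rfl
  dom := by
    intro g S hS ω
    rw [Set.mem_singleton_iff] at hS
    subst hS
    refine Real.exp_le_exp.2 (le_of_eq ?_)
    rw [pow_zero, div_one]
    congr 1
    refine Finset.sum_congr rfl fun i _ => ?_
    unfold vl Par.Rw
    by_cases h : (ω i : ℕ) ≤ 0
    · rw [if_pos h, if_pos h]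
      have : (ω i : ℕ) = 0 := by omega
      simp [this]
    · rw [if_neg h, if_neg h]
  rand := base_rand P
  opt := by
    intro g T hT1 hT2 ι _ _ φ hφ f hf
    have h0 : ∀ x, 0 ≤ f x := by
      intro x
      refine le_trans ?_ (hf x univ rfl (Finset.subset_univ T))
      exact Finset.sum_nonneg fun i _ => pow_nonneg (Nat.cast_nonneg _) _
    have h1 : 0 ≤ pE (fun (_ : ι) => wl P.J P.q 0) f := by
      unfold pE
      refine Finset.sum_nonneg fun x _ => mul_nonneg (Finset.prod_nonneg fun i _ => ?_) (h0 x)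
      show 0 ≤ wl P.J P.q 0 (x i)
      simp only [wl]
      split_ifs <;> norm_num
    simpa using h1

end Pool.Agent.H68.Clock
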