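import Mathlib
import Pool.Agent.H68.Clock.Rand2

/-!
The lower bound for the optimal welfare: the step to the next level.
-/

namespace Pool.Agent.H68.Clock

open Finset

section Laws

variable {J : ℕ} {q : ℝ}

theorem bet_nonneg (h0 : 0 < q) (h1 : q ≤ 1 / 2) (l : ℕ) : 0 ≤ bet J q l := by
  unfold bet
  split_ifs
  · positivity
  · refine div_nonneg (sub_nonneg.2 (pow_le_pow_of_le_one h0.le (by linarith) (Nat.le_succ _))) ?_
    exact sub_nonneg.2 (pow_le_one₀ h0.le (by linarith))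

theorem bet_le_one (h0 : 0 < q) (h1 : q ≤ 1 / 2) (l : ℕ) : bet J q l ≤ 1 := by
  unfold bet
  split_ifs
  · exact pow_le_one₀ h0.le (by linarith)
  · have h2 : q ^ (l + 1) < 1 := pow_lt_one₀ h0.le (by linarith) (Nat.succ_ne_zero l)
    rw [div_le_one (by linarith)]
    have h3 : q ^ l ≤ 1 := pow_le_one₀ h0.le (by linarith)
    linarith

theorem bet_ge (h0 : 0 < q) (h1 : q ≤ 1 / 2) (l : ℕ) : q ^ l / 2 ≤ bet J q l := by
  unfold bet
  have h4 : 0 < q ^ l := pow_pos h0 l
  split_ifs with h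
  · rw [← h]
    linarith
  · have h2 : q ^ (l + 1) < 1 := pow_lt_one₀ h0.le (by linarith) (Nat.succ_ne_zero l)
    rw [le_div_iff₀ (by linarith)]
    have h5 : 0 < q ^ (l + 1) := pow_pos h0 _
    have h3 : q ^ (l + 1) = q ^ l * q := pow_succ q l
    nlinarith [mul_pos h4 h5]

theorem wl_nonneg (h0 : 0 < q) (h1 : q ≤ 1 / 2) (l : ℕ) (k : Fin (J + 1)) : 0 ≤ wl J q l k := by
  induction l with
  | zero =>
    simp only [wl]
    split_ifs <;> norm_num
  | succ l ih =>
    simp only [wl]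
    have h2 := bet_nonneg (J := J) h0 h1 (l + 1)
    have h3 := bet_le_one (J := J) h0 h1 (l + 1)
    have h4 : 0 ≤ (1 - bet J q (l + 1)) * wl J q l k := mul_nonneg (by linarith) ih
    split_ifs <;> linarith

theorem wl_of_gt (l : ℕ) (k : Fin (J + 1)) (hk : l < (k : ℕ)) : wl J q l k = 0 := by
  induction l with
  | zero =>
    simp only [wl]
    rw [if_neg (by omega)]
  | succ l ih =>
    simp only [wl]
    rw [if_neg (by omega), ih (by omega)]
    ring

theorem wl_sum (l : ℕ) (hl : l ≤ J) : ∑ k, wl J q l k = 1 := by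
  induction l with
  | zero =>
    simp only [wl]
    rw [Finset.sum_eq_single (0 : Fin (J + 1))]
    · simp
    · intro k _ hk
      rw [if_neg]
      intro h
      exact hk (Fin.ext h)
    · simp
  | succ l ih =>
    simp only [wl]
    rw [Finset.sum_add_distrib, ← Finset.mul_sum, ih (by omega)]
    rw [Finset.sum_eq_single (⟨l + 1, by omega⟩ : Fin (J + 1))]
    · simp
    · intro k _ hk
      rw [if_neg]
      intro h
      exact hk (Fin.ext h)
    · simp

/-- The law at level `l < J` in closed form. -/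
theorem wl_eq (h0 : 0 < q) (h1 : q ≤ 1 / 2) (l : ℕ) (hl : l < J) (k : Fin (J + 1))
    (hk : (k : ℕ) ≤ l) :
    wl J q l k = (q ^ (k : ℕ) - q ^ ((k : ℕ) + 1)) / (1 - q ^ (l + 1)) := by
  have hne : ∀ j : ℕ, 1 - q ^ (j + 1) ≠ 0 := by
    intro j
    have h2 : q ^ (j + 1) < 1 := pow_lt_one₀ h0.le (by linarith) (Nat.succ_ne_zero j)
    linarith
  induction l with
  | zero =>
    have hk0 : (k : ℕ) = 0 := by omega
    simp only [wl]
    rw [if_pos hk0, hk0]
    have := hne 0
    simp only [pow_zero, zero_add] at this ⊢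
    rw [div_self this]
  | succ l ih =>
    simp only [wl]
    have hb : bet J q (l + 1) = (q ^ (l + 1) - q ^ (l + 2)) / (1 - q ^ (l + 2)) := by
      unfold bet
      rw [if_neg (by omega)]
    rcases Nat.lt_or_ge l (k : ℕ) with h | h
    · have hkl : (k : ℕ) = l + 1 := by omega
      rw [if_pos hkl, wl_of_gt l k h, hb, hkl]
      ring
    · rw [if_neg (by omega), ih (by omega) h, hb]
      have h2 := hne l
      have h3 := hne (l + 1)
      have h4 : 1 - q ^ (l + 2) ≠ 0 := h3
      field_simp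
      ring

/-- The law at level `J` is the law of the level. -/
theorem wl_top (h0 : 0 < q) (h1 : q ≤ 1 / 2) (k : Fin (J + 1)) : wl J q J k = lw J q k := by
  rcases Nat.eq_zero_or_pos J with hJ | hJ
  · subst hJ
    simp [wl, lw]
  · obtain ⟨j, rfl⟩ : ∃ j, J = j + 1 := ⟨J - 1, by omega⟩
    simp only [wl]
    have hb : bet (j + 1) q (j + 1) = q ^ (j + 1) := by
      unfold bet
      rw [if_pos rfl]
    unfold lw
    rcases Nat.lt_or_ge j (k : ℕ) with h | h
    · have hkl : (k : ℕ) = j + 1 := by omega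
      rw [if_pos hkl, wl_of_gt j k h, hb, if_pos hkl, hkl]
      ring
    · rw [if_neg (by omega), wl_eq h0 h1 j (by omega) k h, hb, if_neg (by omega)]
      have h2 : q ^ (j + 1) < 1 := pow_lt_one₀ h0.le (by linarith) (Nat.succ_ne_zero j)
      have h3 : 1 - q ^ (j + 1) ≠ 0 := by linarith
      field_simp
      ring

/-- The weights of a biased coin. -/
noncomputable def ber (β : ℝ) (b : Bool) : ℝ := if b then β else 1 - β

theorem ber_sum (β : ℝ) : ∑ b, ber β b = 1 := by
  simp [ber]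

/-- Combination of hits at level `l + 1` with lower levels. -/
def comb (LL : Fin (J + 1)) (p : Bool × Fin (J + 1)) : Fin (J + 1) :=
  if p.1 then max LL p.2 else p.2

theorem le_comb (LL : Fin (J + 1)) (p : Bool × Fin (J + 1)) : p.2 ≤ comb LL p := by
  unfold comb
  split_ifs
  · exact le_max_right _ _
  · exact le_rfl

theorem wl_succ_eq (l : ℕ) (hl : l + 1 ≤ J) (k : Fin (J + 1)) :
    wl J q (l + 1) k = ∑ p : Bool × Fin (J + 1) with comb ⟨l + 1, by omega⟩ p = k,
      ber (bet J q (l + 1)) p.1 * wl J q l p.2 := by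
  set LL : Fin (J + 1) := ⟨l + 1, by omega⟩ with hLL
  rw [Finset.sum_filter, Fintype.sum_prod_type, Fintype.sum_bool]
  have h1 : ∑ x : Fin (J + 1), (if comb LL (true, x) = k then
      ber (bet J q (l + 1)) (true, x).1 * wl J q l (true, x).2 else 0) =
      if (k : ℕ) = l + 1 then bet J q (l + 1) else 0 := by
    have h2 : ∀ x : Fin (J + 1), (if comb LL (true, x) = k then
      ber (bet J q (l + 1)) (true, x).1 * wl J q l (true, x).2 else 0) =
      (if (k : ℕ) = l + 1 then bet J q (l + 1) else 0) * wl J q l x := by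
      intro x
      rcases Nat.lt_or_ge l (x : ℕ) with h | h
      · rw [show wl J q l (true, x).2 = 0 from wl_of_gt l x h]
        simp
      · have h3 : comb LL (true, x) = LL := by
          simp only [comb, if_true]
          refine max_eq_left ?_
          rw [Fin.le_def]
          simp only [hLL]
          omega
        rw [h3]
        by_cases hk : (k : ℕ) = l + 1
        · have : LL = k := Fin.ext (by rw [hk])
          rw [if_pos this, if_pos hk]
          simp [ber]
        · have : LL ≠ k := fun h' => hk (by rw [← h'])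
          rw [if_neg this, if_neg hk, zero_mul]
    simp_rw [h2]
    rw [← Finset.mul_sum, wl_sum l (by omega), mul_one]
  have h2 : ∑ x : Fin (J + 1), (if comb LL (false, x) = k then
      ber (bet J q (l + 1)) (false, x).1 * wl J q l (false, x).2 else 0) =
      (1 - bet J q (l + 1)) * wl J q l k := by
    rw [Finset.sum_eq_single k]
    · simp [comb, ber]
    · intro x _ hx
      simp [comb, hx]
    · simp
  rw [h1, h2]
  simp only [wl]

end Laws

namespace Ens

variable {P : Par} {l : ℕ} (E : Ens P l)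

/-- The leaf sets of a family of children. -/
def leafn {K : ℕ} (h : Fin K → (E.N → Fin P.r) × E.G) : Set (Finset (E.N × Fin P.r)) :=
  {S | ∃ b, ∃ S₀ ∈ E.leaf (h b).2, S = S₀.image fun i => (i, (h b).1 i)}

/-- The block of an item. -/
def blk (x : E.N × Fin P.r) : ℕ := (E.pos x.1 : ℕ) / P.s ^ (l + 1)

theorem M_eq (hl : l + 1 ≤ P.J) : P.D * P.s ^ P.J = P.Dl (l + 1) * P.s ^ (l + 1) := by
  unfold Par.Dl
  rw [mul_assoc, ← pow_add]
  congr 2
  omega

theorem blk_lt (hl : l + 1 ≤ P.J) (x : E.N × Fin P.r) : E.blk x < P.Dl (l + 1) := by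
  unfold blk
  have hs : 0 < P.s := by have := P.hs; omega
  rw [Nat.div_lt_iff_lt_mul (pow_pos hs _), ← M_eq hl]
  exact (E.pos x.1).2

/-- The blocks have many items. -/
theorem blk_card (hl : l + 1 ≤ P.J) (β : ℕ) (hβ : β < P.Dl (l + 1)) :
    (P.s * P.r) ^ (l + 1) ≤ (univ.filter fun x => E.blk x = β).card := by
  classical
  have hs : 0 < P.s := by have := P.hs; omega
  have hB : 0 < P.s ^ (l + 1) := pow_pos hs _
  have hlt : ∀ j < P.s ^ (l + 1), β * P.s ^ (l + 1) + j < P.D * P.s ^ P.J := by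
    intro j hj
    rw [M_eq hl]
    calc β * P.s ^ (l + 1) + j < β * P.s ^ (l + 1) + P.s ^ (l + 1) := by omega
      _ = (β + 1) * P.s ^ (l + 1) := by ring
      _ ≤ P.Dl (l + 1) * P.s ^ (l + 1) := Nat.mul_le_mul_right _ hβ
  have h1 : ((range (P.s ^ (l + 1))).biUnion fun j =>
      univ.filter fun x : E.N × Fin P.r => (E.pos x.1 : ℕ) = β * P.s ^ (l + 1) + j) ⊆
      univ.filter fun x => E.blk x = β := by
    intro x hx
    obtain ⟨j, hj, hx⟩ := Finset.mem_biUnion.1 hx
    rw [Finset.mem_range] at hj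
    rw [Finset.mem_filter] at hx ⊢
    refine ⟨Finset.mem_univ _, ?_⟩
    unfold blk
    rw [hx.2, mul_comm, Nat.mul_add_div hB, Nat.div_eq_of_lt hj, add_zero]
  refine le_trans ?_ (Finset.card_le_card h1)
  rw [Finset.card_biUnion]
  · have h2 : ∀ j ∈ range (P.s ^ (l + 1)), P.r ^ (l + 1) ≤
        (univ.filter fun x : E.N × Fin P.r =>
          (E.pos x.1 : ℕ) = β * P.s ^ (l + 1) + j).card := by
      intro j hj
      rw [Finset.mem_range] at hj
      have h3 : (univ.filter fun x : E.N × Fin P.r =>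
          (E.pos x.1 : ℕ) = β * P.s ^ (l + 1) + j) =
          (univ.filter fun i : E.N => E.pos i = ⟨β * P.s ^ (l + 1) + j, hlt j hj⟩) ×ˢ
            (univ : Finset (Fin P.r)) := by
        ext x
        rw [Finset.mem_filter, Finset.mem_product, Finset.mem_filter]
        constructor
        · intro hx
          exact ⟨⟨Finset.mem_univ _, Fin.ext hx.2⟩, Finset.mem_univ _⟩
        · intro hx
          exact ⟨Finset.mem_univ _, by rw [hx.1.2]⟩
      rw [h3, Finset.card_product, Finset.card_univ, Fintype.card_fin, pow_succ]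
      exact Nat.mul_le_mul_right _ (E.fib _)
    calc (P.s * P.r) ^ (l + 1) = ∑ _j ∈ range (P.s ^ (l + 1)), P.r ^ (l + 1) := by
          rw [Finset.sum_const, Finset.card_range, smul_eq_mul, mul_pow]
      _ ≤ _ := Finset.sum_le_sum h2
  · intro j _ j' _ hjj
    rw [Function.onFun, Finset.disjoint_left]
    intro x hx hx'
    have h1 := (Finset.mem_filter.1 hx).2
    have h2 := (Finset.mem_filter.1 hx').2
    exact hjj (by omega)

/-- The free blocks. -/
def free (T : Finset (E.N × Fin P.r)) : Finset ℕ := (range (P.Dl (l + 1))) \ T.image E.blk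

theorem free_card (T : Finset (E.N × Fin P.r)) (hT : 2 * T.card ≤ P.Dl (l + 1)) :
    (P.Dl (l + 1) : ℝ) / 2 ≤ ((E.free T).card : ℝ) := by
  have h1 : (range (P.Dl (l + 1))).card - (T.image E.blk).card ≤ (E.free T).card :=
    Finset.le_card_sdiff _ _
  rw [Finset.card_range] at h1
  have h2 : (T.image E.blk).card ≤ T.card := Finset.card_image_le
  have h3 : P.Dl (l + 1) ≤ 2 * (E.free T).card := by omega
  have h4 : (P.Dl (l + 1) : ℝ) ≤ 2 * ((E.free T).card : ℝ) := by exact_mod_cast h3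
  linarith

/-- The probability that a block is not hit. -/
theorem prob_not_hit (hl : l + 1 ≤ P.J) {ι : Type} [Fintype ι] [DecidableEq ι]
    (φ : E.N × Fin P.r → ι) (hφ : Function.Injective φ) (β : ℕ) (hβ : β < P.Dl (l + 1)) :
    pE (fun (_ : ι) => ber (bet P.J P.q (l + 1)))
      (fun B => ∏ i ∈ (univ.filter fun x => E.blk x = β).image φ, if B i then (0 : ℝ) else 1) ≤
      2 / 3 := by
  have hq0 := P.q_pos
  have hq1 : P.q ≤ 1 / 2 := P.q_le.trans (by norm_num)
  rw [pE_prod_subset (fun (_ : ι) => ber (bet P.J P.q (l + 1))) (fun _ => ber_sum _)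
    ((univ.filter fun x => E.blk x = β).image φ) (fun _ b => if b then (0 : ℝ) else 1)]
  rw [Finset.prod_const, Finset.card_image_of_injective _ hφ]
  have h1 : ∑ k, ber (bet P.J P.q (l + 1)) k * (if k then (0 : ℝ) else 1) =
      1 - bet P.J P.q (l + 1) := by simp [ber]
  rw [h1]
  have hb := bet_ge (J := P.J) hq0 hq1 (l + 1)
  have hb1 := bet_le_one (J := P.J) hq0 hq1 (l + 1)
  have hc : ((P.s * P.r : ℝ)) ^ (l + 1) ≤ ((univ.filter fun x => E.blk x = β).card : ℝ) := by
    exact_mod_cast E.blk_card hl β hβ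
  set n := (univ.filter fun x => E.blk x = β).card with hn
  have h2 : (1 - bet P.J P.q (l + 1)) ^ n ≤ Real.exp (-bet P.J P.q (l + 1)) ^ n :=
    pow_le_pow_left₀ (by linarith) (by linarith [Real.add_one_le_exp (-bet P.J P.q (l + 1))]) n
  refine h2.trans ?_
  rw [← Real.exp_nat_mul]
  have h3 : (n : ℝ) * -bet P.J P.q (l + 1) ≤ -(1 / 2) := by
    have h4 : (1 : ℝ) / 2 ≤ n * bet P.J P.q (l + 1) := by
      have h5 : ((P.s * P.r : ℝ)) ^ (l + 1) * (P.q ^ (l + 1) / 2) = 1 / 2 := by
        unfold Par.q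
        rw [← mul_div_assoc, ← mul_pow, mul_one_div_cancel, one_pow]
        linarith [P.sr_ge]
      rw [← h5]
      exact mul_le_mul hc hb (by positivity) (Nat.cast_nonneg _)
    linarith
  calc Real.exp ((n : ℝ) * -bet P.J P.q (l + 1)) ≤ Real.exp (-(1 / 2)) := Real.exp_le_exp.2 h3
    _ ≤ 2 / 3 := by
        rw [Real.exp_neg]
        have h6 := Real.add_one_le_exp (1 / 2)
        rw [inv_le_comm₀ (Real.exp_pos _) (by norm_num)]
        linarith

open scoped Classical in
/-- The number of hit free blocks. -/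
noncomputable def hits {ι : Type} (φ : E.N × Fin P.r → ι) (T : Finset (E.N × Fin P.r))
    (B : ι → Bool) : Finset ℕ :=
  (E.free T).filter fun β => ∃ x, E.blk x = β ∧ B (φ x) = true

theorem expect_hits (hl : l + 1 ≤ P.J) {ι : Type} [Fintype ι] [DecidableEq ι]
    (φ : E.N × Fin P.r → ι) (hφ : Function.Injective φ) (T : Finset (E.N × Fin P.r))
    (hT : 2 * T.card ≤ P.Dl (l + 1)) :
    (P.Dl (l + 1) : ℝ) / 6 ≤ pE (fun (_ : ι) => ber (bet P.J P.q (l + 1)))
      (fun B => ((E.hits φ T B).card : ℝ)) := by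
  classical
  have h1 : (fun B : ι → Bool => ((E.hits φ T B).card : ℝ)) =
      fun B => ∑ β ∈ E.free T, (1 - ∏ i ∈ (univ.filter fun x => E.blk x = β).image φ,
        if B i then (0 : ℝ) else 1) := by
    funext B
    unfold hits
    rw [Finset.card_filter]
    push_cast
    refine Finset.sum_congr rfl fun β _ => ?_
    by_cases h : ∃ x, E.blk x = β ∧ B (φ x) = true
    · rw [if_pos h]
      obtain ⟨x, hx1, hx2⟩ := h
      rw [Finset.prod_eq_zero (Finset.mem_image_of_mem φ
        (Finset.mem_filter.2 ⟨Finset.mem_univ x, hx1⟩)) (by rw [if_pos hx2])]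
      ring
    · rw [if_neg h, Finset.prod_eq_one]
      · ring
      · intro i hi
        obtain ⟨x, hx, rfl⟩ := Finset.mem_image.1 hi
        rw [if_neg]
        intro hB
        exact h ⟨x, (Finset.mem_filter.1 hx).2, hB⟩
  rw [h1, pE_sum (E.free T) _ (fun β (B : ι → Bool) =>
    (1 - ∏ i ∈ (univ.filter fun x => E.blk x = β).image φ, if B i then (0 : ℝ) else 1))]
  have h2 : ∀ β ∈ E.free T, (1 : ℝ) / 3 ≤ pE (fun (_ : ι) => ber (bet P.J P.q (l + 1)))
      (fun B => 1 - ∏ i ∈ (univ.filter fun x => E.blk x = β).image φ,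
        if B i then (0 : ℝ) else 1) := by
    intro β hβ
    have hβ' : β < P.Dl (l + 1) := Finset.mem_range.1 (Finset.mem_sdiff.1 hβ).1
    rw [pE_sub (fun (_ : ι) => ber (bet P.J P.q (l + 1))) (fun _ => (1 : ℝ)), pE_const]
    have h3 := E.prob_not_hit hl φ hφ β hβ'
    simp only [ber_sum, Finset.prod_const_one]
    linarith
  calc (P.Dl (l + 1) : ℝ) / 6 = (P.Dl (l + 1) : ℝ) / 2 * (1 / 3) := by ring
    _ ≤ ((E.free T).card : ℝ) * (1 / 3) :=
        mul_le_mul_of_nonneg_right (E.free_card T hT) (by norm_num)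
    _ = ∑ _β ∈ E.free T, (1 : ℝ) / 3 := by rw [Finset.sum_const, nsmul_eq_mul]
    _ ≤ _ := Finset.sum_le_sum h2

/-- The step of the lower bound for fixed hits. -/
theorem opt_fixed (hl : l + 1 ≤ P.J) (h : Fin (P.Kl (l + 1)) → (E.N → Fin P.r) × E.G)
    (hg : E.Good h) (T : Finset (E.N × Fin P.r))
    (hT : Set.InjOn (fun x : E.N × Fin P.r => E.pos x.1) (T : Set (E.N × Fin P.r)))
    (hTc : 2 * T.card ≤ P.Dl (l + 1)) {ι : Type} [Fintype ι] [DecidableEq ι]
    (φ : E.N × Fin P.r → ι) (hφ : Function.Injective φ) (f : (ι → Fin (P.J + 1)) → ℝ)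
    (hf : ∀ x, ∀ S ∈ E.leafn h, T ⊆ S → ∑ i ∈ S \ T, (P.s : ℝ) ^ (x (φ i) : ℕ) ≤ f x)
    (B : ι → Bool) :
    (l : ℝ) * ((P.D : ℝ) * P.s ^ P.J) / 6 + (P.s : ℝ) ^ (l + 1) * (E.hits φ T B).card ≤
      pE (fun _ => wl P.J P.q l) (fun x => f (fun i =>
        comb (⟨l + 1, by omega⟩ : Fin (P.J + 1)) (B i, x i))) := by
  classical
  set LL : Fin (P.J + 1) := ⟨l + 1, by omega⟩ with hLL
  have hs1 : (1 : ℝ) ≤ P.s := by linarith [P.three_le_s]
  have hne : Nonempty (E.N × Fin P.r) := by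
    have h1 := E.blk_card hl 0 (P.Dl_pos (l + 1))
    have h2 : 0 < (P.s * P.r) ^ (l + 1) :=
      pow_pos (Nat.mul_pos (by have := P.hs; omega) (by have := P.hr; omega)) _
    obtain ⟨x, _⟩ := Finset.card_pos.1 (lt_of_lt_of_le h2 h1)
    exact ⟨x⟩
  -- choose one hit item in every hit free block
  have hch : ∀ β ∈ E.hits φ T B, ∃ x, E.blk x = β ∧ B (φ x) = true := fun β hβ =>
    (Finset.mem_filter.1 hβ).2
  choose! ch hch1 hch2 using hch
  set T1 := (E.hits φ T B).image ch with hT1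
  have hT1card : T1.card = (E.hits φ T B).card := by
    refine Finset.card_image_of_injOn ?_
    intro β hβ β' hβ' hbb
    rw [← hch1 β hβ, ← hch1 β' hβ', hbb]
  have hT1mem : ∀ x ∈ T1, E.blk x ∈ E.hits φ T B ∧ ch (E.blk x) = x ∧ B (φ x) = true := by
    intro x hx
    obtain ⟨β, hβ, rfl⟩ := Finset.mem_image.1 hx
    rw [hch1 β hβ]
    exact ⟨hβ, rfl, hch2 β hβ⟩
  have hT1free : ∀ x ∈ T1, ∀ t ∈ T, E.blk t ≠ E.blk x := by
    intro x hx t ht heq
    have h1 := (hT1mem x hx).1
    have h2 := (Finset.mem_sdiff.1 (Finset.mem_filter.1 h1).1).2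
    exact h2 (heq ▸ Finset.mem_image_of_mem _ ht)
  have hblk : ∀ x y : E.N × Fin P.r, E.pos x.1 = E.pos y.1 → E.blk x = E.blk y := by
    intro x y hxy
    unfold blk
    rw [hxy]
  have hinj : Set.InjOn (fun x : E.N × Fin P.r => E.pos x.1)
      ((T ∪ T1 : Finset (E.N × Fin P.r)) : Set (E.N × Fin P.r)) := by
    intro x hx y hy hxy
    rw [Finset.mem_coe, Finset.mem_union] at hx hy
    rcases hx with hx | hx <;> rcases hy with hy | hy
    · exact hT hx hy hxy
    · exact absurd (hblk x y hxy) (hT1free y hy x hx)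
    · exact absurd (hblk x y hxy).symm (hT1free x hx y hy)
    · rw [← (hT1mem x hx).2.1, ← (hT1mem y hy).2.1, hblk x y hxy]
  have hhits : (E.hits φ T B).card ≤ P.Dl (l + 1) := by
    refine (Finset.card_le_card (Finset.filter_subset _ _)).trans ?_
    refine (Finset.card_le_card Finset.sdiff_subset).trans ?_
    rw [Finset.card_range]
  have hUc : (T ∪ T1).card ≤ T.card + P.Dl (l + 1) :=
    (Finset.card_union_le _ _).trans (by rw [hT1card]; omega)
  obtain ⟨b, hb⟩ := hg.2 (T ∪ T1)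
    (fun x hx y hy hxy => hinj hx hy (by simp only; rw [hxy])) (by omega)
  set T' := (T ∪ T1).image Prod.fst with hT'
  have hT'inj : Set.InjOn E.pos (T' : Set E.N) := by
    intro i hi j hj hij
    rw [Finset.mem_coe] at hi hj
    obtain ⟨x, hx, rfl⟩ := Finset.mem_image.1 hi
    obtain ⟨y, hy, rfl⟩ := Finset.mem_image.1 hj
    rw [hinj hx hy hij]
  have hT'c : 2 * T'.card ≤ P.Dl l := by
    have h1 : T'.card ≤ (T ∪ T1).card := Finset.card_image_le
    rw [P.Dl_succ hl]
    have h2 := P.hs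
    have h3 : 3 * P.Dl (l + 1) ≤ P.s * P.Dl (l + 1) := Nat.mul_le_mul_right _ h2
    omega
  have hφ' : Function.Injective (fun i : E.N => φ (i, (h b).1 i)) := by
    intro i j hij
    exact congrArg Prod.fst (hφ hij)
  have key := E.opt (h b).2 T' hT'inj hT'c ι (fun i => φ (i, (h b).1 i)) hφ'
    (fun x => f (fun i => comb LL (B i, x i)) -
      (P.s : ℝ) ^ (l + 1) * (E.hits φ T B).card) ?_
  · rw [pE_sub (fun (_ : ι) => wl P.J P.q l), pE_const] at key
    have h1 : ∏ _i : ι, ∑ k, wl P.J P.q l k = 1 := by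
      rw [wl_sum l (by omega), Finset.prod_const_one]
    rw [h1, one_mul] at key
    linarith
  · intro x S hS hTS
    set lam := (h b).1 with hlam
    set S' := S.image (fun i => (i, lam i)) with hS'
    have hTS' : T ⊆ S' := by
      intro t ht
      have h1 : t.1 ∈ S := hTS (Finset.mem_image_of_mem _ (Finset.mem_union_left _ ht))
      refine Finset.mem_image.2 ⟨t.1, h1, ?_⟩
      exact Prod.ext rfl (hb t (Finset.mem_union_left _ ht))
    have h1 := hf (fun i => comb LL (B i, x i)) S' ⟨b, S, hS, rfl⟩ hTS'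
    have hT1S' : T1 ⊆ S' \ T := by
      intro t ht
      rw [Finset.mem_sdiff]
      refine ⟨Finset.mem_image.2 ⟨t.1, hTS (Finset.mem_image_of_mem _
        (Finset.mem_union_right _ ht)), Prod.ext rfl (hb t (Finset.mem_union_right _ ht))⟩, ?_⟩
      intro htT
      exact hT1free t ht t htT rfl
    set R := (S \ T').image (fun i => (i, lam i)) with hR
    have hRS' : R ⊆ S' \ T := by
      intro t ht
      obtain ⟨i, hi, rfl⟩ := Finset.mem_image.1 ht
      rw [Finset.mem_sdiff] at hi ⊢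
      refine ⟨Finset.mem_image_of_mem _ hi.1, ?_⟩
      intro hiT
      exact hi.2 (Finset.mem_image.2 ⟨_, Finset.mem_union_left _ hiT, rfl⟩)
    have hdisj : Disjoint T1 R := by
      rw [Finset.disjoint_left]
      intro t ht htR
      obtain ⟨i, hi, rfl⟩ := Finset.mem_image.1 htR
      rw [Finset.mem_sdiff] at hi
      exact hi.2 (Finset.mem_image.2 ⟨_, Finset.mem_union_right _ ht, rfl⟩)
    have h2 : ∑ t ∈ T1, (P.s : ℝ) ^ (comb LL (B (φ t), x (φ t)) : ℕ) +
        ∑ t ∈ R, (P.s : ℝ) ^ (comb LL (B (φ t), x (φ t)) : ℕ) ≤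
        ∑ t ∈ S' \ T, (P.s : ℝ) ^ (comb LL (B (φ t), x (φ t)) : ℕ) := by
      rw [← Finset.sum_union hdisj]
      exact Finset.sum_le_sum_of_subset_of_nonneg (Finset.union_subset hT1S' hRS')
        fun t _ _ => by positivity
    have h3 : (P.s : ℝ) ^ (l + 1) * (E.hits φ T B).card ≤
        ∑ t ∈ T1, (P.s : ℝ) ^ (comb LL (B (φ t), x (φ t)) : ℕ) := by
      rw [← hT1card, mul_comm, ← nsmul_eq_mul]
      refine Finset.card_nsmul_le_sum _ _ _ fun t ht => ?_
      refine pow_le_pow_right₀ hs1 ?_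
      rw [(hT1mem t ht).2.2]
      simp only [comb, if_true]
      exact Fin.le_def.1 (le_max_left LL (x (φ t)))
    have h4 : ∑ i ∈ S \ T', (P.s : ℝ) ^ (x (φ (i, lam i)) : ℕ) ≤
        ∑ t ∈ R, (P.s : ℝ) ^ (comb LL (B (φ t), x (φ t)) : ℕ) := by
      rw [hR, Finset.sum_image]
      · refine Finset.sum_le_sum fun i _ => ?_
        refine pow_le_pow_right₀ hs1 ?_
        exact Fin.le_def.1 (le_comb LL (B (φ (i, lam i)), x (φ (i, lam i))))
      · intro i _ j _ hij
        exact congrArg Prod.fst hij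
    linarith

/-- The lower bound for the optimal welfare at the next level. -/
theorem opt_next (hl : l + 1 ≤ P.J) (h : Fin (P.Kl (l + 1)) → (E.N → Fin P.r) × E.G)
    (hg : E.Good h) (T : Finset (E.N × Fin P.r))
    (hT : Set.InjOn (fun x : E.N × Fin P.r => E.pos x.1) (T : Set (E.N × Fin P.r)))
    (hTc : 2 * T.card ≤ P.Dl (l + 1)) {ι : Type} [Fintype ι] [DecidableEq ι]
    (φ : E.N × Fin P.r → ι) (hφ : Function.Injective φ) (f : (ι → Fin (P.J + 1)) → ℝ)
    (hf : ∀ x, ∀ S ∈ E.leafn h, T ⊆ S → ∑ i ∈ S \ T, (P.s : ℝ) ^ (x (φ i) : ℕ) ≤ f x) :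
    ((l + 1 : ℕ) : ℝ) * ((P.D : ℝ) * P.s ^ P.J) / 6 ≤ pE (fun _ => wl P.J P.q (l + 1)) f := by
  classical
  have hq0 := P.q_pos
  have hq1 : P.q ≤ 1 / 2 := P.q_le.trans (by norm_num)
  have h1 : pE (fun (_ : ι) => wl P.J P.q (l + 1)) f =
      pE (fun (_ : ι) => ber (bet P.J P.q (l + 1))) (fun B =>
        pE (fun _ => wl P.J P.q l) (fun x => f (fun i =>
          comb (⟨l + 1, by omega⟩ : Fin (P.J + 1)) (B i, x i)))) := by
    rw [pE_pushforward (fun (_ : ι) (p : Bool × Fin (P.J + 1)) =>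
      ber (bet P.J P.q (l + 1)) p.1 * wl P.J P.q l p.2) (fun _ => wl P.J P.q (l + 1))
      (fun _ => comb (⟨l + 1, by omega⟩ : Fin (P.J + 1)))
      (fun _ k => wl_succ_eq l hl k) f]
    rw [pE_prod_type (fun (_ : ι) => ber (bet P.J P.q (l + 1))) (fun _ => wl P.J P.q l)]
  rw [h1]
  have h2 : pE (fun (_ : ι) => ber (bet P.J P.q (l + 1)))
      (fun B => (l : ℝ) * ((P.D : ℝ) * P.s ^ P.J) / 6 +
        (P.s : ℝ) ^ (l + 1) * (E.hits φ T B).card) ≤
      pE (fun (_ : ι) => ber (bet P.J P.q (l + 1))) (fun B =>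
        pE (fun _ => wl P.J P.q l) (fun x => f (fun i =>
          comb (⟨l + 1, by omega⟩ : Fin (P.J + 1)) (B i, x i)))) := by
    refine pE_mono _ ?_ fun B => E.opt_fixed hl h hg T hT hTc φ hφ f hf B
    intro _ b
    have h3 := bet_nonneg (J := P.J) hq0 hq1 (l + 1)
    have h4 := bet_le_one (J := P.J) hq0 hq1 (l + 1)
    unfold ber
    split_ifs
    · exact h3
    · linarith
  refine le_trans ?_ h2
  rw [pE_add (fun (_ : ι) => ber (bet P.J P.q (l + 1)))
    (fun _ => (l : ℝ) * ((P.D : ℝ) * P.s ^ P.J) / 6), pE_const, pE_mul_left]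
  have h3 := E.expect_hits hl φ hφ T hTc
  have h4 : (P.D : ℝ) * P.s ^ P.J = P.Dl (l + 1) * P.s ^ (l + 1) := by
    have := M_eq (P := P) hl
    exact_mod_cast this
  simp only [ber_sum, Finset.prod_const_one, one_mul]
  have h5 : (0 : ℝ) ≤ (P.s : ℝ) ^ (l + 1) := by positivity
  have h6 := mul_le_mul_of_nonneg_left h3 h5
  rw [h4]
  push_cast
  linarith

end Ens

end Pool.Agent.H68.Clock
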