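import Mathlib
import Pool.Agent.H68.Clock.Opt

/-!
Assembly: the instance without a good clock auction.
-/

namespace Pool.Agent.H68.Clock

open Finset

namespace Ens

variable {P : Par} {l : ℕ}

open scoped Classical in
/-- The ensemble of the next level. -/
noncomputable def next (E : Ens P l) (hl : l + 1 ≤ P.J) : Ens P (l + 1) where
  N := E.N × Fin P.r
  pos := fun x => E.pos x.1
  fib := by
    intro p
    have h3 : (univ.filter fun x : E.N × Fin P.r => E.pos x.1 = p) =
        (univ.filter fun i : E.N => E.pos i = p) ×ˢ (univ : Finset (Fin P.r)) := by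
      ext x
      rw [Finset.mem_filter, Finset.mem_product, Finset.mem_filter]
      exact ⟨fun hx => ⟨⟨Finset.mem_univ _, hx.2⟩, Finset.mem_univ _⟩,
        fun hx => ⟨Finset.mem_univ _, hx.1.2⟩⟩
    rw [h3, Finset.card_product, Finset.card_univ, Fintype.card_fin, pow_succ]
    exact Nat.mul_le_mul_right _ (E.fib _)
  cardN := by
    rw [Fintype.card_prod, Fintype.card_fin]
    calc Fintype.card E.N * P.r ≤ P.D * P.s ^ P.J * P.r ^ l * P.r :=
          Nat.mul_le_mul_right _ E.cardN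
      _ = P.D * P.s ^ P.J * P.r ^ (l + 1) := by ring
  G := {h : Fin (P.Kl (l + 1)) → (E.N → Fin P.r) × E.G // E.Good h}
  nG := by
    have h1 := E.card_good hl
    have hr0 : 0 < P.r := by have := P.hr; omega
    have : Nonempty (Fin P.r) := ⟨⟨0, hr0⟩⟩
    have h2 : (0 : ℝ) < (Fintype.card ((E.N → Fin P.r) × E.G) : ℝ) ^ (P.Kl (l + 1)) := by
      have : (0 : ℝ) < Fintype.card ((E.N → Fin P.r) × E.G) := by exact_mod_cast Fintype.card_pos
      positivity
    have h3 : (0 : ℝ) < (Fintype.card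
      {h : Fin (P.Kl (l + 1)) → (E.N → Fin P.r) × E.G // E.Good h} : ℝ) := by linarith
    have h4 : 0 < Fintype.card {h : Fin (P.Kl (l + 1)) → (E.N → Fin P.r) × E.G // E.Good h} := by
      exact_mod_cast h3
    exact Fintype.card_pos_iff.1 h4
  leaf := fun h => E.leafn h.1
  H := fun h ω => E.Hn h.1 ω
  mono := fun h ω x st hst => E.Hn_mono h.1 h.2.1 ω x st hst
  exc := fun h ω x k h1 h2 => E.Hn_exc hl h.1 h.2.1 ω x k h1 h2
  low := fun h ω => E.Hn_low h.1 ω
  dom := by
    rintro h S ⟨b, S₀, hS₀, rfl⟩ ω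
    refine le_trans (le_of_eq ?_) ((E.Q_dom (h.1 b) ω S₀ hS₀).trans (E.Q_le_Hn h.1 ω b))
    rw [Finset.sum_image]
    · rfl
    · intro i _ j _ hij
      exact congrArg Prod.fst hij
  rand := fun ω => E.rand_next hl ω
  opt := fun h T hT hTc ι _ _ φ hφ f hf => E.opt_next hl h.1 h.2 T hT hTc φ hφ f hf

end Ens

theorem exists_ens (P : Par) (l : ℕ) (hl : l ≤ P.J) : Nonempty (Ens P l) := by
  induction l with
  | zero => exact ⟨base P⟩
  | succ l ih =>
    obtain ⟨E⟩ := ih (by omega)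
    exact ⟨E.next hl⟩

namespace Ens

variable {P : Par} {l : ℕ} (E : Ens P l)

theorem leaf_nonempty (hl : l ≤ P.J) (g : E.G) : (E.leaf g).Nonempty := by
  by_contra hcon
  rw [Set.not_nonempty_iff_eq_empty] at hcon
  have h := E.opt g ∅ (by simp) (by simp) E.N id Function.injective_id (fun _ => -1)
    (fun x S hS => by rw [hcon] at hS; exact absurd hS (Set.notMem_empty S))
  rw [pE_const] at h
  simp only [wl_sum l hl, Finset.prod_const_one, one_mul] at h
  have h2 : (0 : ℝ) ≤ (l : ℝ) * ((P.D : ℝ) * P.s ^ P.J) / 6 := by positivity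
  linarith

end Ens

theorem Dl_top (P : Par) : P.Dl P.J = P.D := by
  unfold Par.Dl
  simp

theorem p_top_lt (P : Par) : P.p P.J < 1 := by
  unfold Par.p
  rw [Dl_top]
  have h1 := P.hD1
  have hδ := P.hδ
  have h2 : (1 : ℝ) / 2 < Real.log (P.s * P.r) := by
    rw [Real.lt_log_iff_exp_lt (by linarith [P.sr_ge])]
    have h3 := Par.exp_sub_one_le (x := 1 / 2) (by norm_num) (by norm_num)
    linarith [P.sr_ge]
  have h4 : 1 < P.δ * P.a * P.D := by
    unfold Par.a
    linarith
  have h5 := Real.add_one_le_exp (P.δ * P.a * P.D)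
  have h6 : (2 : ℝ) < Real.exp (P.δ * P.a * P.D) := by linarith
  rw [Real.exp_neg]
  have h7 : (Real.exp (P.δ * P.a * P.D))⁻¹ < (2 : ℝ)⁻¹ :=
    inv_strictAnti₀ (by norm_num) h6
  linarith

/-- Some member of the top ensemble has a small initial potential. -/
theorem exists_small {P : Par} (E : Ens P P.J) :
    ∃ g, E.H g (fun _ => 0) ≤ Real.exp (3 * P.a * P.D) := by
  have hr0 : 0 < P.r := by have := P.hr; omega
  have hne : Nonempty (Fin P.r) := ⟨⟨0, hr0⟩⟩
  have hr := P.r_pos
  have hs := P.s_pos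
  have hrand := E.rand (fun _ => 0)
  set bad := (univ.filter fun y : (E.N → Fin P.r) × E.G =>
      Real.exp (P.a * (P.α (P.J + 1) * ((P.r : ℝ)⁻¹ * ∑ _x : E.N × Fin P.r, P.Rw P.J 0) +
        P.κ (P.J + 1) * P.Dl P.J)) < E.H y.2 (fun _ => 0)) with hbad
  have hcard : (0 : ℝ) < Fintype.card ((E.N → Fin P.r) × E.G) := by
    exact_mod_cast Fintype.card_pos
  have hlt : (bad.card : ℝ) < Fintype.card ((E.N → Fin P.r) × E.G) := by
    refine lt_of_le_of_lt hrand ?_
    nlinarith [p_top_lt P]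
  have hex : ∃ y, y ∉ bad := by
    by_contra hcon
    push Not at hcon
    have : bad = univ := Finset.eq_univ_iff_forall.2 hcon
    rw [this, Finset.card_univ] at hlt
    exact lt_irrefl _ hlt
  obtain ⟨y, hy⟩ := hex
  refine ⟨y.2, ?_⟩
  have h1 : E.H y.2 (fun _ => 0) ≤
      Real.exp (P.a * (P.α (P.J + 1) * ((P.r : ℝ)⁻¹ * ∑ _x : E.N × Fin P.r, P.Rw P.J 0) +
        P.κ (P.J + 1) * P.Dl P.J)) := by
    by_contra hc
    exact hy (Finset.mem_filter.2 ⟨Finset.mem_univ _, not_le.1 hc⟩)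
  refine h1.trans (Real.exp_le_exp.2 ?_)
  have hRw : P.Rw P.J 0 = P.q ^ P.J := by
    unfold Par.Rw
    simp
  have hN : (Fintype.card E.N : ℝ) ≤ P.D * P.s ^ P.J * P.r ^ P.J := by
    have := E.cardN
    exact_mod_cast this
  have h2 : (P.r : ℝ)⁻¹ * ∑ _x : E.N × Fin P.r, P.Rw P.J 0 ≤ P.D := by
    rw [hRw, Finset.sum_const, Finset.card_univ, Fintype.card_prod, Fintype.card_fin,
      nsmul_eq_mul]
    push_cast
    have h3 : (P.r : ℝ)⁻¹ * ((Fintype.card E.N : ℝ) * P.r * P.q ^ P.J) =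
        Fintype.card E.N * P.q ^ P.J := by
      field_simp
    rw [h3]
    calc (Fintype.card E.N : ℝ) * P.q ^ P.J ≤ (P.D * P.s ^ P.J * P.r ^ P.J) * P.q ^ P.J :=
          mul_le_mul_of_nonneg_right hN (pow_nonneg P.q_pos.le _)
      _ = P.D * ((P.s * P.r * P.q) ^ P.J) := by
          rw [mul_pow, mul_pow]
          ring
      _ = P.D := by
          have : (P.s * P.r * P.q : ℝ) = 1 := by
            unfold Par.q
            rw [mul_one_div_cancel]
            linarith [P.sr_ge]
          rw [this, one_pow, mul_one]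
  have h3 : 0 ≤ (P.r : ℝ)⁻¹ * ∑ _x : E.N × Fin P.r, P.Rw P.J 0 :=
    mul_nonneg (inv_nonneg.2 hr.le) (Finset.sum_nonneg fun _ _ => P.Rw_nonneg _ _)
  have h4 := P.α_le_two (l := P.J + 1) le_rfl
  have h5 : P.κ (P.J + 1) ≤ 1 := P.hκ
  rw [Dl_top]
  have hD0 : (0 : ℝ) ≤ P.D := Nat.cast_nonneg _
  have h6 : P.α (P.J + 1) * ((P.r : ℝ)⁻¹ * ∑ _x : E.N × Fin P.r, P.Rw P.J 0) ≤ 2 * P.D :=
    mul_le_mul h4 h2 h3 (by norm_num)
  have h7 : P.κ (P.J + 1) * P.D ≤ 1 * P.D := mul_le_mul_of_nonneg_right h5 hD0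
  have h8 := mul_le_mul_of_nonneg_left (add_le_add h6 h7) P.a_pos.le
  linarith

theorem tail_le (P : Par) (j : ℕ) :
    ∑ k : Fin (P.J + 1), (if j ≤ (k : ℕ) then lw P.J P.q k else 0) * (P.s : ℝ) ^ (k : ℕ) ≤
      2 * (P.s : ℝ) ^ j * P.q ^ j := by
  have hq := P.q_pos
  have hs := P.s_pos
  set ρ := P.q * P.s with hρ
  have hρ0 : 0 < ρ := mul_pos hq hs
  have hρ1 : ρ ≤ 1 / 2 := by
    rw [hρ]
    unfold Par.q
    have h1 : 1 / ((P.s : ℝ) * P.r) * P.s = 1 / P.r := by
      have := P.r_pos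
      field_simp
    rw [h1]
    exact one_div_le_one_div_of_le (by norm_num) P.two_le_r
  have h1 : ∀ k : Fin (P.J + 1), (if j ≤ (k : ℕ) then lw P.J P.q k else 0) * (P.s : ℝ) ^ (k : ℕ) ≤
      (fun k : ℕ => if j ≤ k then ρ ^ k else 0) (k : ℕ) := by
    intro k
    simp only
    split_ifs with h
    · rw [hρ, mul_pow]
      refine mul_le_mul_of_nonneg_right ?_ (by positivity)
      unfold lw
      split_ifs
      · simp
      · have : 0 ≤ P.q ^ ((k : ℕ) + 1) := by positivity
        linarith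
    · simp
  refine (Finset.sum_le_sum fun k _ => h1 k).trans ?_
  rw [Fin.sum_univ_eq_sum_range (fun k : ℕ => if j ≤ k then ρ ^ k else 0) (P.J + 1)]
  have h2 : ∀ m, ∑ k ∈ range m, (if j ≤ k then ρ ^ k else 0) ≤ 2 * ρ ^ j := by
    intro m
    rcases Nat.lt_or_ge m j with hm | hm
    · have : ∑ k ∈ range m, (if j ≤ k then ρ ^ k else 0) = 0 := by
        refine Finset.sum_eq_zero fun k hk => ?_
        have := Finset.mem_range.1 hk
        rw [if_neg (by omega)]
      rw [this]
      positivity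
    · have h3 : ∑ k ∈ range m, (if j ≤ k then ρ ^ k else 0) ≤ 2 * ρ ^ j - 2 * ρ ^ m := by
        induction m, hm using Nat.le_induction with
        | base =>
          have : ∑ k ∈ range j, (if j ≤ k then ρ ^ k else 0) = 0 := by
            refine Finset.sum_eq_zero fun k hk => ?_
            have := Finset.mem_range.1 hk
            rw [if_neg (by omega)]
          rw [this]
          linarith
        | succ m hm ih =>
          rw [Finset.sum_range_succ, if_pos hm]
          have h4 : ρ ^ (m + 1) = ρ ^ m * ρ := pow_succ ρ m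
          have h5 : 0 < ρ ^ m := by positivity
          nlinarith
      have h4 : 0 ≤ ρ ^ m := by positivity
      linarith
  refine (h2 (P.J + 1)).trans (le_of_eq ?_)
  rw [hρ, mul_pow]
  ring

theorem optWelfare_ge {n : ℕ} (F : Set (Finset (Fin n))) (v : Fin n → ℝ) (S : Finset (Fin n))
    (hS : S ∈ F) : ∑ i ∈ S, v i ≤ optWelfare F v := by
  unfold optWelfare
  exact le_csSup ((Set.toFinite _).bddAbove) ⟨S, hS, rfl⟩

theorem two_point_log {q x0 x1 x2 : ℝ} (hq0 : 0 ≤ q) (hq1 : q ≤ 1) (hx1 : 0 < x1)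
    (hx2 : 0 < x2) (hx : q * x1 + (1 - q) * x2 ≤ x0) :
    q * Real.log x1 + (1 - q) * Real.log x2 ≤ Real.log x0 := by
  have h1q : 0 ≤ 1 - q := by linarith
  have hA : 0 < q * x1 + (1 - q) * x2 := by
    rcases hq0.eq_or_lt with h | h
    · rw [← h]
      simpa using hx2
    · have := mul_pos h hx1
      have := mul_nonneg h1q hx2.le
      linarith
  have h := strictConcaveOn_log_Ioi.concaveOn.2 (Set.mem_Ioi.2 hx1) (Set.mem_Ioi.2 hx2) hq0 h1q
    (by ring)
  simp only [smul_eq_mul] at h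
  exact h.trans (Real.log_le_log hA hx)

/-- The instance: bounded welfare of all clock auctions, large optimal welfare. -/
theorem exists_instance (P : Par) : ∃ (n : ℕ) (F : Set (Finset (Fin n))),
    (∅ ∈ F ∧ ∀ S ∈ F, ∀ T ⊆ S, T ∈ F) ∧
    (∀ A : ClockAuction F, pE (fun _ => lw P.J P.q)
      (fun x : Fin n → Fin (P.J + 1) => A.welfare (val (P.s : ℝ) x)) ≤
        6 * ((P.D : ℝ) * P.s ^ P.J)) ∧
    (P.J : ℝ) * ((P.D : ℝ) * P.s ^ P.J) / 6 ≤ pE (fun _ => lw P.J P.q)
      (fun x : Fin n → Fin (P.J + 1) => optWelfare F (val (P.s : ℝ) x)) := by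
  classical
  obtain ⟨E⟩ := exists_ens P P.J le_rfl
  obtain ⟨g, hg⟩ := exists_small E
  have hq0 := P.q_pos
  have hq1 := P.q_le_one
  have hs := P.s_pos
  have ha := P.a_pos
  set n := Fintype.card E.N with hn
  let e : E.N ≃ Fin n := Fintype.equivFin E.N
  refine ⟨n, {S | ∃ L ∈ E.leaf g, S ⊆ L.map e.toEmbedding}, ⟨?_, ?_⟩, ?_, ?_⟩
  · obtain ⟨L, hL⟩ := E.leaf_nonempty le_rfl g
    exact ⟨L, hL, Finset.empty_subset _⟩
  · rintro S ⟨L, hL, hSL⟩ T hTS
    exact ⟨L, hL, hTS.trans hSL⟩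
  · intro A
    set c : ℝ := 2 * (P.s : ℝ) ^ P.J / P.a with hc
    have hc0 : 0 ≤ c := by positivity
    have hcomp : ∀ (ω : Fin n → Fin (P.J + 2)) (j : Fin n) (st : Fin (P.J + 2)),
        (fun i => Function.update ω j st (e i)) =
          Function.update (fun i => ω (e i)) (e.symm j) st := by
      intro ω j st
      funext i
      by_cases hi : e i = j
      · subst hi
        simp
      · rw [Function.update_of_ne hi, Function.update_of_ne]
        intro h
        exact hi (by rw [h, Equiv.apply_symm_apply])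
    have key := welfare_le_potential (s := (P.s : ℝ)) (q := P.q) (J := P.J)
      (by linarith [P.three_le_s]) hq0.le hq1 (fun j _ => tail_le P j) A
      (fun ω => c * Real.log (E.H g (fun i => ω (e i)))) ?_ ?_ ?_ ?_
    · refine key.trans ?_
      have h1 : Real.log (E.H g (fun _ => 0)) ≤ 3 * P.a * P.D := by
        rw [Real.log_le_iff_le_exp (E.H_pos g _)]
        exact hg
      have h2 := mul_le_mul_of_nonneg_left h1 hc0
      refine h2.trans (le_of_eq ?_)
      rw [hc]
      field_simp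
      ring
    · intro ω
      exact mul_nonneg hc0 (Real.log_nonneg (E.H_ge_one g _))
    · intro ω j k h1 h2
      simp only [hcomp]
      have h3 : (((fun i => ω (e i)) (e.symm j) : Fin (P.J + 2)) : ℕ) + 1 = k := by
        simpa using h1
      have h4 := two_point_log hq0.le hq1 (E.H_pos g _) (E.H_pos g _)
        (E.exc g (fun i => ω (e i)) (e.symm j) k h3 h2)
      have h5 := mul_le_mul_of_nonneg_left h4 hc0
      linarith
    · intro ω j
      simp only [hcomp]
      refine mul_le_mul_of_nonneg_left ?_ hc0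
      refine Real.log_le_log (E.H_pos g _) ?_
      exact E.mono g _ _ _ (by simp)
    · rintro S ⟨L, hL, hSL⟩ ω hω1 hω2
      have h1 := E.dom g L hL (fun i => ω (e i))
      have h2 : P.a / (P.s : ℝ) ^ P.J * ∑ i ∈ L, vl P.s P.J (ω (e i)) ≤
          Real.log (E.H g (fun i => ω (e i))) := by
        rw [Real.le_log_iff_exp_le (E.H_pos g _)]
        exact h1
      have h3 : ∑ i ∈ S, (P.s : ℝ) ^ (ω i : ℕ) ≤ ∑ i ∈ L, vl P.s P.J (ω (e i)) := by
        have h4 : ∑ i ∈ L, vl P.s P.J (ω (e i)) =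
            ∑ j ∈ L.map e.toEmbedding, vl P.s P.J (ω j) := by
          rw [Finset.sum_map]
          rfl
        rw [h4]
        calc ∑ i ∈ S, (P.s : ℝ) ^ (ω i : ℕ) = ∑ i ∈ S, vl P.s P.J (ω i) := by
              refine Finset.sum_congr rfl fun i hi => ?_
              unfold vl
              rw [if_pos (hω1 i hi)]
          _ ≤ _ := by
              refine Finset.sum_le_sum_of_subset_of_nonneg hSL fun i _ _ => ?_
              unfold vl
              split_ifs <;> positivity
      have h5 : ∑ i ∈ S, 2 * (P.s : ℝ) ^ (ω i : ℕ) = 2 * ∑ i ∈ S, (P.s : ℝ) ^ (ω i : ℕ) := by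
        rw [Finset.mul_sum]
      rw [h5]
      have h6 := mul_le_mul_of_nonneg_left h2 hc0
      have h7 : c * (P.a / (P.s : ℝ) ^ P.J * ∑ i ∈ L, vl P.s P.J (ω (e i))) =
          2 * ∑ i ∈ L, vl P.s P.J (ω (e i)) := by
        rw [hc]
        field_simp
      rw [h7] at h6
      linarith
  · have h := E.opt g ∅ (by simp) (by simp) (Fin n) e e.injective
      (fun x => optWelfare {S | ∃ L ∈ E.leaf g, S ⊆ L.map e.toEmbedding} (val (P.s : ℝ) x)) ?_
    · have h1 : (fun (_ : Fin n) => wl P.J P.q P.J) = fun _ => lw P.J P.q := by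
        funext _ k
        exact wl_top hq0 (P.q_le.trans (by norm_num)) k
      rw [h1] at h
      exact h
    · intro x S hS _
      rw [Finset.sdiff_empty]
      have h1 := optWelfare_ge {S | ∃ L ∈ E.leaf g, S ⊆ L.map e.toEmbedding} (val (P.s : ℝ) x)
        (S.map e.toEmbedding) ⟨S, hS, Finset.Subset.refl _⟩
      rw [Finset.sum_map] at h1
      exact h1

end Pool.Agent.H68.Clock
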