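import Mathlib
import Pool.Agent.H68.Clock.Main

/-!
Existence of parameters.
-/

namespace Pool.Agent.H68.Clock

open Finset

theorem exists_par (J : ℕ) (hJ : 1 ≤ J) : ∃ P : Par, P.J = J := by
  have hJ' : (1 : ℝ) ≤ J := by exact_mod_cast hJ
  have hJ0 : (0 : ℝ) < J := by linarith
  set δ : ℝ := 1 / (8 * J) with hδ
  have hδ0 : 0 < δ := by positivity
  set r : ℕ := 16 * J with hr
  have hr1 : (1 : ℝ) ≤ r := by
    rw [hr]
    push_cast
    linarith
  have hr0 : (0 : ℝ) < r := by linarith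
  set η : ℝ := δ * (δ / 2) with hη
  have hη0 : 0 < η := by positivity
  obtain ⟨s, hs⟩ := exists_nat_ge (3 + (1 + 4 * (r : ℝ) ^ 4 / η))
  have hr4 : 0 < 4 * (r : ℝ) ^ 4 / η := by positivity
  have hs3 : (3 : ℝ) ≤ s := by linarith
  have hs0 : (0 : ℝ) < s := by linarith
  have hs1 : (1 : ℝ) ≤ s := by linarith
  set C : ℝ := (s : ℝ) ^ J * (r : ℝ) ^ J with hC
  have hC1 : 1 ≤ C := by
    have h1 : (1 : ℝ) ≤ (s : ℝ) ^ J := one_le_pow₀ hs1
    have h2 : (1 : ℝ) ≤ (r : ℝ) ^ J := one_le_pow₀ hr1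
    nlinarith
  set B : ℝ := (J + 6) * C with hB
  have hB0 : 0 < B := by positivity
  have hlog : 0 ≤ Real.log (s * r) := Real.log_nonneg (by nlinarith)
  have hq1 : 0 ≤ 2 * (δ + Real.log (s * r)) / η := by positivity
  have hq2 : 0 ≤ 6 * B ^ 2 / η ^ 3 := by positivity
  obtain ⟨D, hD⟩ := exists_nat_ge ((C + 1) + (2 * (δ + Real.log (s * r)) / η + 6 * B ^ 2 / η ^ 3))
  have hDC : C + 1 ≤ D := by linarith
  have hD1 : (1 : ℝ) ≤ D := by linarith
  have hD0 : (0 : ℝ) < D := by linarith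
  set n : ℕ := D * s ^ J * r ^ J with hn
  have hnC : (n : ℝ) = D * C := by
    rw [hn, hC]
    push_cast
    ring
  refine ⟨{ J := J, r := r, s := s, D := D, m := (J + 2) * n + 3, δ := δ,
            hr := ?_, hs := ?_, hD := ?_, hδ := hδ0, hrδ := ?_, hα := ?_, hκ := ?_, hK := ?_,
            hD1 := ?_, hD2 := ?_, hstat := ?_, hcov := ?_ }, rfl⟩
  · omega
  · exact_mod_cast hs3
  · exact_mod_cast hD1
  · rw [hr, hδ]
    push_cast
    rw [div_le_div_iff₀ (by positivity) (by positivity)]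
    linarith
  · have h1 : (1 + δ) ^ (2 * J + 3) ≤ Real.exp (δ) ^ (2 * J + 3) :=
      pow_le_pow_left₀ (by linarith) (by linarith [Real.add_one_le_exp δ]) _
    rw [← Real.exp_nat_mul] at h1
    have h2 : ((2 * J + 3 : ℕ) : ℝ) * δ ≤ Real.log 2 := by
      have h3 : ((2 * J + 3 : ℕ) : ℝ) * δ ≤ 5 / 8 := by
        rw [hδ]
        push_cast
        rw [mul_one_div, div_le_div_iff₀ (by positivity) (by norm_num)]
        linarith
      linarith [Real.log_two_gt_d9]
    refine h1.trans ?_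
    calc Real.exp (((2 * J + 3 : ℕ) : ℝ) * δ) ≤ Real.exp (Real.log 2) := Real.exp_le_exp.2 h2
      _ = 2 := Real.exp_log (by norm_num)
  · have h1 : (1 + δ) ^ (J + 1) ≤ Real.exp (δ) ^ (J + 1) :=
      pow_le_pow_left₀ (by linarith) (by linarith [Real.add_one_le_exp δ]) _
    rw [← Real.exp_nat_mul] at h1
    have h2 : ((J + 1 : ℕ) : ℝ) * δ ≤ 1 / 4 := by
      rw [hδ]
      push_cast
      rw [mul_one_div, div_le_div_iff₀ (by positivity) (by norm_num)]
      linarith
    have h3 : Real.exp (((J + 1 : ℕ) : ℝ) * δ) ≤ Real.exp (1 / 4) := Real.exp_le_exp.2 h2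
    have h4 : Real.exp (1 / 4) ≤ 4 / 3 := by
      have h5 := Real.add_one_le_exp (-(1 / 4 : ℝ))
      rw [Real.exp_neg] at h5
      have h6 : (3 / 4 : ℝ) ≤ (Real.exp (1 / 4))⁻¹ := by linarith
      have h7 := inv_anti₀ (by norm_num) h6
      rw [inv_inv] at h7
      linarith
    linarith
  · have h1 : 4 * (r : ℝ) ^ 4 ≤ Real.exp (η * (s - 1)) := by
      have h2 : 4 * (r : ℝ) ^ 4 / η ≤ s - 1 := by linarith
      rw [div_le_iff₀ hη0] at h2
      have h3 := Real.add_one_le_exp (η * ((s : ℝ) - 1))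
      linarith
    have h2 := mul_le_mul_of_nonneg_right h1 (Real.exp_pos (-(η * s))).le
    refine h2.trans (le_of_eq ?_)
    rw [← Real.exp_add]
    congr 1
    ring
  · have h1 : 2 * (δ + Real.log (s * r)) / η ≤ D := by linarith
    rw [div_le_iff₀ hη0] at h1
    exact h1.trans (le_of_eq (mul_comm _ _))
  · have h1 : 6 * B ^ 2 / η ^ 3 ≤ D := by linarith
    rw [div_le_iff₀ (by positivity)] at h1
    have h2 : (η * D) ^ 3 / (Nat.factorial 3 : ℕ) ≤ Real.exp (η * D) :=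
      Real.pow_div_factorial_le_exp _ (by positivity) 3
    have h3 : (Nat.factorial 3 : ℕ) = 6 := rfl
    rw [h3] at h2
    push_cast at h2
    have h4 : (((J : ℝ) + 1) * ((D : ℝ) * (s : ℝ) ^ J * (r : ℝ) ^ J) + 1) *
        ((((J + 2) * n + 3 : ℕ) : ℝ) + 1) ≤ (B * D) ^ 2 := by
      have h5 : (D : ℝ) * (s : ℝ) ^ J * (r : ℝ) ^ J = D * C := by
        rw [hC]
        ring
      rw [h5]
      push_cast
      rw [hnC]
      have hDC1 : 1 ≤ (D : ℝ) * C := by nlinarith
      have h6 : ((J : ℝ) + 1) * (D * C) + 1 ≤ B * D := by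
        rw [hB]
        nlinarith
      have h7 : ((J : ℝ) + 2) * (D * C) + 3 + 1 ≤ B * D := by
        rw [hB]
        nlinarith
      rw [sq]
      exact mul_le_mul h6 h7 (by positivity) (by positivity)
    refine h4.trans (le_trans ?_ h2)
    rw [le_div_iff₀ (by norm_num)]
    have h5 : (η * (D : ℝ)) ^ 3 = (D * η ^ 3) * D ^ 2 := by ring
    rw [h5]
    have h6 := mul_le_mul_of_nonneg_right h1 (by positivity : (0 : ℝ) ≤ (D : ℝ) ^ 2)
    linarith
  · have h1 : J + 2 ≤ 2 ^ (J + 2) := Nat.lt_two_pow_self.le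
    calc 8 * (J + 2) ^ n ≤ 8 * (2 ^ (J + 2)) ^ n :=
          Nat.mul_le_mul_left _ (Nat.pow_le_pow_left h1 n)
      _ = 2 ^ ((J + 2) * n + 3) := by
          rw [← pow_mul, pow_add]
          ring
      _ ≤ 2 ^ ((J + 2) * n + 3 + 1) := Nat.pow_le_pow_right (by norm_num) (by omega)
  · have hnat : s ^ J * r ^ J + 1 ≤ D := by
      have : ((s ^ J * r ^ J + 1 : ℕ) : ℝ) ≤ (D : ℝ) := by
        push_cast
        exact hDC
      exact_mod_cast this
    set C' := s ^ J * r ^ J with hC'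
    have h1 : D < 2 ^ D := Nat.lt_two_pow_self
    have h2 : (D + 1) * (D + 1) ≤ r ^ (2 * D) := by
      calc (D + 1) * (D + 1) ≤ 2 ^ D * 2 ^ D := Nat.mul_le_mul h1 h1
        _ = 2 ^ (2 * D) := by
            rw [← pow_add]
            congr 1
            ring
        _ ≤ r ^ (2 * D) := Nat.pow_le_pow_left (by omega) _
    have h3 : D * s ^ J * r ^ J = D * C' := by
      rw [hC']
      ring
    rw [h3]
    have h4 : D * (C' + 1) ≤ D * D := Nat.mul_le_mul_left _ hnat
    have h5 : 1 ≤ D := by omega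
    nlinarith

end Pool.Agent.H68.Clock
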