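import Mathlib
import Pool.Agent.H68.Clock.Params

/-!
The two impossibility theorems.
-/

namespace Pool.Agent.H68.Clock

open Finset MeasureTheory

/-- The prior with `P (v ≥ s ^ k) = q ^ k`. -/
noncomputable def levelPrior (n J : ℕ) (q s : ℝ) (hs : 1 < s) (h0 : 0 ≤ q) (h1 : q ≤ 1) :
    Prior n where
  supp := fun _ => univ.image fun k : Fin (J + 1) => s ^ (k : ℕ)
  prob := fun _ x => ∑ k : Fin (J + 1), if s ^ (k : ℕ) = x then lw J q k else 0
  supp_nonneg := by
    intro i x hx
    obtain ⟨k, _, rfl⟩ := Finset.mem_image.1 hx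
    exact pow_nonneg (by linarith) _
  prob_nonneg := by
    intro i x _
    refine Finset.sum_nonneg fun k _ => ?_
    split_ifs
    · exact lw_nonneg J h0 h1 k
    · exact le_rfl
  prob_sum := by
    intro i
    rw [Finset.sum_comm]
    have h : ∀ k : Fin (J + 1), ∑ x ∈ univ.image (fun k : Fin (J + 1) => s ^ (k : ℕ)),
        (if s ^ (k : ℕ) = x then lw J q k else 0) = lw J q k := by
      intro k
      rw [Finset.sum_ite_eq, if_pos (Finset.mem_image_of_mem _ (Finset.mem_univ k))]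
    simp_rw [h]
    exact lw_sum J q

theorem pow_inj_fin {s : ℝ} (hs : 1 < s) {J : ℕ} :
    Function.Injective fun k : Fin (J + 1) => s ^ (k : ℕ) := by
  intro k k' h
  exact Fin.ext ((pow_right_inj₀ (by linarith) hs.ne').1 h)

theorem levelPrior_prob {n J : ℕ} {q s : ℝ} (hs : 1 < s) (h0 : 0 ≤ q) (h1 : q ≤ 1) (i : Fin n)
    (k : Fin (J + 1)) :
    (levelPrior n J q s hs h0 h1).prob i (s ^ (k : ℕ)) = lw J q k := by
  show ∑ k' : Fin (J + 1), (if s ^ (k' : ℕ) = s ^ (k : ℕ) then lw J q k' else 0) = lw J q k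
  rw [Finset.sum_eq_single k]
  · simp
  · intro k' _ hk'
    rw [if_neg]
    intro h
    exact hk' (pow_inj_fin hs h)
  · simp

theorem levelPrior_expect {n J : ℕ} {q s : ℝ} (hs : 1 < s) (h0 : 0 ≤ q) (h1 : q ≤ 1)
    (f : (Fin n → ℝ) → ℝ) :
    (levelPrior n J q s hs h0 h1).expect f =
      pE (fun _ => lw J q) (fun x : Fin n → Fin (J + 1) => f (val s x)) := by
  unfold Prior.expect pE
  have e1 : Fintype.piFinset (levelPrior n J q s hs h0 h1).supp =
      (univ : Finset (Fin n → Fin (J + 1))).image (fun x => val s x) := by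
    have := Fintype.piFinset_image (fun (_ : Fin n) (k : Fin (J + 1)) => s ^ (k : ℕ))
      (fun _ => univ)
    rw [Fintype.piFinset_univ] at this
    exact this
  rw [e1, Finset.sum_image]
  · refine Finset.sum_congr rfl fun x _ => ?_
    congr 1
    exact Finset.prod_congr rfl fun i _ => levelPrior_prob hs h0 h1 i (x i)
  · intro x _ y _ hxy
    funext i
    exact pow_inj_fin hs (congrFun hxy i)

theorem welfare_nonneg {n : ℕ} {F : Set (Finset (Fin n))} (A : ClockAuction F) (v : Fin n → ℝ)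
    (hv : ∀ i, 0 ≤ v i) : 0 ≤ A.welfare v := by
  unfold ClockAuction.welfare
  split_ifs
  · exact Finset.sum_nonneg fun i _ => hv i
  · exact le_rfl

theorem welfare_le {n : ℕ} {F : Set (Finset (Fin n))} (A : ClockAuction F) (v : Fin n → ℝ)
    (hv : ∀ i, 0 ≤ v i) : A.welfare v ≤ ∑ i, v i := by
  unfold ClockAuction.welfare
  split_ifs
  · exact Finset.sum_le_sum_of_subset_of_nonneg (Finset.subset_univ _) fun i _ _ => hv i
  · exact Finset.sum_nonneg fun i _ => hv i

/-- The Bayesian impossibility. -/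
theorem bayesian (c : ℝ) : ∃ (n : ℕ) (F : Set (Finset (Fin n))) (D : Prior n),
    (∅ ∈ F ∧ ∀ S ∈ F, ∀ T ⊆ S, T ∈ F) ∧
    (∀ i, ((D.supp i).card : ℝ) ≤ 36 * |c| + 2) ∧
    ∀ A : ClockAuction F, c * D.expect A.welfare < D.expect (optWelfare F) := by
  classical
  set J : ℕ := ⌊36 * |c|⌋₊ + 1 with hJ
  have hc : 0 ≤ |c| := abs_nonneg c
  have hJ1 : 36 * |c| < J := by
    rw [hJ]
    push_cast
    exact Nat.lt_floor_add_one _
  have hJ2 : (J : ℝ) ≤ 36 * |c| + 1 := by
    rw [hJ]
    push_cast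
    linarith [Nat.floor_le (by positivity : 0 ≤ 36 * |c|)]
  obtain ⟨P, hP⟩ := exists_par J (by omega)
  obtain ⟨n, F, hF, hW, hO⟩ := exists_instance P
  have hs1 : (1 : ℝ) < P.s := by linarith [P.three_le_s]
  have hM : 0 < (P.D : ℝ) * P.s ^ P.J := by
    have h1 : (1 : ℝ) ≤ P.D := by exact_mod_cast P.hD
    have := P.s_pos
    positivity
  refine ⟨n, F, levelPrior n P.J P.q P.s hs1 P.q_pos.le P.q_le_one, hF, ?_, ?_⟩
  · intro i
    have h1 : ((levelPrior n P.J P.q P.s hs1 P.q_pos.le P.q_le_one).supp i).card ≤ P.J + 1 := by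
      refine Finset.card_image_le.trans ?_
      simp
    have h2 : (((levelPrior n P.J P.q P.s hs1 P.q_pos.le P.q_le_one).supp i).card : ℝ) ≤
        P.J + 1 := by exact_mod_cast h1
    have h3 : (P.J : ℝ) = J := by rw [hP]
    linarith
  · intro A
    rw [levelPrior_expect, levelPrior_expect]
    have h1 := hW A
    set W := pE (fun _ => lw P.J P.q)
      (fun x : Fin n → Fin (P.J + 1) => A.welfare (val (P.s : ℝ) x)) with hWdef
    have h0 : 0 ≤ W := by
      rw [hWdef]
      unfold pE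
      refine Finset.sum_nonneg fun x _ => mul_nonneg
        (Finset.prod_nonneg fun i _ => lw_nonneg P.J P.q_pos.le P.q_le_one _) ?_
      exact welfare_nonneg A _ fun i => pow_nonneg P.s_pos.le _
    refine lt_of_lt_of_le ?_ hO
    calc c * W ≤ |c| * W := mul_le_mul_of_nonneg_right (le_abs_self c) h0
      _ ≤ |c| * (6 * ((P.D : ℝ) * P.s ^ P.J)) := mul_le_mul_of_nonneg_left h1 hc
      _ < (P.J : ℝ) * ((P.D : ℝ) * P.s ^ P.J) / 6 := by
          rw [hP]
          rw [hP] at hM
          nlinarith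

theorem optWelfare_nonneg {n : ℕ} (F : Set (Finset (Fin n))) (h : ∅ ∈ F) (v : Fin n → ℝ) :
    0 ≤ optWelfare F v := by
  have := optWelfare_ge F v ∅ h
  simpa using this

/-- The randomized impossibility. -/
theorem randomized.{u} (c : ℝ) : ∃ (n : ℕ) (F : Set (Finset (Fin n))),
    (∅ ∈ F ∧ ∀ S ∈ F, ∀ T ⊆ S, T ∈ F) ∧
    ∀ (Ω : Type u) [MeasurableSpace Ω] (μ : Measure Ω) [IsProbabilityMeasure μ]
      (A : Ω → ClockAuction F),
      (∀ v : Fin n → ℝ, (∀ i, 0 ≤ v i) → Measurable fun w => (A w).welfare v) →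
      ∃ v : Fin n → ℝ, (∀ i, 0 ≤ v i) ∧ c * ∫ w, (A w).welfare v ∂μ < optWelfare F v := by
  classical
  obtain ⟨n, F, D, hF, _, hA⟩ := bayesian c
  refine ⟨n, F, hF, fun Ω _ μ _ A hmeas => ?_⟩
  by_contra hcon
  push Not at hcon
  have hint : ∀ v : Fin n → ℝ, (∀ i, 0 ≤ v i) → Integrable (fun w => (A w).welfare v) μ := by
    intro v hv
    refine Integrable.of_bound (hmeas v hv).aestronglyMeasurable (∑ i, v i) ?_
    refine Filter.Eventually.of_forall fun w => ?_
    rw [Real.norm_eq_abs, abs_of_nonneg (welfare_nonneg _ _ hv)]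
    exact welfare_le _ _ hv
  have hsupp : ∀ v ∈ Fintype.piFinset D.supp, ∀ i, 0 ≤ v i := fun v hv i =>
    D.supp_nonneg i _ (Fintype.mem_piFinset.1 hv i)
  have hprob : ∀ v ∈ Fintype.piFinset D.supp, 0 ≤ ∏ i, D.prob i (v i) := fun v hv =>
    Finset.prod_nonneg fun i _ => D.prob_nonneg i _ (Fintype.mem_piFinset.1 hv i)
  have hint2 : Integrable (fun w => D.expect (A w).welfare) μ := by
    unfold Prior.expect
    refine integrable_finsetSum _ fun v hv => ?_
    exact (hint v (hsupp v hv)).const_mul _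
  have h1 : D.expect (optWelfare F) ≤ c * ∫ w, D.expect (A w).welfare ∂μ := by
    have h2 : ∫ w, D.expect (A w).welfare ∂μ =
        ∑ v ∈ Fintype.piFinset D.supp, (∏ i, D.prob i (v i)) * ∫ w, (A w).welfare v ∂μ := by
      unfold Prior.expect
      rw [integral_finsetSum _ fun v hv => (hint v (hsupp v hv)).const_mul _]
      refine Finset.sum_congr rfl fun v _ => ?_
      rw [integral_const_mul]
    rw [h2, Finset.mul_sum]
    unfold Prior.expect
    refine Finset.sum_le_sum fun v hv => ?_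
    have h3 := mul_le_mul_of_nonneg_left (hcon v (hsupp v hv)) (hprob v hv)
    linarith
  obtain ⟨w, hw⟩ := exists_integral_le (hint2.const_mul c)
  rw [integral_const_mul] at hw
  exact absurd (hA (A w)) (not_lt.2 (h1.trans hw))

end Pool.Agent.H68.Clock
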